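import Mathlib
import Pool.Agent.helper82.Sch.Defs
import Pool.Agent.helper82.Sch.Ext

/-!
# Raising to powers: definitions
-/

set_option autoImplicit false

namespace Pool.Agent.helper82.PW

open Complex MvPolynomial Pool.Agent.helper82.Sch

/-! ## derivations of a general field of characteristic zero -/

section general

variable {F : Type} [Field F] [CharZero F]

/-- the field of constants of a set of derivations -/
noncomputable def gcon (Δ : Set (Derivation ℚ F F)) : IntermediateField ℚ F where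
  carrier := {a | ∀ D ∈ Δ, D a = 0}
  mul_mem' := by
    intro a b ha hb D hD
    rw [Derivation.leibniz, ha D hD, hb D hD]
    simp
  one_mem' := by
    intro D _
    exact D.map_one_eq_zero
  add_mem' := by
    intro a b ha hb D hD
    rw [map_add, ha D hD, hb D hD, add_zero]
  zero_mem' := by
    intro D _
    exact map_zero D
  algebraMap_mem' := by
    intro r D _
    exact D.map_algebraMap r
  inv_mem' := by
    intro a ha D hD
    show D a⁻¹ = 0
    rw [Derivation.leibniz_inv, ha D hD, smul_zero]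

theorem mem_gcon {Δ : Set (Derivation ℚ F F)} {a : F} : a ∈ gcon Δ ↔ ∀ D ∈ Δ, D a = 0 := Iff.rfl

/-- the derivations which vanish on `K` -/
def gder (K : Set F) : Submodule F (Derivation ℚ F F) where
  carrier := {D | ∀ a ∈ K, D a = 0}
  add_mem' := by
    intro D E hD hE a ha
    rw [Derivation.add_apply, hD a ha, hE a ha, add_zero]
  zero_mem' := by
    intro a _
    rfl
  smul_mem' := by
    intro c D hD a ha
    rw [Derivation.smul_apply, hD a ha, smul_zero]

theorem mem_gder {K : Set F} {D : Derivation ℚ F F} : D ∈ gder K ↔ ∀ a ∈ K, D a = 0 := Iff.rfl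

end general

/-! ## derivations of the complex numbers and ranks of tuples -/

/-- the values of a derivation on a tuple -/
noncomputable def evD {J : Type} (u : J → ℂ) : Der →ₗ[ℂ] (J → ℂ) where
  toFun D j := D (u j)
  map_add' _ _ := rfl
  map_smul' _ _ := rfl

theorem evD_apply {J : Type} (u : J → ℂ) (D : Der) (j : J) : evD u D j = D (u j) := rfl

/-- the space of the values on `u` of the derivations which vanish on `S0` -/
noncomputable def VV (S0 : Set ℂ) {J : Type} (u : J → ℂ) : Submodule ℂ (J → ℂ) :=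
  (derOver S0).map (evD u)

theorem mem_VV {S0 : Set ℂ} {J : Type} {u v : J → ℂ} :
    v ∈ VV S0 u ↔ ∃ D : Der, (∀ a ∈ S0, D a = 0) ∧ ∀ j, D (u j) = v j := by
  constructor
  · rintro ⟨D, hD, rfl⟩
    exact ⟨D, hD, fun _ => rfl⟩
  · rintro ⟨D, hD, h⟩
    exact ⟨D, hD, funext h⟩

/-- the rank of the tuple `u` over `S0` (the transcendence degree of `ℚ(S0, u)` over `ℚ(S0)`) -/
noncomputable def rk (S0 : Set ℂ) {J : Type} (u : J → ℂ) : ℕ := Module.finrank ℂ (VV S0 u)

/-! ## the approximation property -/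

/-- `p / q` is a point very close to `s`, all coordinates are different from those of `s`, and the
distances are separated -/
def IsApp {r : ℕ} (s : Fin r → ℝ) (m q : ℕ) (p : Fin r → ℤ) : Prop :=
  (∀ i, s i ≠ (p i : ℝ) / (q : ℝ)) ∧
  (∀ i, |s i - (p i : ℝ) / (q : ℝ)| < Real.exp (-((q : ℝ) ^ m))) ∧
  ∀ i j, i < j → |s j - (p j : ℝ) / (q : ℝ)| ≤ |s i - (p i : ℝ) / (q : ℝ)| ^ m

/-- separated simultaneous hyper-approximation -/
def Sep {r : ℕ} (s : Fin r → ℝ) : Prop :=
  ∀ m : ℕ, ∃ q : ℕ, 2 ≤ q ∧ ∃ p : Fin r → ℤ, IsApp s m q p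

/-- the complex point -/
noncomputable def cs {r : ℕ} (s : Fin r → ℝ) : Fin r → ℂ := fun i => (s i : ℂ)

/-- the rational point `p / q` -/
noncomputable def rat {r : ℕ} (q : ℕ) (p : Fin r → ℤ) : Fin r → ℂ := fun i => (p i : ℂ) / (q : ℂ)

/-- the field `ℚ(s)` -/
noncomputable def KK {r : ℕ} (s : Fin r → ℝ) : IntermediateField ℚ ℂ :=
  IntermediateField.adjoin ℚ (Set.range (cs s))

/-- the dimension over `K` of the `K`-span of the tuple `z` -/
noncomputable def dimK (K : IntermediateField ℚ ℂ) {n : ℕ} (z : Fin n → ℂ) : ℕ :=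
  Module.finrank K (Submodule.span K (Set.range z))

/-! ## the equations -/

variable {r n : ℕ}

/-- the point `(t, exp w)` -/
noncomputable def pt (t : Fin r → ℂ) (w : Fin n → ℂ) : Fin r ⊕ Fin n → ℂ :=
  Sum.elim t fun i => exp (w i)

/-- equations: `P(t, exp w) = 0` with a polynomial `P`, or `∑ i, M i (t) * w i = 0` -/
abbrev EQ (r n : ℕ) : Type :=
  MvPolynomial (Fin r ⊕ Fin n) ℤ ⊕ (Fin n → MvPolynomial (Fin r) ℤ)

/-- the function of an equation -/
noncomputable def FE (t : Fin r → ℂ) (w : Fin n → ℂ) : EQ r n → ℂ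
  | Sum.inl P => aeval (pt t w) P
  | Sum.inr M => ∑ i, aeval t (M i) * w i

/-- the gradient of an equation with respect to `w` -/
noncomputable def row (t : Fin r → ℂ) (w : Fin n → ℂ) : EQ r n → Fin n → ℂ
  | Sum.inl P => fun i => exp (w i) * aeval (pt t w) (pderiv (Sum.inr i) P)
  | Sum.inr M => fun i => aeval t (M i)

/-- the pairing of the gradient of `P` at the point `u` with the vector `v` -/
noncomputable def grad {J : Type} [Fintype J] (P : MvPolynomial J ℤ) (u v : J → ℂ) : ℂ :=
  ∑ j, aeval u (pderiv j P) * v j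

/-- integer combinations of a tuple -/
noncomputable def cmb {ν : ℕ} (N : Fin ν → Fin n → ℤ) (z : Fin n → ℂ) : Fin ν → ℂ :=
  fun l => ∑ i, (N l i : ℂ) * z i

/-- vectors which are values on `(s, exp z)` of derivations vanishing on `S0` and on
all `exp (N z)` -/
noncomputable def SS1 (S0 : Set ℂ) {ν : ℕ} (t : Fin r → ℂ) (z : Fin n → ℂ)
    (N : Fin ν → Fin n → ℤ) : Submodule ℂ (Fin r ⊕ Fin n → ℂ) where
  carrier := {v | v ∈ VV S0 (pt t z) ∧ ∀ l, ∑ i, (N l i : ℂ) * (v (Sum.inr i) / exp (z i)) = 0}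
  add_mem' := by
    rintro a b ⟨ha, ha'⟩ ⟨hb, hb'⟩
    refine ⟨add_mem ha hb, fun l => ?_⟩
    have h1 := ha' l
    have h2 := hb' l
    simp only [Pi.add_apply, add_div, mul_add, Finset.sum_add_distrib, h1, h2, add_zero]
  zero_mem' := ⟨zero_mem _, fun l => by simp⟩
  smul_mem' := by
    rintro c a ⟨ha, ha'⟩
    refine ⟨Submodule.smul_mem _ c ha, fun l => ?_⟩
    have h1 := ha' l
    have h2 : ∀ i, (N l i : ℂ) * ((c • a) (Sum.inr i) / exp (z i)) =
        c * ((N l i : ℂ) * (a (Sum.inr i) / exp (z i))) := by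
      intro i
      simp only [Pi.smul_apply, smul_eq_mul]
      ring
    simp only [h2, ← Finset.mul_sum, h1, mul_zero]

/-- vectors which satisfy all linear relations over `ℚ(s)` satisfied by `z` and are killed by `N` -/
noncomputable def SS2 {ν : ℕ} (t : Fin r → ℂ) (z : Fin n → ℂ)
    (N : Fin ν → Fin n → ℤ) : Submodule ℂ (Fin n → ℂ) where
  carrier := {w | (∀ M : Fin n → MvPolynomial (Fin r) ℤ, FE t z (Sum.inr M) = 0 →
    ∑ i, aeval t (M i) * w i = 0) ∧ ∀ l, ∑ i, (N l i : ℂ) * w i = 0}
  add_mem' := by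
    rintro a b ⟨ha, ha'⟩ ⟨hb, hb'⟩
    refine ⟨fun M hM => ?_, fun l => ?_⟩
    · have h1 := ha M hM
      have h2 := hb M hM
      simp only [Pi.add_apply, mul_add, Finset.sum_add_distrib, h1, h2, add_zero]
    · have h1 := ha' l
      have h2 := hb' l
      simp only [Pi.add_apply, mul_add, Finset.sum_add_distrib, h1, h2, add_zero]
  zero_mem' := ⟨fun M _ => by simp, fun l => by simp⟩
  smul_mem' := by
    rintro c a ⟨ha, ha'⟩
    refine ⟨fun M hM => ?_, fun l => ?_⟩
    · have h1 := ha M hM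
      have h2 : ∀ i, aeval t (M i) * ((c • a) i) = c * (aeval t (M i) * a i) := by
        intro i
        simp only [Pi.smul_apply, smul_eq_mul]
        ring
      simp only [h2, ← Finset.mul_sum, h1, mul_zero]
    · have h1 := ha' l
      have h2 : ∀ i, (N l i : ℂ) * ((c • a) i) = c * ((N l i : ℂ) * a i) := by
        intro i
        simp only [Pi.smul_apply, smul_eq_mul]
        ring
      simp only [h2, ← Finset.mul_sum, h1, mul_zero]

/-- the theorem for all shorter tuples -/
def IH (s : Fin r → ℝ) (n : ℕ) : Prop :=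
  ∀ ν < n, ∀ z : Fin ν → ℂ, LinearIndependent ℚ z →
    ν ≤ rk (Set.range (cs s)) (fun i => exp (z i)) + dimK (KK s) z

/-- the functions analytic at a point -/
def An (a : Fin r → ℂ) : Subalgebra ℂ ((Fin r → ℂ) → ℂ) where
  carrier := {g | AnalyticAt ℂ g a}
  mul_mem' := fun hf hg => AnalyticAt.mul hf hg
  add_mem' := fun hf hg => AnalyticAt.add hf hg
  algebraMap_mem' := fun _ => analyticAt_const

/-- a bound for the exponents in Perron's relation -/
def NN (n D : ℕ) : ℕ := 2 * (D * (n + 1)) ^ n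

/-- a bound for the coefficients in Perron's relation -/
def UU (n D H : ℕ) : ℕ :=
  NN n D ^ (n + 1) * ((D + 1) ^ n * H) ^ ((n + 1) * NN n D)

/-- every finite subset is contained in a finite subset which has, in a suitable order, the
approximation property -/
def Good (S : Set ℝ) : Prop :=
  ∀ T : Set ℝ, T.Finite → T ⊆ S → ∃ (r : ℕ) (s : Fin r → ℝ), Sep s ∧ T ⊆ Set.range s ∧
    Set.range s ⊆ S

/-- the field `ℚ(S)` -/
noncomputable def KS (S : Set ℝ) : IntermediateField ℚ ℂ :=
  IntermediateField.adjoin ℚ ((fun x : ℝ => (x : ℂ)) '' S)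

/-- a rapidly growing sequence -/
def tower : ℕ → ℕ
  | 0 => 2
  | k + 1 => 2 ^ tower k ^ 3

/-- explicit numbers -/
noncomputable def lamb (x : ℝ) : ℝ := ∑' k : ℕ, ((2 : ℝ) ^ ⌊(tower k : ℝ) ^ x⌋₊)⁻¹

end Pool.Agent.helper82.PW
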