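import Mathlib
import Pool.Agent.helper82.PW.Defs
import Pool.Agent.helper82.Sch.AxRank

/-!
# Algebraic independence from the rank (module PW-5)
-/

set_option autoImplicit false

namespace Pool.Agent.helper82.PW

open Complex MvPolynomial Pool.Agent.helper82.Sch

theorem ai_of_rk {n : ℕ} (K : IntermediateField ℚ ℂ) {m : ℕ} (x : Fin n → ℂ)
    (h : m ≤ rk (K : Set ℂ) x) :
    ∃ e : Fin m ↪ Fin n, AlgebraicIndependent K (fun i => x (e i)) := by
  classical
  -- a maximal set of indices
  obtain ⟨s, hs, hmax⟩ : ∃ s : Finset (Fin n), AlgebraicIndepOn K x (s : Set (Fin n)) ∧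
      ∀ t : Finset (Fin n), AlgebraicIndepOn K x (t : Set (Fin n)) → t.card ≤ s.card := by
    have h0 : AlgebraicIndepOn K x ((∅ : Finset (Fin n)) : Set (Fin n)) := by
      rw [Finset.coe_empty]
      refine algebraicIndependent_empty_type_iff.2 ?_
      exact (algebraMap K ℂ).injective
    obtain ⟨s, hs, hm⟩ := Finset.exists_max_image
      (Finset.univ.filter fun t : Finset (Fin n) => AlgebraicIndepOn K x (t : Set (Fin n)))
      Finset.card ⟨∅, by simpa using h0⟩
    refine ⟨s, (Finset.mem_filter.1 hs).2, fun t ht => hm t ?_⟩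
    exact Finset.mem_filter.2 ⟨Finset.mem_univ _, ht⟩
  -- the other coordinates are algebraic
  have halg : ∀ j, IsAlgebraic (Algebra.adjoin K (x '' (s : Set (Fin n)))) (x j) := by
    intro j
    by_cases hj : j ∈ s
    · exact isAlgebraic_algebraMap (A := ℂ)
        (⟨x j, Algebra.subset_adjoin ⟨j, hj, rfl⟩⟩ : Algebra.adjoin K (x '' (s : Set (Fin n))))
    · by_contra hcon
      have h1 : AlgebraicIndepOn K x (insert j (s : Set (Fin n))) := hs.insert hcon
      have h2 := hmax (insert j s) (by rw [Finset.coe_insert]; exact h1)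
      rw [Finset.card_insert_of_notMem hj] at h2
      omega
  -- the rank is at most the number of elements of `s`
  have hcard : rk (K : Set ℂ) x ≤ s.card := by
    let φ : (Fin n → ℂ) →ₗ[ℂ] (s → ℂ) :=
      { toFun := fun v i => v i
        map_add' := fun _ _ => rfl
        map_smul' := fun _ _ => rfl }
    have hinj : Function.Injective (φ.comp (VV (K : Set ℂ) x).subtype) := by
      rw [← LinearMap.ker_eq_bot, LinearMap.ker_eq_bot']
      rintro ⟨v, hv⟩ hv0
      obtain ⟨D, hD, hDv⟩ := mem_VV.1 hv
      have h3 : ∀ t ∈ x '' (s : Set (Fin n)), D t = 0 := by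
        rintro _ ⟨i, hi, rfl⟩
        rw [hDv]
        exact congrFun hv0 ⟨i, hi⟩
      refine Subtype.ext (funext fun j => ?_)
      show v j = 0
      rw [← hDv]
      exact der_closure hD h3 (halg j)
    have h4 := LinearMap.finrank_le_finrank_of_injective hinj
    rw [Module.finrank_fintype_fun_eq_card, Fintype.card_coe] at h4
    exact h4
  -- choose `m` of the elements
  obtain ⟨t, ht, htc⟩ := Finset.exists_subset_card_eq (h.trans hcard)
  let e : Fin m ≃ t := (Fintype.equivFinOfCardEq (by rw [Fintype.card_coe, htc])).symm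
  refine ⟨⟨fun i => (e i : Fin n), fun i j hij => e.injective (Subtype.ext hij)⟩, ?_⟩
  have h5 : AlgebraicIndepOn K x (t : Set (Fin n)) := hs.mono (by exact_mod_cast ht)
  exact h5.comp (fun i => (⟨(e i : Fin n), (e i).2⟩ : (t : Set (Fin n))))
    (fun i j hij => e.injective (Subtype.ext (Subtype.ext_iff.1 hij)))

end Pool.Agent.helper82.PW
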