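import Mathlib
import Pool.Agent.helper82.PW.Defs

/-!
# PW-4: derivations with prescribed values
-/

set_option autoImplicit false

namespace Pool.Agent.helper82.PW

open Complex MvPolynomial Pool.Agent.helper82.Sch

section

variable {J : Type} [Fintype J]

theorem grad_add (P Q : MvPolynomial J ℤ) (u v : J → ℂ) :
    grad (P + Q) u v = grad P u v + grad Q u v := by
  simp only [grad, map_add, add_mul, Finset.sum_add_distrib]

theorem grad_neg (P : MvPolynomial J ℤ) (u v : J → ℂ) :
    grad (-P) u v = - grad P u v := by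
  simp only [grad, map_neg, neg_mul, Finset.sum_neg_distrib]

theorem grad_C (c : ℤ) (u v : J → ℂ) : grad (C c) u v = 0 := by
  simp only [grad, pderiv_C, map_zero, zero_mul, Finset.sum_const_zero]

theorem grad_mul (P Q : MvPolynomial J ℤ) (u v : J → ℂ) :
    grad (P * Q) u v = aeval u P * grad Q u v + aeval u Q * grad P u v := by
  simp only [grad, pderiv_mul, map_add, map_mul, Finset.mul_sum]
  rw [← Finset.sum_add_distrib]
  refine Finset.sum_congr rfl fun j _ => ?_
  ring

theorem grad_X (j : J) (u v : J → ℂ) : grad (X j : MvPolynomial J ℤ) u v = v j := by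
  classical
  unfold grad
  rw [Finset.sum_eq_single j]
  · rw [pderiv_X_self, map_one, one_mul]
  · intro i _ hi
    rw [pderiv_X_of_ne hi.symm, map_zero, zero_mul]
  · simp

/-- PW-4b -/
theorem grad_der (D : Der) (u : J → ℂ) (P : MvPolynomial J ℤ) :
    D (aeval u P) = grad P u (fun j => D (u j)) := by
  induction P using MvPolynomial.induction_on with
  | C c =>
    rw [aeval_C, grad_C]
    have h1 : (algebraMap ℤ ℂ c) = algebraMap ℚ ℂ (c : ℚ) := by simp
    rw [h1, D.map_algebraMap]
  | add P Q hP hQ => rw [map_add, map_add, hP, hQ, grad_add]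
  | mul_X P j hP =>
    rw [map_mul, Derivation.leibniz, hP, grad_mul, aeval_X, grad_X, smul_eq_mul, smul_eq_mul]

/-- PW-4a -/
theorem exists_der (u v : J → ℂ)
    (h : ∀ P : MvPolynomial J ℤ, aeval u P = 0 → grad P u v = 0) :
    ∃ D : Der, ∀ j, D (u j) = v j := by
  classical
  set φ : MvPolynomial J ℤ →ₐ[ℤ] ℂ := aeval u with hφ
  set A : Subalgebra ℤ ℂ := φ.range with hA
  have hwd : ∀ g g' : MvPolynomial J ℤ, φ g = φ g' → grad g u v = grad g' u v := by
    intro g g' hg
    have h1 := h (g + -g') (by
      show φ (g + -g') = 0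
      rw [map_add, map_neg]; exact add_neg_eq_zero.2 hg)
    rw [grad_add, grad_neg] at h1
    exact add_neg_eq_zero.1 h1
  have hsurj : ∀ a : A, ∃ g, φ g = a := fun a => a.2
  choose s hs using hsurj
  have hd : ∀ (a : A) (g : MvPolynomial J ℤ), φ g = a → grad (s a) u v = grad g u v :=
    fun a g hg => hwd _ _ ((hs a).trans hg.symm)
  let d : Derivation ℤ A ℂ := Derivation.mk'
    { toFun := fun a => grad (s a) u v
      map_add' := fun a b => by
        rw [hd (a + b) (s a + s b) (by rw [map_add, hs, hs]; rfl), grad_add]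
      map_smul' := fun c a => by
        rw [hd (c • a) (C c * s a) (by
          rw [map_mul, hs, hφ, aeval_C]
          show (algebraMap ℤ ℂ c) * (a : ℂ) = c • (a : ℂ)
          rw [Algebra.smul_def]), grad_mul, grad_C, aeval_C]
        simp [Algebra.smul_def] }
    (fun a b => by
      show grad (s (a * b)) u v = _
      rw [hd (a * b) (s a * s b) (by rw [map_mul, hs, hs]; rfl), grad_mul]
      have e1 : (aeval u (s a) : ℂ) = a := hs a
      have e2 : (aeval u (s b) : ℂ) = b := hs b
      rw [e1, e2]
      rfl)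
  obtain ⟨D, hD⟩ := ext_der (R := ℤ) (A := A) (F := ℂ) Subtype.val_injective d
  let D' : Der := Derivation.mk' (D.toLinearMap.toAddMonoidHom.toRatLinearMap) (fun a b => by
    show D (a * b) = a • D b + b • D a
    rw [Derivation.leibniz])
  refine ⟨D', fun j => ?_⟩
  have h1 := hD ⟨u j, ⟨X j, by simp [hφ]⟩⟩
  have h2 : d ⟨u j, ⟨X j, by simp [hφ]⟩⟩ = v j := by
    show grad (s ⟨u j, _⟩) u v = v j
    rw [hd _ (X j) (by simp [hφ]), grad_X]
  rw [h2] at h1
  exact h1

end

end Pool.Agent.helper82.PW
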