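import Mathlib
import Pool.Agent.helper82.PW.Defs
import Pool.Agent.helper82.PW.ExDer

/-!
# PW-16: the choice of a nonsingular square system
-/

set_option autoImplicit false

namespace Pool.Agent.helper82.PW

open Complex MvPolynomial Topology Filter Pool.Agent.helper82.Sch

variable {r n : ℕ}

/-- the gradient vector -/
noncomputable def choice_gv {J : Type} (P : MvPolynomial J ℤ) (u : J → ℂ) : J → ℂ :=
  fun j => aeval u (pderiv j P)

theorem choice_single (f : (Fin n → ℂ) →ₗ[ℂ] ℂ) (x : Fin n → ℂ) :
    f x = ∑ i, x i * f (Pi.single i 1) := by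
  classical
  conv_lhs => rw [← Finset.univ_sum_single x]
  rw [map_sum]
  refine Finset.sum_congr rfl fun i _ => ?_
  have h : (Pi.single i (x i) : Fin n → ℂ) = x i • (Pi.single i (1 : ℂ) : Fin n → ℂ) := by
    rw [← Pi.single_smul]
    simp
  rw [h, map_smul, smul_eq_mul]

theorem choice_span (S : Set (Fin n → ℂ))
    (h : ∀ v : Fin n → ℂ, (∀ x ∈ S, ∑ i, x i * v i = 0) → v = 0) :
    Submodule.span ℂ S = ⊤ := by
  classical
  by_contra hne
  obtain ⟨f, hf0, hf⟩ := Submodule.exists_le_ker_of_lt_top _ (lt_top_iff_ne_top.2 hne)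
  apply hf0
  have h2 : (fun i => f (Pi.single i 1)) = 0 := by
    apply h
    intro x hx
    rw [← choice_single]
    exact hf (Submodule.subset_span hx)
  ext x
  rw [LinearMap.comp_apply, LinearMap.single_apply, LinearMap.comp_apply]
  simpa using congrFun h2 x

theorem choice (s : Fin r → ℝ) (z : Fin n → ℂ)
    (hs : ∀ P : MvPolynomial (Fin r) ℤ, aeval (cs s) P = 0 → P = 0)
    (hnd : ∀ v : Fin n → ℂ,
      (∀ e : EQ r n, FE (cs s) z e = 0 → ∑ i, row (cs s) z e i * v i = 0) → v = 0) :
    ∃ τ : Fin n → EQ r n, (∀ k, FE (cs s) z (τ k) = 0) ∧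
      (Matrix.of fun k i => row (cs s) z (τ k) i).det ≠ 0 ∧
      ∀ v : Fin r ⊕ Fin n → ℂ,
        (∀ k P, τ k = Sum.inl P → grad P (pt (cs s) z) v = 0) → v ∈ VV ∅ (pt (cs s) z) := by
  classical
  set u : Fin r ⊕ Fin n → ℂ := pt (cs s) z with hu
  let SX : Set (Fin n → ℂ) := {x | ∃ P : MvPolynomial (Fin r ⊕ Fin n) ℤ,
    FE (cs s) z (Sum.inl P) = 0 ∧ row (cs s) z (Sum.inl P) = x}
  let SM : Set (Fin n → ℂ) := {x | ∃ M : Fin n → MvPolynomial (Fin r) ℤ,
    FE (cs s) z (Sum.inr M) = 0 ∧ row (cs s) z (Sum.inr M) = x}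
  obtain ⟨b0, hb0, hb0span, hb0li⟩ := exists_linearIndependent ℂ SX
  obtain ⟨b, hbt, hb0b, hbspan, hbli⟩ := exists_linearIndepOn_id_extension (K := ℂ) (s := b0)
    (t := SX ∪ SM) hb0li (hb0.trans Set.subset_union_left)
  have hspan : Submodule.span ℂ b = ⊤ := by
    have h1 : Submodule.span ℂ (SX ∪ SM) = ⊤ := by
      apply choice_span
      intro v hv
      apply hnd
      rintro (P | M) he
      · exact hv _ (Or.inl ⟨P, he, rfl⟩)
      · exact hv _ (Or.inr ⟨M, he, rfl⟩)
    rw [← top_le_iff, ← h1]
    exact Submodule.span_le.2 hbspan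
  have hbli' : LinearIndependent ℂ (Subtype.val : b → (Fin n → ℂ)) := hbli
  let B : Module.Basis b ℂ (Fin n → ℂ) := Module.Basis.mk hbli' (by
    rw [Subtype.range_coe, hspan])
  have : Finite b := Module.Finite.finite_basis B
  have : Fintype b := Fintype.ofFinite b
  have hcard : Fintype.card b = Fintype.card (Fin n) := by
    rw [← Module.finrank_eq_card_basis B, Module.finrank_fintype_fun_eq_card]
  let eqv : Fin n ≃ b := Fintype.equivOfCardEq hcard.symm
  have hex : ∀ x : b, ∃ e : EQ r n, FE (cs s) z e = 0 ∧ row (cs s) z e = x ∧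
      ((x : Fin n → ℂ) ∈ b0 → ∃ P, e = Sum.inl P) := by
    intro x
    by_cases hx : (x : Fin n → ℂ) ∈ b0
    · obtain ⟨P, hP1, hP2⟩ := hb0 hx
      exact ⟨Sum.inl P, hP1, hP2, fun _ => ⟨P, rfl⟩⟩
    · rcases hbt x.2 with ⟨P, hP1, hP2⟩ | ⟨M, hM1, hM2⟩
      · exact ⟨Sum.inl P, hP1, hP2, fun h => absurd h hx⟩
      · exact ⟨Sum.inr M, hM1, hM2, fun h => absurd h hx⟩
  choose e he1 he2 he3 using hex
  have hrow : ∀ k, row (cs s) z (e (eqv k)) = (eqv k : Fin n → ℂ) := fun k => he2 _
  refine ⟨fun k => e (eqv k), fun k => he1 _, ?_, ?_⟩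
  · have h1 : LinearIndependent ℂ
        (Matrix.of fun k i => row (cs s) z (e (eqv k)) i).row := by
      have h2 : (Matrix.of fun k i => row (cs s) z (e (eqv k)) i).row =
          (Subtype.val : b → (Fin n → ℂ)) ∘ eqv := by
        funext k
        exact hrow k
      rw [h2]
      exact hbli'.comp _ eqv.injective
    rw [Matrix.linearIndependent_rows_iff_isUnit, Matrix.isUnit_iff_isUnit_det] at h1
    exact h1.ne_zero
  · intro v hv
    -- the space of functionals which vanish on all derivations
    let U : Submodule ℂ (Fin r ⊕ Fin n → ℂ) :=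
      { carrier := {g | ∀ D : Der, ∑ j, g j * D (u j) = 0}
        add_mem' := by
          intro a c ha hc D
          have h1 := ha D
          have h2 := hc D
          simp only [Pi.add_apply, add_mul, Finset.sum_add_distrib, h1, h2, add_zero]
        zero_mem' := by
          intro D
          simp
        smul_mem' := by
          intro c a ha D
          have h1 := ha D
          have h2 : ∀ j, (c • a) j * D (u j) = c * (a j * D (u j)) := by
            intro j
            simp only [Pi.smul_apply, smul_eq_mul]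
            ring
          simp only [h2, ← Finset.mul_sum, h1, mul_zero] }
    let KV : Submodule ℂ (Fin r ⊕ Fin n → ℂ) :=
      { carrier := {g | ∑ j, g j * v j = 0}
        add_mem' := by
          intro a c ha hc
          have h1 : ∑ j, a j * v j = 0 := ha
          have h2 : ∑ j, c j * v j = 0 := hc
          show ∑ j, (a + c) j * v j = 0
          simp only [Pi.add_apply, add_mul, Finset.sum_add_distrib, h1, h2, add_zero]
        zero_mem' := by
          show ∑ j, (0 : Fin r ⊕ Fin n → ℂ) j * v j = 0
          simp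
        smul_mem' := by
          intro c a ha
          have h1 : ∑ j, a j * v j = 0 := ha
          show ∑ j, (c • a) j * v j = 0
          have h2 : ∀ j, (c • a) j * v j = c * (a j * v j) := by
            intro j
            simp only [Pi.smul_apply, smul_eq_mul]
            ring
          simp only [h2, ← Finset.mul_sum, h1, mul_zero] }
    let π : (Fin r ⊕ Fin n → ℂ) →ₗ[ℂ] (Fin n → ℂ) :=
      { toFun := fun g i => exp (z i) * g (Sum.inr i)
        map_add' := by
          intro a c
          funext i
          simp only [Pi.add_apply]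
          ring
        map_smul' := by
          intro c a
          funext i
          simp only [Pi.smul_apply, smul_eq_mul, RingHom.id_apply]
          ring }
    have hπ : ∀ P : MvPolynomial (Fin r ⊕ Fin n) ℤ,
        π (choice_gv P u) = row (cs s) z (Sum.inl P) := fun P => rfl
    have hUgv : ∀ P : MvPolynomial (Fin r ⊕ Fin n) ℤ, FE (cs s) z (Sum.inl P) = 0 →
        choice_gv P u ∈ U := by
      intro P hP D
      have h1 := grad_der D u P
      have h2 : (aeval u P : ℂ) = 0 := hP
      rw [h2, map_zero] at h1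
      exact h1.symm
    -- injectivity of the projection on `U`
    have hUπ : ∀ g ∈ U, π g = 0 → g = 0 := by
      intro g hg hg0
      have h1 : ∀ i, g (Sum.inr i) = 0 := by
        intro i
        have h2 : exp (z i) * g (Sum.inr i) = 0 := congrFun hg0 i
        exact (mul_eq_zero.1 h2).resolve_left (exp_ne_zero _)
      have h3 : ∀ w : Fin r → ℂ, ∑ k, g (Sum.inl k) * w k = 0 := by
        intro w
        obtain ⟨D, hD⟩ := exists_der (cs s) w (by
          intro P hP
          rw [hs P hP]
          simp [grad])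
        have h4 := hg D
        rw [Fintype.sum_sum_type] at h4
        simp only [h1, zero_mul, Finset.sum_const_zero, add_zero] at h4
        rw [← h4]
        refine Finset.sum_congr rfl fun k _ => ?_
        rw [← hD k]
        rfl
      funext j
      rcases j with k | i
      · have h5 := h3 (Pi.single k 1)
        rw [Finset.sum_eq_single k] at h5
        · simpa using h5
        · intro k' _ hk'
          simp [hk']
        · simp
      · exact h1 i
    let G0 : Submodule ℂ (Fin r ⊕ Fin n → ℂ) :=
      Submodule.span ℂ {g | ∃ (k : Fin n) (P : MvPolynomial (Fin r ⊕ Fin n) ℤ),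
        e (eqv k) = Sum.inl P ∧ choice_gv P u = g}
    have hG0U : G0 ≤ U := by
      rw [Submodule.span_le]
      rintro g ⟨k, P, hP, rfl⟩
      apply hUgv
      rw [← hP]
      exact he1 _
    have hG0K : G0 ≤ KV := by
      rw [Submodule.span_le]
      rintro g ⟨k, P, hP, rfl⟩
      exact hv k P hP
    have hb0G : Submodule.span ℂ b0 ≤ G0.map π := by
      rw [Submodule.span_le]
      intro x hx
      obtain ⟨P, hP⟩ := he3 ⟨x, hb0b hx⟩ hx
      refine ⟨choice_gv P u, Submodule.subset_span ⟨eqv.symm ⟨x, hb0b hx⟩, P, ?_, rfl⟩, ?_⟩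
      · rw [Equiv.apply_symm_apply, hP]
      · rw [hπ, ← hP]
        exact he2 _
    obtain ⟨D, hD⟩ := exists_der u v (by
      intro P hP
      have h1 : row (cs s) z (Sum.inl P) ∈ Submodule.span ℂ b0 := by
        rw [hb0span]
        exact Submodule.subset_span ⟨P, hP, rfl⟩
      obtain ⟨g, hg, hg2⟩ := hb0G h1
      have h2 : choice_gv P u - g = 0 := by
        apply hUπ
        · exact sub_mem (hUgv P hP) (hG0U hg)
        · rw [map_sub, hg2, hπ, sub_self]
      have h3 : choice_gv P u = g := sub_eq_zero.1 h2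
      have h4 : choice_gv P u ∈ KV := by
        rw [h3]
        exact hG0K hg
      exact h4)
    exact mem_VV.2 ⟨D, fun a ha => absurd ha (Set.notMem_empty a), hD⟩

end Pool.Agent.helper82.PW
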