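import Pool.Agent.helper82.PW.Defs

/-!
# PW-23: the binomial of an integer relation (by helper36)
-/

set_option autoImplicit false

namespace Pool.Agent.helper82.PW.Bin

open Complex MvPolynomial

variable {n : ℕ}

theorem aeval_mono (s : Fin n →₀ ℕ) (w : Fin n → ℂ) :
    (aeval (fun i => exp (w i)) (monomial s (1 : ℤ)) : ℂ) = exp (∑ i, (s i : ℂ) * w i) := by
  rw [aeval_monomial, Finsupp.prod_fintype _ _ (fun i => pow_zero _), Complex.exp_sum]
  simp only [map_one, one_mul]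
  refine Finset.prod_congr rfl fun i _ => ?_
  rw [← Complex.exp_nat_mul]

theorem aeval_pderiv_mono (s : Fin n →₀ ℕ) (w : Fin n → ℂ) (i : Fin n) :
    exp (w i) * (aeval (fun i => exp (w i)) (pderiv i (monomial s (1 : ℤ))) : ℂ) =
      (s i : ℂ) * exp (∑ i, (s i : ℂ) * w i) := by
  have h := X_mul_pderiv_monomial (R := ℤ) (i := i) (m := s) (r := 1)
  have h2 := congrArg (fun p => (aeval (fun i => exp (w i)) p : ℂ)) h
  simp only [map_mul, aeval_X, aeval_mono, nsmul_eq_mul, map_natCast] at h2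
  exact h2

theorem deg_mono (s : Fin n →₀ ℕ) (H : ℕ) (hs : ∀ i, s i ≤ H) :
    (monomial s (1 : ℤ)).totalDegree ≤ n * H := by
  refine (totalDegree_monomial_le _ _).trans ?_
  rw [Finsupp.sum_fintype _ _ (fun _ => rfl)]
  calc ∑ i, s i ≤ ∑ _i : Fin n, H := Finset.sum_le_sum fun i _ => hs i
    _ = n * H := by simp

end Pool.Agent.helper82.PW.Bin

namespace Pool.Agent.helper82.PW

open Complex MvPolynomial

variable {n : ℕ}

/-- PW-23 -/
theorem binomial (m : Fin n → ℤ) (H : ℕ) (hm : ∀ i, |m i| ≤ (H : ℤ)) :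
    ∃ (f : MvPolynomial (Fin n) ℤ) (m' : Fin n → ℕ), f.totalDegree ≤ n * H ∧
      (∀ k, |f.coeff k| ≤ 1) ∧ (∀ i, m' i ≤ H) ∧
      (∀ w : Fin n → ℂ, (aeval (fun i => exp (w i)) f : ℂ) =
        exp (∑ i, (m' i : ℂ) * w i) * (exp (∑ i, (m i : ℂ) * w i) - 1)) ∧
      ∀ w : Fin n → ℂ, exp (∑ i, (m i : ℂ) * w i) = 1 → ∀ i,
        exp (w i) * (aeval (fun i => exp (w i)) (pderiv i f) : ℂ) =
          exp (∑ i, (m' i : ℂ) * w i) * (m i : ℂ) := by
  let a : Fin n →₀ ℕ := Finsupp.equivFunOnFinite.symm fun i => (m i).toNat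
  let b : Fin n →₀ ℕ := Finsupp.equivFunOnFinite.symm fun i => (-m i).toNat
  have ha : ∀ i, a i = (m i).toNat := fun i => rfl
  have hb : ∀ i, b i = (-m i).toNat := fun i => rfl
  have haH : ∀ i, a i ≤ H := fun i => by
    have := abs_le.1 (hm i)
    rw [ha]; omega
  have hbH : ∀ i, b i ≤ H := fun i => by
    have := abs_le.1 (hm i)
    rw [hb]; omega
  have hab : ∀ i, ((a i : ℕ) : ℂ) = (b i : ℂ) + (m i : ℂ) := fun i => by
    have h : ((a i : ℕ) : ℤ) = (b i : ℤ) + m i := by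
      rw [ha, hb]; omega
    exact_mod_cast h
  have hsum : ∀ w : Fin n → ℂ, exp (∑ i, (a i : ℂ) * w i) =
      exp (∑ i, (b i : ℂ) * w i) * exp (∑ i, (m i : ℂ) * w i) := by
    intro w
    rw [← Complex.exp_add, ← Finset.sum_add_distrib]
    congr 1
    refine Finset.sum_congr rfl fun i _ => ?_
    rw [hab]
    ring
  refine ⟨monomial a 1 - monomial b 1, fun i => b i, ?_, ?_, hbH, ?_, ?_⟩
  · refine (totalDegree_sub _ _).trans (max_le ?_ ?_)
    · exact Bin.deg_mono a H haH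
    · exact Bin.deg_mono b H hbH
  · intro k
    rw [coeff_sub, coeff_monomial, coeff_monomial]
    split_ifs <;> simp
  · intro w
    rw [map_sub, Bin.aeval_mono, Bin.aeval_mono, hsum]
    ring
  · intro w hw i
    rw [map_sub, map_sub, mul_sub, Bin.aeval_pderiv_mono, Bin.aeval_pderiv_mono, hsum, hw, hab]
    ring

end Pool.Agent.helper82.PW
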