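import Mathlib
import Pool.Agent.helper82.PW.Defs

/-!
# The lowest order part of an algebraic relation (PW-19)
-/

set_option autoImplicit false

namespace Pool.Agent.helper82.PW

open MvPolynomial

variable {n : ℕ}

/-- the restriction to a line -/
noncomputable def lowest_ln (ξ v : Fin n → ℂ) (i : Fin n) : Polynomial ℂ :=
  Polynomial.C (ξ i) + Polynomial.X * Polynomial.C (v i)

theorem lowest_curve (ξ v : Fin n → ℂ) (P : MvPolynomial (Fin n) ℤ) :
    (aeval (lowest_ln ξ v) P : Polynomial ℂ).coeff 0 = aeval ξ P ∧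
      (aeval (lowest_ln ξ v) P : Polynomial ℂ).coeff 1 = ∑ j, aeval ξ (pderiv j P) * v j := by
  classical
  induction P using MvPolynomial.induction_on with
  | C a =>
    simp only [aeval_C, pderiv_C, map_zero, zero_mul, Finset.sum_const_zero]
    rw [eq_intCast, eq_intCast, ← Polynomial.C_eq_intCast]
    constructor
    · exact Polynomial.coeff_C_zero
    · exact Polynomial.coeff_C_succ
  | add p q hp hq =>
    simp only [map_add, Polynomial.coeff_add, hp.1, hp.2, hq.1, hq.2, add_mul,
      Finset.sum_add_distrib, and_self]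
  | mul_X p i hp =>
    have h0 : (lowest_ln ξ v i).coeff 0 = ξ i := by
      unfold lowest_ln
      simp
    have h1 : (lowest_ln ξ v i).coeff 1 = v i := by
      unfold lowest_ln
      simp [Polynomial.coeff_C]
    rw [map_mul, aeval_X, Polynomial.mul_coeff_zero, Polynomial.mul_coeff_one, h0, h1, hp.1,
      hp.2]
    constructor
    · rw [map_mul, aeval_X]
    · have h3 : ∀ j, (aeval ξ (pderiv j (p * X i)) : ℂ) * v j =
          (if j = i then (aeval ξ p : ℂ) * v i else 0) +
            ξ i * ((aeval ξ (pderiv j p) : ℂ) * v j) := by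
        intro j
        rw [pderiv_mul, pderiv_X, map_add, map_mul, map_mul, aeval_X]
        by_cases hji : j = i
        · subst hji
          simp only [Pi.single_eq_same, map_one, if_true]
          ring
        · rw [if_neg hji, Pi.single_apply, if_neg (fun h => hji h.symm), map_zero]
          ring
      rw [Finset.sum_congr rfl fun j _ => h3 j, Finset.sum_add_distrib,
        Finset.sum_ite_eq' Finset.univ i, if_pos (Finset.mem_univ i), ← Finset.mul_sum]
      ring

/-- PW-19 -/
theorem lowest (f : Fin n → MvPolynomial (Fin n) ℤ) (g : MvPolynomial (Fin n) ℤ)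
    (ξ : Fin n → ℂ) (hf : ∀ i, aeval ξ (f i) = 0)
    (hdet : (Matrix.of fun i j => (aeval ξ (pderiv j (f i)) : ℂ)).det ≠ 0)
    (R : MvPolynomial (Fin (n + 1)) ℤ) (hR : R ≠ 0)
    (hRel : aeval (Fin.cons g f : Fin (n + 1) → MvPolynomial (Fin n) ℤ) R = 0) :
    ∃ (T : Polynomial ℤ) (β : Fin n →₀ ℕ), T ≠ 0 ∧ Polynomial.aeval (aeval ξ g : ℂ) T = 0 ∧
      ∀ k, T.coeff k = R.coeff (Finsupp.cons k β) := by
  classical
  have hne : R.support.Nonempty := by
    rw [Finset.nonempty_iff_ne_empty]
    intro h
    exact hR (MvPolynomial.support_eq_empty.1 h)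
  obtain ⟨d0, hd0, hmin⟩ := Finset.exists_min_image R.support
    (fun d => ∑ i, (Finsupp.tail d) i) hne
  set l : ℕ := ∑ i, (Finsupp.tail d0) i with hl
  set β := Finsupp.tail d0 with hβ
  set θ : ℂ := aeval ξ g with hθ
  set S := R.support.filter fun d => ∑ i, (Finsupp.tail d) i = l with hS
  -- the leading form vanishes
  have hlead : ∀ c : Fin n → ℂ,
      ∑ d ∈ S, ((R.coeff d : ℤ) : ℂ) * θ ^ d 0 * ∏ i, c i ^ (Finsupp.tail d) i = 0 := by
    intro c
    set Jm : Matrix (Fin n) (Fin n) ℂ :=
      Matrix.of fun i j => (aeval ξ (pderiv j (f i)) : ℂ) with hJm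
    set v := Jm⁻¹.mulVec c with hv
    have hJv : ∀ i, ∑ j, (aeval ξ (pderiv j (f i)) : ℂ) * v j = c i := by
      intro i
      have h1 : Jm.mulVec v = c := by
        rw [hv, Matrix.mulVec_mulVec, Matrix.mul_nonsing_inv _ (isUnit_iff_ne_zero.2 hdet),
          Matrix.one_mulVec]
      exact congrFun h1 i
    have hdiv : ∀ i, ∃ h : Polynomial ℂ,
        (aeval (lowest_ln ξ v) (f i) : Polynomial ℂ) = Polynomial.X * h ∧ h.coeff 0 = c i := by
      intro i
      obtain ⟨h0, h1⟩ := lowest_curve ξ v (f i)
      rw [hf i] at h0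
      obtain ⟨h, hh⟩ := Polynomial.X_dvd_iff.2 h0
      refine ⟨h, hh, ?_⟩
      rw [hh, Polynomial.coeff_X_mul, hJv] at h1
      exact h1
    choose h hh hc using hdiv
    set G : Polynomial ℂ := aeval (lowest_ln ξ v) g with hG
    have hG0 : G.coeff 0 = θ := (lowest_curve ξ v g).1
    -- apply the curve to the relation
    have h1 : (aeval (lowest_ln ξ v)
        (aeval (Fin.cons g f : Fin (n + 1) → MvPolynomial (Fin n) ℤ) R) : Polynomial ℂ) = 0 := by
      rw [hRel, map_zero]
    have h2 : (aeval (lowest_ln ξ v)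
        (aeval (Fin.cons g f : Fin (n + 1) → MvPolynomial (Fin n) ℤ) R) : Polynomial ℂ) =
        ∑ d ∈ R.support, Polynomial.C ((R.coeff d : ℤ) : ℂ) *
          (G ^ d 0 * ∏ i, (Polynomial.X * h i) ^ (Finsupp.tail d) i) := by
      have h20 : aeval (Fin.cons g f : Fin (n + 1) → MvPolynomial (Fin n) ℤ) R =
          ∑ d ∈ R.support, algebraMap ℤ (MvPolynomial (Fin n) ℤ) (R.coeff d) *
            ∏ i, (Fin.cons g f : Fin (n + 1) → MvPolynomial (Fin n) ℤ) i ^ d i := by
        rw [MvPolynomial.aeval_def, MvPolynomial.eval₂_eq']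
      rw [h20, map_sum]
      refine Finset.sum_congr rfl fun d _ => ?_
      rw [map_mul, map_prod, Fin.prod_univ_succ, AlgHom.commutes]
      congr 1
      congr 1
      · rw [Fin.cons_zero]
        exact map_pow (aeval (lowest_ln ξ v)) g (d 0)
      · refine Finset.prod_congr rfl fun i _ => ?_
        rw [Fin.cons_succ, ← hh i, Finsupp.tail_apply]
        exact map_pow (aeval (lowest_ln ξ v)) (f i) (d i.succ)
    have h3 : ∑ d ∈ R.support, Polynomial.C ((R.coeff d : ℤ) : ℂ) *
          (G ^ d 0 * ∏ i, (Polynomial.X * h i) ^ (Finsupp.tail d) i) =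
        Polynomial.X ^ l * ∑ d ∈ R.support, Polynomial.C ((R.coeff d : ℤ) : ℂ) *
          (G ^ d 0 * (Polynomial.X ^ ((∑ i, (Finsupp.tail d) i) - l) *
            ∏ i, (h i) ^ (Finsupp.tail d) i)) := by
      rw [Finset.mul_sum]
      refine Finset.sum_congr rfl fun d hd => ?_
      have h4 : l ≤ ∑ i, (Finsupp.tail d) i := hmin d hd
      have h5 : ∏ i, ((Polynomial.X : Polynomial ℂ) * h i) ^ (Finsupp.tail d) i =
          Polynomial.X ^ l * Polynomial.X ^ ((∑ i, (Finsupp.tail d) i) - l) *
            ∏ i, (h i) ^ (Finsupp.tail d) i := by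
        rw [← pow_add, Nat.add_sub_cancel' h4, ← Finset.prod_pow_eq_pow_sum,
          ← Finset.prod_mul_distrib]
        exact Finset.prod_congr rfl fun i _ => mul_pow _ _ _
      rw [h5]
      ring
    rw [h2, h3] at h1
    have h4 := (mul_eq_zero.1 h1).resolve_left (pow_ne_zero _ Polynomial.X_ne_zero)
    have h5 := congrArg (fun p => Polynomial.eval 0 p) h4
    simp only [Polynomial.eval_finsetSum, Polynomial.eval_mul, Polynomial.eval_C,
      Polynomial.eval_pow, Polynomial.eval_X, Polynomial.eval_prod, Polynomial.eval_zero,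
      ← Polynomial.coeff_zero_eq_eval_zero, hG0, hc] at h5
    rw [hS, Finset.sum_filter]
    refine (Finset.sum_congr rfl fun d hd => ?_).trans h5
    have h6 : l ≤ ∑ i, (Finsupp.tail d) i := hmin d hd
    split_ifs with h7
    · rw [h7, Nat.sub_self, pow_zero]
      ring
    · have h8 : (∑ i, (Finsupp.tail d) i) - l ≠ 0 := by omega
      rw [zero_pow h8]
      ring
  -- the polynomial in c
  set W : MvPolynomial (Fin n) ℂ :=
    ∑ d ∈ S, monomial (Finsupp.tail d) (((R.coeff d : ℤ) : ℂ) * θ ^ d 0) with hW
  have hW0 : W = 0 := by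
    apply MvPolynomial.funext
    intro c
    rw [hW, map_sum, map_zero, ← hlead c]
    refine Finset.sum_congr rfl fun d _ => ?_
    rw [MvPolynomial.eval_monomial, Finsupp.prod_fintype]
    intro i
    exact pow_zero _
  have hcoef : ∑ d ∈ S.filter (fun d => Finsupp.tail d = β), ((R.coeff d : ℤ) : ℂ) * θ ^ d 0 = 0 := by
    have h1 : W.coeff β = 0 := by rw [hW0, MvPolynomial.coeff_zero]
    rw [hW, MvPolynomial.coeff_sum] at h1
    rw [Finset.sum_filter]
    refine (Finset.sum_congr rfl fun d _ => ?_).trans h1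
    rw [MvPolynomial.coeff_monomial]
  have hSf : S.filter (fun d => Finsupp.tail d = β) =
      R.support.filter (fun d => Finsupp.tail d = β) := by
    rw [hS, Finset.filter_filter]
    refine Finset.filter_congr fun d _ => ?_
    constructor
    · exact fun h => h.2
    · intro h
      exact ⟨by rw [h], h⟩
  rw [hSf] at hcoef
  set T : Polynomial ℤ := ∑ d ∈ R.support.filter (fun d => Finsupp.tail d = β),
    Polynomial.monomial (d 0) (R.coeff d) with hT
  have hTc : ∀ k, T.coeff k = R.coeff (Finsupp.cons k β) := by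
    intro k
    rw [hT, Polynomial.finsetSum_coeff]
    simp only [Polynomial.coeff_monomial]
    rw [Finset.sum_filter]
    have h1 : ∀ d ∈ R.support, (if Finsupp.tail d = β then
        (if d 0 = k then R.coeff d else 0) else 0) =
        if Finsupp.cons k β = d then R.coeff d else 0 := by
      intro d _
      by_cases h2 : Finsupp.tail d = β
      · by_cases h3 : d 0 = k
        · rw [if_pos h2, if_pos h3, if_pos]
          rw [← h2, ← h3]
          exact Finsupp.cons_tail d
        · rw [if_pos h2, if_neg h3, if_neg]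
          intro h4
          apply h3
          rw [← h4]
          exact Finsupp.cons_zero k β
      · rw [if_neg h2, if_neg]
        intro h4
        apply h2
        rw [← h4]
        exact Finsupp.tail_cons k β
    rw [Finset.sum_congr rfl h1, Finset.sum_ite_eq]
    split_ifs with h5
    · rfl
    · exact (MvPolynomial.notMem_support_iff.1 h5).symm
  refine ⟨T, β, ?_, ?_, hTc⟩
  · intro h0
    have h1 := hTc (d0 0)
    rw [h0, Polynomial.coeff_zero, hβ, Finsupp.cons_tail] at h1
    exact (MvPolynomial.mem_support_iff.1 hd0) h1.symm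
  · rw [hT, map_sum, ← hcoef]
    refine Finset.sum_congr rfl fun d _ => ?_
    rw [Polynomial.aeval_monomial, algebraMap_int_eq, eq_intCast]

end Pool.Agent.helper82.PW
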