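import Mathlib
import Pool.Agent.helper82.PW.Defs

/-!
# PW-18: Perron's relation with bounds (Siegel's lemma)
-/

set_option autoImplicit false

namespace Pool.Agent.helper82.PW

open MvPolynomial

variable {n : ℕ}

/-- the coefficients of `P` are dominated by those of `Q` -/
def siegel_Dom {σ : Type} (P : MvPolynomial σ ℤ) (Q : MvPolynomial σ ℕ) : Prop :=
  ∀ m, |P.coeff m| ≤ ((Q.coeff m : ℕ) : ℤ)

theorem siegel_dom_mul {σ : Type} {P P' : MvPolynomial σ ℤ}
    {Q Q' : MvPolynomial σ ℕ} (h : siegel_Dom P Q) (h' : siegel_Dom P' Q') :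
    siegel_Dom (P * P') (Q * Q') := by
  classical
  intro m
  rw [coeff_mul, coeff_mul, Nat.cast_sum]
  refine (Finset.abs_sum_le_sum_abs _ _).trans (Finset.sum_le_sum fun x _ => ?_)
  rw [abs_mul, Nat.cast_mul]
  exact mul_le_mul (h _) (h' _) (abs_nonneg _) (Int.natCast_nonneg _)

theorem siegel_dom_one {σ : Type} :
    siegel_Dom (1 : MvPolynomial σ ℤ) (1 : MvPolynomial σ ℕ) := by
  classical
  intro m
  rw [coeff_one, coeff_one]
  split_ifs <;> simp

theorem siegel_dom_pow {σ : Type} {P : MvPolynomial σ ℤ}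
    {Q : MvPolynomial σ ℕ} (h : siegel_Dom P Q) (k : ℕ) : siegel_Dom (P ^ k) (Q ^ k) := by
  induction k with
  | zero => simpa using siegel_dom_one
  | succ k ih =>
    rw [pow_succ, pow_succ]
    exact siegel_dom_mul ih h

theorem siegel_dom_prod {σ ι : Type} (s : Finset ι)
    {P : ι → MvPolynomial σ ℤ} {Q : ι → MvPolynomial σ ℕ} (h : ∀ i, siegel_Dom (P i) (Q i)) :
    siegel_Dom (∏ i ∈ s, P i) (∏ i ∈ s, Q i) := by
  classical
  induction s using Finset.induction_on with
  | empty => simpa using siegel_dom_one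
  | insert a s ha ih =>
    rw [Finset.prod_insert ha, Finset.prod_insert ha]
    exact siegel_dom_mul (h a) ih

theorem siegel_coeff_le {σ : Type} (Q : MvPolynomial σ ℕ) (m : σ →₀ ℕ) :
    Q.coeff m ≤ eval (fun _ => 1) Q := by
  rw [eval_eq]
  simp only [one_pow, Finset.prod_const_one, mul_one]
  by_cases hm : m ∈ Q.support
  · exact Finset.single_le_sum (f := fun d => Q.coeff d) (fun _ _ => Nat.zero_le _) hm
  · rw [notMem_support_iff.1 hm]
    exact Nat.zero_le _

/-- the exponent vector of a function -/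
noncomputable def siegel_fs {k E : ℕ} (e : Fin k → Fin E) : Fin k →₀ ℕ :=
  Finsupp.equivFunOnFinite.symm fun i => (e i : ℕ)

theorem siegel_fs_apply {k E : ℕ} (e : Fin k → Fin E) (i : Fin k) :
    siegel_fs e i = (e i : ℕ) := rfl

theorem siegel_fs_inj {k E : ℕ} : Function.Injective (siegel_fs : (Fin k → Fin E) → _) := by
  intro a b h
  funext i
  have := DFunLike.congr_fun h i
  exact Fin.ext this

theorem siegel_fs_surj {k E : ℕ} (m : Fin k →₀ ℕ) (h : ∀ i, m i < E) :
    ∃ e : Fin k → Fin E, siegel_fs e = m :=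
  ⟨fun i => ⟨m i, h i⟩, by ext i; rfl⟩

/-- number of the monomials of a polynomial of degree at most `D` -/
theorem siegel_card_support {D : ℕ} (P : MvPolynomial (Fin n) ℤ) (h : P.totalDegree ≤ D) :
    P.support.card ≤ (D + 1) ^ n := by
  classical
  have h1 : P.support ⊆ Finset.univ.image (siegel_fs : (Fin n → Fin (D + 1)) → _) := by
    intro m hm
    have h2 : ∀ i, m i < D + 1 := by
      intro i
      have h3 : m i ≤ m.sum fun _ e => e := by
        by_cases hi : i ∈ m.support
        · exact Finset.single_le_sum (f := fun j => m j) (fun _ _ => Nat.zero_le _) hi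
        · rw [Finsupp.notMem_support_iff.1 hi]
          exact Nat.zero_le _
      have h4 := le_totalDegree hm
      omega
    obtain ⟨e, rfl⟩ := siegel_fs_surj m h2
    exact Finset.mem_image_of_mem _ (Finset.mem_univ _)
  refine (Finset.card_le_card h1).trans (Finset.card_image_le.trans ?_)
  simp

/-- PW-18 -/
theorem siegel_rel {D H : ℕ} (hD : 1 ≤ D) (hH : 1 ≤ H)
    (F : Fin (n + 1) → MvPolynomial (Fin n) ℤ) (hdeg : ∀ i, (F i).totalDegree ≤ D)
    (hco : ∀ i m, |(F i).coeff m| ≤ (H : ℤ)) :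
    ∃ R : MvPolynomial (Fin (n + 1)) ℤ, R ≠ 0 ∧ aeval F R = 0 ∧
      (∀ m ∈ R.support, ∀ i, m i < NN n D) ∧ ∀ m, |R.coeff m| ≤ (UU n D H : ℤ) := by
  classical
  set N := NN n D with hN
  have hDn : 0 < D * (n + 1) := Nat.mul_pos hD (Nat.succ_pos n)
  have hNpos : 0 < N := by
    rw [hN, NN]
    positivity
  set E := D * (n + 1) * N with hE
  have hEpos : 0 < E := Nat.mul_pos hDn hNpos
  -- the majorants
  let Q : Fin (n + 1) → MvPolynomial (Fin n) ℕ := fun i => ∑ m ∈ (F i).support, monomial m H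
  have hQ : ∀ i, siegel_Dom (F i) (Q i) := by
    intro i m
    have h1 : (Q i).coeff m = if m ∈ (F i).support then H else 0 := by
      simp only [Q, coeff_sum, coeff_monomial]
      rw [Finset.sum_ite_eq' (F i).support m fun _ => H]
    rw [h1]
    split_ifs with h2
    · exact hco i m
    · rw [notMem_support_iff.1 h2]
      simp
  have hQe : ∀ i, eval (fun _ => 1) (Q i) ≤ (D + 1) ^ n * H := by
    intro i
    simp only [Q, map_sum, eval_monomial, one_pow]
    simp only [Finsupp.prod, Finset.prod_const_one, mul_one, Finset.sum_const, smul_eq_mul]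
    exact Nat.mul_le_mul_right _ (siegel_card_support _ (hdeg i))
  -- the monomials in `F`
  let G : (Fin (n + 1) → Fin N) → MvPolynomial (Fin n) ℤ := fun m => ∏ i, F i ^ (m i : ℕ)
  have hG : ∀ m e, |(G m).coeff e| ≤ ((((D + 1) ^ n * H) ^ ((n + 1) * N) : ℕ) : ℤ) := by
    intro m e
    have h1 := siegel_dom_prod Finset.univ (fun i => siegel_dom_pow (hQ i) (m i : ℕ)) e
    refine h1.trans (Int.ofNat_le.2 ((siegel_coeff_le _ _).trans ?_))
    rw [map_prod]
    simp only [map_pow]
    have h2 : ∀ i ∈ (Finset.univ : Finset (Fin (n + 1))),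
        (eval (fun _ => 1) (Q i)) ^ (m i : ℕ) ≤ ((D + 1) ^ n * H) ^ N := by
      intro i _
      refine (Nat.pow_le_pow_left (hQe i) _).trans (Nat.pow_le_pow_right ?_ (m i).2.le)
      positivity
    refine (Finset.prod_le_prod' h2).trans ?_
    rw [Finset.prod_const, Finset.card_univ, Fintype.card_fin, ← pow_mul, mul_comm N (n + 1)]
  have hGd : ∀ m, (G m).totalDegree < E := by
    intro m
    have h1 : (G m).totalDegree ≤ ∑ i : Fin (n + 1), D * (N - 1) := by
      refine (totalDegree_finsetProd _ _).trans (Finset.sum_le_sum fun i _ => ?_)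
      refine (totalDegree_pow _ _).trans ?_
      have h2 : (m i : ℕ) ≤ N - 1 := by have := (m i).2; omega
      calc (m i : ℕ) * (F i).totalDegree ≤ (N - 1) * D := Nat.mul_le_mul h2 (hdeg i)
        _ = D * (N - 1) := mul_comm _ _
    rw [Finset.sum_const, Finset.card_univ, Fintype.card_fin, smul_eq_mul] at h1
    refine lt_of_le_of_lt h1 ?_
    rw [hE]
    calc (n + 1) * (D * (N - 1)) = D * (n + 1) * (N - 1) := by ring
      _ < D * (n + 1) * N := Nat.mul_lt_mul_of_pos_left (by omega) hDn
  have hG0 : ∀ m (e : Fin n →₀ ℕ), (¬ ∀ i, e i < E) → (G m).coeff e = 0 := by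
    intro m e he
    push Not at he
    obtain ⟨i, hi⟩ := he
    by_contra h0
    have h1 := le_totalDegree (mem_support_iff.2 h0)
    have h2 : e i ≤ e.sum fun _ x => x := by
      by_cases hi' : i ∈ e.support
      · exact Finset.single_le_sum (f := fun j => e j) (fun _ _ => Nat.zero_le _) hi'
      · rw [Finsupp.notMem_support_iff.1 hi']
        exact Nat.zero_le _
    have h3 := hGd m
    omega
  -- Siegel's lemma
  let A : Matrix (Fin n → Fin E) (Fin (n + 1) → Fin N) ℤ :=
    fun e m => (G m).coeff (siegel_fs e)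
  have hcα : Fintype.card (Fin n → Fin E) = E ^ n := by simp
  have hcβ : Fintype.card (Fin (n + 1) → Fin N) = N ^ (n + 1) := by simp
  have hcc : N ^ (n + 1) = 2 * E ^ n := by
    rw [hE, mul_pow, pow_succ']
    have : N = 2 * (D * (n + 1)) ^ n := hN
    calc N * N ^ n = (2 * (D * (n + 1)) ^ n) * N ^ n := by rw [← this]
      _ = 2 * ((D * (n + 1)) ^ n * N ^ n) := by ring
  have hEn : 0 < E ^ n := pow_pos hEpos n
  obtain ⟨t, ht0, htA, htn⟩ := Int.Matrix.exists_ne_zero_int_vec_norm_le A
    (by rw [hcα, hcβ, hcc]; omega) (by rw [hcα]; exact hEn)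
  have hexp : ((Fintype.card (Fin n → Fin E) : ℕ) : ℝ) /
      ((Fintype.card (Fin (n + 1) → Fin N) : ℕ) - (Fintype.card (Fin n → Fin E) : ℕ) : ℝ) = 1 := by
    rw [hcα, hcβ, hcc]
    have h1 : ((E ^ n : ℕ) : ℝ) ≠ 0 := by exact_mod_cast hEn.ne'
    rw [show (((2 * E ^ n : ℕ) : ℝ) - ((E ^ n : ℕ) : ℝ)) = ((E ^ n : ℕ) : ℝ) by push_cast; ring]
    exact div_self h1
  rw [hexp, Real.rpow_one, hcβ] at htn
  have hbase : (1 : ℕ) ≤ ((D + 1) ^ n * H) ^ ((n + 1) * N) := by
    apply Nat.one_le_pow
    positivity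
  have htb : ∀ m, |t m| ≤ (UU n D H : ℤ) := by
    intro m
    have h1 : ‖t m‖ ≤ ‖t‖ := norm_le_pi_norm t m
    have h2 : (max 1 (@Norm.norm _ (Matrix.seminormedAddCommGroup.toNorm) A) : ℝ) ≤
        ((((D + 1) ^ n * H) ^ ((n + 1) * N) : ℕ) : ℝ) := by
      refine max_le (by exact_mod_cast hbase) ?_
      refine (Matrix.norm_le_iff (by positivity)).2 fun e m' => ?_
      rw [Int.norm_eq_abs]
      exact_mod_cast hG m' (siegel_fs e)
    have h3 : ‖t m‖ ≤ (UU n D H : ℝ) := by
      refine h1.trans (htn.trans ?_)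
      rw [UU, Nat.cast_mul, ← hN]
      exact mul_le_mul_of_nonneg_left h2 (by positivity)
    rw [Int.norm_eq_abs] at h3
    exact_mod_cast h3
  -- the relation
  let R : MvPolynomial (Fin (n + 1)) ℤ :=
    ∑ m : Fin (n + 1) → Fin N, monomial (siegel_fs m) (t m)
  have hRc : ∀ m : Fin (n + 1) → Fin N, R.coeff (siegel_fs m) = t m := by
    intro m
    simp only [R, coeff_sum, coeff_monomial]
    have : ∀ x : Fin (n + 1) → Fin N, (if siegel_fs x = siegel_fs m then t x else 0) =
        if x = m then t x else 0 := by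
      intro x
      by_cases hx : x = m
      · subst hx; simp
      · rw [if_neg hx, if_neg fun h => hx (siegel_fs_inj h)]
    simp only [this, Finset.sum_ite_eq', Finset.mem_univ, if_true]
  have hRz : ∀ m : Fin (n + 1) →₀ ℕ, (¬ ∃ e : Fin (n + 1) → Fin N, siegel_fs e = m) →
      R.coeff m = 0 := by
    intro m hm
    simp only [R, coeff_sum, coeff_monomial]
    refine Finset.sum_eq_zero fun x _ => if_neg fun h => hm ⟨x, h⟩
  refine ⟨R, ?_, ?_, ?_, ?_⟩
  · intro h0
    apply ht0
    funext m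
    rw [← hRc m, h0]
    simp
  · have h1 : aeval F R = ∑ m : Fin (n + 1) → Fin N, C (t m) * G m := by
      simp only [R, map_sum, aeval_monomial]
      refine Finset.sum_congr rfl fun m _ => ?_
      congr 1
      rw [Finsupp.prod_fintype _ _ (by simp)]
      rfl
    rw [h1]
    ext e
    rw [coeff_sum, coeff_zero]
    simp only [coeff_C_mul]
    by_cases he : ∀ i, e i < E
    · obtain ⟨e', rfl⟩ := siegel_fs_surj e he
      have h2 := congrFun htA e'
      rw [Matrix.mulVec, Pi.zero_apply] at h2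
      rw [← h2]
      refine Finset.sum_congr rfl fun m _ => ?_
      exact mul_comm _ _
    · exact Finset.sum_eq_zero fun m _ => by rw [hG0 m e he, mul_zero]
  · intro m hm i
    by_cases h : ∃ e : Fin (n + 1) → Fin N, siegel_fs e = m
    · obtain ⟨e, rfl⟩ := h
      exact (e i).2
    · exact absurd (hRz m h) (mem_support_iff.1 hm)
  · intro m
    by_cases h : ∃ e : Fin (n + 1) → Fin N, siegel_fs e = m
    · obtain ⟨e, rfl⟩ := h
      rw [hRc]
      exact htb e
    · rw [hRz m h, abs_zero]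
      exact Int.natCast_nonneg _

end Pool.Agent.helper82.PW
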