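import Mathlib
import Pool.Agent.helper82.PW.Defs
import Pool.Agent.helper82.PW.Lowest
import Pool.Agent.helper82.PW.Siegel

/-!
# PW-20: lower bound for the value of an integer polynomial at an isolated zero of a system
-/

set_option autoImplicit false

namespace Pool.Agent.helper82.PW

open Complex MvPolynomial Topology Filter Pool.Agent.helper82.Sch

variable {r n : ℕ}

theorem NN_pos {D : ℕ} (hD : 1 ≤ D) : 1 ≤ NN n D := by
  unfold NN
  have : 1 ≤ (D * (n + 1)) ^ n := Nat.one_le_pow _ _ (Nat.mul_pos hD (Nat.succ_pos n))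
  omega

theorem UU_pos {D H : ℕ} (hD : 1 ≤ D) (hH : 1 ≤ H) : 1 ≤ UU n D H := by
  unfold UU
  have h1 : 1 ≤ NN n D ^ (n + 1) := Nat.one_le_pow _ _ (NN_pos hD)
  have h2 : 1 ≤ ((D + 1) ^ n * H) ^ ((n + 1) * NN n D) :=
    Nat.one_le_pow _ _ (Nat.mul_pos (Nat.pow_pos (Nat.succ_pos D)) hH)
  exact Nat.mul_pos h1 h2

/-- a nonzero root of an integer polynomial of small degree and height is not small -/
theorem root_lower {N U : ℕ} (hN : 1 ≤ N) (hU : 1 ≤ U) (T : Polynomial ℤ) (hT : T ≠ 0)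
    (hdeg : T.natDegree < N) (hco : ∀ k, |T.coeff k| ≤ (U : ℤ)) (θ : ℂ) (hθ : θ ≠ 0)
    (h0 : Polynomial.aeval θ T = 0) : 1 / ((N : ℝ) * (U : ℝ)) ≤ ‖θ‖ := by
  have hNR : (1 : ℝ) ≤ (N : ℝ) := by exact_mod_cast hN
  have hUR : (1 : ℝ) ≤ (U : ℝ) := by exact_mod_cast hU
  have hNU : (1 : ℝ) ≤ (N : ℝ) * (U : ℝ) := by nlinarith
  have hpos : (0 : ℝ) < (N : ℝ) * (U : ℝ) := by linarith
  rw [div_le_iff₀ hpos]
  by_cases h1 : 1 ≤ ‖θ‖
  · nlinarith
  push Not at h1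
  have hθp : 0 < ‖θ‖ := norm_pos_iff.2 hθ
  set k0 := T.natTrailingDegree with hk0
  have hk0c : T.coeff k0 ≠ 0 := by
    have := Polynomial.trailingCoeff_nonzero_iff_nonzero.2 hT
    exact this
  have hk0le : k0 ≤ T.natDegree := Polynomial.natTrailingDegree_le_natDegree T
  rw [Polynomial.aeval_eq_sum_range] at h0
  have hmem : k0 ∈ Finset.range (T.natDegree + 1) := by
    rw [Finset.mem_range]; omega
  rw [← Finset.add_sum_erase _ _ hmem] at h0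
  have hnorm : ∀ i, ‖((T.coeff i • θ ^ i : ℂ))‖ = |(T.coeff i : ℝ)| * ‖θ‖ ^ i := by
    intro i
    rw [zsmul_eq_mul, norm_mul, norm_pow, Complex.norm_intCast]
  have hcoR : ∀ i, |(T.coeff i : ℝ)| ≤ (U : ℝ) := by
    intro i
    exact_mod_cast hco i
  have hterm : ∀ i ∈ (Finset.range (T.natDegree + 1)).erase k0,
      ‖((T.coeff i • θ ^ i : ℂ))‖ ≤ (U : ℝ) * ‖θ‖ ^ (k0 + 1) := by
    intro i hi
    rw [hnorm]
    rcases lt_trichotomy i k0 with hlt | heq | hgt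
    · rw [Polynomial.coeff_eq_zero_of_lt_natTrailingDegree hlt]
      simp only [Int.cast_zero, abs_zero, zero_mul]
      positivity
    · exact absurd heq (Finset.ne_of_mem_erase hi)
    · have hp : ‖θ‖ ^ i ≤ ‖θ‖ ^ (k0 + 1) := pow_le_pow_of_le_one hθp.le h1.le hgt
      exact mul_le_mul (hcoR i) hp (by positivity) (by positivity)
  have hsum : |(T.coeff k0 : ℝ)| * ‖θ‖ ^ k0 ≤ (T.natDegree : ℝ) * ((U : ℝ) * ‖θ‖ ^ (k0 + 1)) := by
    have h2 : (T.coeff k0 • θ ^ k0 : ℂ) =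
        -∑ i ∈ (Finset.range (T.natDegree + 1)).erase k0, (T.coeff i • θ ^ i : ℂ) := by
      exact eq_neg_of_add_eq_zero_left h0
    rw [← hnorm k0, h2, norm_neg]
    refine (norm_sum_le _ _).trans ((Finset.sum_le_sum hterm).trans ?_)
    rw [Finset.sum_const, Finset.card_erase_of_mem hmem, Finset.card_range, nsmul_eq_mul]
    simp
  have hone : (1 : ℝ) ≤ |(T.coeff k0 : ℝ)| := by
    have : 1 ≤ |T.coeff k0| := Int.one_le_abs hk0c
    exact_mod_cast this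
  have hpk : 0 < ‖θ‖ ^ k0 := pow_pos hθp k0
  have h3 : ‖θ‖ ^ k0 * 1 ≤ ‖θ‖ ^ k0 * ((T.natDegree : ℝ) * (U : ℝ) * ‖θ‖) := by
    calc ‖θ‖ ^ k0 * 1 ≤ |(T.coeff k0 : ℝ)| * ‖θ‖ ^ k0 := by nlinarith
      _ ≤ (T.natDegree : ℝ) * ((U : ℝ) * ‖θ‖ ^ (k0 + 1)) := hsum
      _ = ‖θ‖ ^ k0 * ((T.natDegree : ℝ) * (U : ℝ) * ‖θ‖) := by ring
  have h4 := le_of_mul_le_mul_left h3 hpk
  have h5 : (T.natDegree : ℝ) ≤ (N : ℝ) := by exact_mod_cast hdeg.le
  have h6 : (T.natDegree : ℝ) * (U : ℝ) * ‖θ‖ ≤ (N : ℝ) * (U : ℝ) * ‖θ‖ := by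
    apply mul_le_mul_of_nonneg_right _ hθp.le
    exact mul_le_mul_of_nonneg_right h5 (by linarith)
  linarith

/-- PW-20 -/
theorem elim_bound {D H : ℕ} (hD : 1 ≤ D) (hH : 1 ≤ H) (f : Fin n → MvPolynomial (Fin n) ℤ)
    (g : MvPolynomial (Fin n) ℤ) (hfd : ∀ i, (f i).totalDegree ≤ D) (hgd : g.totalDegree ≤ D)
    (hfc : ∀ i m, |(f i).coeff m| ≤ (H : ℤ)) (hgc : ∀ m, |g.coeff m| ≤ (H : ℤ))
    (ξ : Fin n → ℂ) (hf : ∀ i, aeval ξ (f i) = 0)
    (hdet : (Matrix.of fun i j => (aeval ξ (pderiv j (f i)) : ℂ)).det ≠ 0)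
    (hg : (aeval ξ g : ℂ) ≠ 0) :
    1 / ((NN n D : ℝ) * (UU n D H : ℝ)) ≤ ‖(aeval ξ g : ℂ)‖ := by
  obtain ⟨R, hR, hRel, hRs, hRc⟩ := siegel_rel hD hH
    (Fin.cons g f : Fin (n + 1) → MvPolynomial (Fin n) ℤ)
    (fun i => by
      refine Fin.cases ?_ (fun j => ?_) i
      · simpa using hgd
      · simpa using hfd j)
    (fun i m => by
      refine Fin.cases ?_ (fun j => ?_) i
      · simpa using hgc m
      · simpa using hfc j m)
  obtain ⟨T, β, hT, hT0, hTc⟩ := lowest f g ξ hf hdet R hR hRel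
  refine root_lower (NN_pos hD) (UU_pos hD hH) T hT ?_ ?_ _ hg hT0
  · have hlead : T.coeff T.natDegree ≠ 0 := by
      have := Polynomial.leadingCoeff_ne_zero.2 hT
      exact this
    rw [hTc] at hlead
    have hmem := MvPolynomial.mem_support_iff.2 hlead
    have := hRs _ hmem 0
    simpa using this
  · intro k
    rw [hTc]
    exact hRc _

end Pool.Agent.helper82.PW
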