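import Mathlib
import Pool.Agent.helper82.PW.Defs

/-!
# The analytic implicit function for a nondegenerate system (PW-17)
-/

set_option autoImplicit false

namespace Pool.Agent.helper82.PW

open Complex MvPolynomial Topology Filter

variable {r n : ℕ}

/-- PW-17a -/
theorem continuous_row (e : EQ r n) (i : Fin n) :
    Continuous fun p : (Fin r → ℂ) × (Fin n → ℂ) => row p.1 p.2 e i := by
  have haev : ∀ {J : Type} (f : (Fin r → ℂ) × (Fin n → ℂ) → J → ℂ) (_ : Continuous f)
      (P : MvPolynomial J ℤ), Continuous fun p => (aeval (f p) P : ℂ) := by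
    intro J f hf P
    have h : (fun p => (aeval (f p) P : ℂ)) =
        fun p => eval (f p) (map (algebraMap ℤ ℂ) P) := by
      funext p
      rw [eval_map]
      rfl
    rw [h]
    exact (MvPolynomial.continuous_eval _).comp hf
  rcases e with P | M
  · have h1 : Continuous fun p : (Fin r → ℂ) × (Fin n → ℂ) => pt p.1 p.2 := by
      refine continuous_pi fun j => ?_
      rcases j with j | j
      · exact (continuous_apply j).comp continuous_fst
      · exact continuous_exp.comp ((continuous_apply j).comp continuous_snd)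
    exact (continuous_exp.comp ((continuous_apply i).comp continuous_snd)).mul
      (haev _ h1 _)
  · exact haev _ continuous_fst _

/-- the derivative of a polynomial in functions -/
theorem ift_poly {E : Type*} [NormedAddCommGroup E] [NormedSpace ℂ E] {J : Type*} [Fintype J]
    (f : J → E → ℂ) (f' : J → E →L[ℂ] ℂ) (x : E)
    (hf : ∀ j, HasFDerivAt (f j) (f' j) x) (P : MvPolynomial J ℤ) :
    ∃ L : E →L[ℂ] ℂ, HasFDerivAt (fun y => (aeval (fun j => f j y) P : ℂ)) L x ∧
      ∀ v, L v = ∑ j, (aeval (fun j => f j x) (pderiv j P) : ℂ) * f' j v := by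
  classical
  induction P using MvPolynomial.induction_on with
  | C a =>
    refine ⟨0, ?_, fun v => ?_⟩
    · simp only [aeval_C]
      exact hasFDerivAt_const _ _
    · simp
  | add p q hp hq =>
    obtain ⟨Lp, hp, hp'⟩ := hp
    obtain ⟨Lq, hq, hq'⟩ := hq
    refine ⟨Lp + Lq, ?_, fun v => ?_⟩
    · simp only [map_add]
      exact hp.add hq
    · show Lp v + Lq v = _
      rw [hp', hq', ← Finset.sum_add_distrib]
      refine Finset.sum_congr rfl fun j _ => ?_
      rw [map_add, map_add, add_mul]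
  | mul_X p i hp =>
    obtain ⟨Lp, hp, hp'⟩ := hp
    refine ⟨(aeval (fun j => f j x) p : ℂ) • f' i + f i x • Lp, ?_, fun v => ?_⟩
    · simp only [map_mul, aeval_X]
      exact hp.mul (hf i)
    · show (aeval (fun j => f j x) p : ℂ) * f' i v + f i x * Lp v = _
      rw [hp', Finset.mul_sum]
      have h3 : ∀ j, (aeval (fun j => f j x) (pderiv j (p * X i)) : ℂ) * f' j v =
          (if j = i then (aeval (fun j => f j x) p : ℂ) * f' i v else 0) +
            f i x * ((aeval (fun j => f j x) (pderiv j p) : ℂ) * f' j v) := by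
        intro j
        rw [pderiv_mul, pderiv_X, map_add, map_mul, map_mul, aeval_X]
        by_cases hji : j = i
        · subst hji
          simp only [Pi.single_eq_same, map_one, if_true]
          ring
        · rw [if_neg hji, Pi.single_apply, if_neg (fun h => hji h.symm), map_zero]
          ring
      rw [Finset.sum_congr rfl fun j _ => h3 j, Finset.sum_add_distrib,
        Finset.sum_ite_eq' Finset.univ i, if_pos (Finset.mem_univ i)]

/-- the derivative with respect to `w` of an equation -/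
theorem ift_row (t0 : Fin r → ℂ) (z : Fin n → ℂ) (e : EQ r n) :
    ∃ L : (Fin n → ℂ) →L[ℂ] ℂ, HasFDerivAt (fun w => FE t0 w e) L z ∧
      ∀ v, L v = ∑ i, row t0 z e i * v i := by
  rcases e with P | M
  · obtain ⟨L, h, h'⟩ := ift_poly (E := Fin n → ℂ) (J := Fin r ⊕ Fin n) (fun j w => pt t0 w j)
      (fun j => Sum.elim (fun _ => 0)
        (fun i => exp (z i) • (ContinuousLinearMap.proj i : (Fin n → ℂ) →L[ℂ] ℂ)) j) z
      (by
        rintro (j | j)
        · exact hasFDerivAt_const _ _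
        · exact (hasFDerivAt_apply j z).cexp) P
    refine ⟨L, h, fun v => ?_⟩
    rw [h', Fintype.sum_sum_type]
    have h1 : ∑ x : Fin r, (aeval (fun j => pt t0 z j) (pderiv (Sum.inl x) P) : ℂ) *
        (Sum.elim (fun _ => 0)
          (fun i => exp (z i) • (ContinuousLinearMap.proj i : (Fin n → ℂ) →L[ℂ] ℂ))
          (Sum.inl x : Fin r ⊕ Fin n)) v = 0 := by
      refine Finset.sum_eq_zero fun x _ => ?_
      show (aeval (fun j => pt t0 z j) (pderiv (Sum.inl x) P) : ℂ) * 0 = 0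
      rw [mul_zero]
    rw [h1, zero_add]
    refine Finset.sum_congr rfl fun i _ => ?_
    show (aeval (fun j => pt t0 z j) (pderiv (Sum.inr i) P) : ℂ) * (exp (z i) * v i) =
      exp (z i) * (aeval (pt t0 z) (pderiv (Sum.inr i) P) : ℂ) * v i
    ring
  · refine ⟨∑ i, (aeval t0 (M i) : ℂ) • (ContinuousLinearMap.proj i : (Fin n → ℂ) →L[ℂ] ℂ),
      ?_, fun v => ?_⟩
    · show HasFDerivAt (fun w : Fin n → ℂ => ∑ i, (aeval t0 (M i) : ℂ) * w i) _ z
      refine HasFDerivAt.fun_sum fun i _ => ?_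
      have h := (hasFDerivAt_apply (𝕜 := ℂ) i z).const_mul (aeval t0 (M i) : ℂ)
      exact h
    · rw [sum_apply]
      rfl

/-- the equations are analytic -/
theorem ift_an (e : EQ r n) (p0 : (Fin r → ℂ) × (Fin n → ℂ)) :
    AnalyticAt ℂ (fun p : (Fin r → ℂ) × (Fin n → ℂ) => FE p.1 p.2 e) p0 := by
  have hfst : ∀ i : Fin r, AnalyticAt ℂ (fun p : (Fin r → ℂ) × (Fin n → ℂ) => p.1 i) p0 :=
    fun i => (((ContinuousLinearMap.proj i : (Fin r → ℂ) →L[ℂ] ℂ).comp
      (ContinuousLinearMap.fst ℂ (Fin r → ℂ) (Fin n → ℂ))).analyticAt p0)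
  have hsnd : ∀ i : Fin n, AnalyticAt ℂ (fun p : (Fin r → ℂ) × (Fin n → ℂ) => p.2 i) p0 :=
    fun i => (((ContinuousLinearMap.proj i : (Fin n → ℂ) →L[ℂ] ℂ).comp
      (ContinuousLinearMap.snd ℂ (Fin r → ℂ) (Fin n → ℂ))).analyticAt p0)
  rcases e with P | M
  · refine AnalyticAt.aeval_mvPolynomial
      (f := fun p : (Fin r → ℂ) × (Fin n → ℂ) => pt p.1 p.2) ?_ P
    rintro (j | j)
    · exact hfst j
    · exact (hsnd j).cexp
  · show AnalyticAt ℂ (fun p : (Fin r → ℂ) × (Fin n → ℂ) =>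
      ∑ i, (aeval p.1 (M i) : ℂ) * p.2 i) p0
    refine Finset.analyticAt_fun_sum _ fun i _ => ?_
    refine AnalyticAt.mul ?_ (hsnd i)
    exact AnalyticAt.aeval_mvPolynomial
      (f := fun p : (Fin r → ℂ) × (Fin n → ℂ) => p.1) hfst (M i)

/-- PW-17b -/
theorem ift (t0 : Fin r → ℂ) (z : Fin n → ℂ) (τ : Fin n → EQ r n)
    (h0 : ∀ k, FE t0 z (τ k) = 0) (hdet : (Matrix.of fun k i => row t0 z (τ k) i).det ≠ 0) :
    ∃ Z : (Fin r → ℂ) → Fin n → ℂ, AnalyticAt ℂ Z t0 ∧ Z t0 = z ∧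
      ∀ᶠ t in 𝓝 t0, ∀ k, FE t (Z t) (τ k) = 0 := by
  classical
  set G : (Fin r → ℂ) × (Fin n → ℂ) → (Fin r → ℂ) × (Fin n → ℂ) :=
    fun p => (p.1, fun k => FE p.1 p.2 (τ k)) with hG
  have hGan : AnalyticAt ℂ G (t0, z) := by
    refine AnalyticAt.prod analyticAt_fst ?_
    exact analyticAt_pi_iff.2 fun k => ift_an (τ k) (t0, z)
  have hGd : HasFDerivAt G (fderiv ℂ G (t0, z)) (t0, z) :=
    hGan.differentiableAt.hasFDerivAt
  -- the two components of the derivative
  have hfst : ∀ v, (fderiv ℂ G (t0, z) v).1 = v.1 := by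
    intro v
    have h1 : HasFDerivAt (fun p : (Fin r → ℂ) × (Fin n → ℂ) => (G p).1)
        ((ContinuousLinearMap.fst ℂ (Fin r → ℂ) (Fin n → ℂ)).comp (fderiv ℂ G (t0, z)))
        (t0, z) :=
      HasFDerivAt.comp (t0, z) (f := G) (g := fun p : (Fin r → ℂ) × (Fin n → ℂ) => p.1)
        hasFDerivAt_fst hGd
    have h2 : HasFDerivAt (fun p : (Fin r → ℂ) × (Fin n → ℂ) => p.1)
        (ContinuousLinearMap.fst ℂ (Fin r → ℂ) (Fin n → ℂ)) (t0, z) := hasFDerivAt_fst
    have h3 := h1.unique h2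
    have h4 := congrArg (fun (L : (Fin r → ℂ) × (Fin n → ℂ) →L[ℂ] (Fin r → ℂ)) => L v) h3
    exact h4
  have hsnd : ∀ (b : Fin n → ℂ) (k : Fin n), (fderiv ℂ G (t0, z) (0, b)).2 k =
      ∑ i, row t0 z (τ k) i * b i := by
    intro b k
    have h1 : HasFDerivAt (fun w : Fin n → ℂ => G (t0, w))
        ((fderiv ℂ G (t0, z)).comp (ContinuousLinearMap.inr ℂ (Fin r → ℂ) (Fin n → ℂ))) z :=
      HasFDerivAt.comp z (f := fun w : Fin n → ℂ => (t0, w)) (g := G) hGd
        (hasFDerivAt_prodMk_right t0 z)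
    have h2 : HasFDerivAt (fun w : Fin n → ℂ => (G (t0, w)).2 k)
        (((ContinuousLinearMap.proj k : (Fin n → ℂ) →L[ℂ] ℂ).comp
          (ContinuousLinearMap.snd ℂ (Fin r → ℂ) (Fin n → ℂ))).comp
          ((fderiv ℂ G (t0, z)).comp (ContinuousLinearMap.inr ℂ (Fin r → ℂ) (Fin n → ℂ)))) z :=
      HasFDerivAt.comp z (f := fun w : Fin n → ℂ => G (t0, w))
        (g := fun p : (Fin r → ℂ) × (Fin n → ℂ) => p.2 k)
        (((ContinuousLinearMap.proj k : (Fin n → ℂ) →L[ℂ] ℂ).comp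
          (ContinuousLinearMap.snd ℂ (Fin r → ℂ) (Fin n → ℂ))).hasFDerivAt) h1
    obtain ⟨L, hL, hL'⟩ := ift_row t0 z (τ k)
    have h3 := h2.unique hL
    have h4 := congrArg (fun (L : (Fin n → ℂ) →L[ℂ] ℂ) => L b) h3
    simp only [hL'] at h4
    exact h4
  have hinj : Function.Injective (fderiv ℂ G (t0, z)) := by
    rw [injective_iff_map_eq_zero]
    intro v hv
    have h1 : v.1 = 0 := by
      rw [← hfst v, hv]
      rfl
    have h2 : v = (0, v.2) := by
      rw [← h1]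
    have h3 : (Matrix.of fun k i => row t0 z (τ k) i).mulVec v.2 = 0 := by
      funext k
      have h4 := hsnd v.2 k
      rw [← h2, hv] at h4
      exact h4.symm
    have h5 := Matrix.eq_zero_of_mulVec_eq_zero hdet h3
    rw [h2, h5]
    rfl
  let Le : ((Fin r → ℂ) × (Fin n → ℂ)) ≃ₗ[ℂ] ((Fin r → ℂ) × (Fin n → ℂ)) :=
    LinearEquiv.ofInjectiveEndo (fderiv ℂ G (t0, z)).toLinearMap hinj
  let Lc : ((Fin r → ℂ) × (Fin n → ℂ)) ≃L[ℂ] ((Fin r → ℂ) × (Fin n → ℂ)) :=
    Le.toContinuousLinearEquiv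
  have hLc : (Lc : (Fin r → ℂ) × (Fin n → ℂ) →L[ℂ] (Fin r → ℂ) × (Fin n → ℂ)) =
      fderiv ℂ G (t0, z) := by
    ext v <;> rfl
  have hGd' : HasFDerivAt G
      (Lc : (Fin r → ℂ) × (Fin n → ℂ) →L[ℂ] (Fin r → ℂ) × (Fin n → ℂ)) (t0, z) := by
    rw [hLc]; exact hGd
  have hGc : ContDiffAt ℂ ⊤ G (t0, z) := hGan.contDiffAt
  have hne : (⊤ : WithTop ℕ∞) ≠ 0 := by simp
  set H := hGc.localInverse hGd' hne with hH
  have hHan : AnalyticAt ℂ H (G (t0, z)) := by
    have h := hGc.to_localInverse hGd' hne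
    exact ContDiffAt.analyticAt h
  have hGz : G (t0, z) = (t0, 0) := by
    rw [hG]
    simp only [h0]
    rfl
  have hH0 : H (t0, 0) = (t0, z) := by
    have h := hGc.localInverse_apply_image hGd' hne
    rw [hGz] at h
    exact h
  have hright : ∀ᶠ y in 𝓝 (t0, (0 : Fin n → ℂ)), G (H y) = y := by
    have h := (hGc.hasStrictFDerivAt' hGd' hne).eventually_right_inverse
    rw [hGz] at h
    exact h
  rw [hGz] at hHan
  have hemb : AnalyticAt ℂ (fun t : Fin r → ℂ => (t, (0 : Fin n → ℂ))) t0 :=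
    analyticAt_id.prod analyticAt_const
  refine ⟨fun t => (H (t, 0)).2, ?_, ?_, ?_⟩
  · have h1 : AnalyticAt ℂ (fun t : Fin r → ℂ => H (t, 0)) t0 :=
      AnalyticAt.fun_comp (g := H) (f := fun t : Fin r → ℂ => (t, (0 : Fin n → ℂ))) hHan hemb
    exact AnalyticAt.fun_comp (g := fun p : (Fin r → ℂ) × (Fin n → ℂ) => p.2)
      (f := fun t : Fin r → ℂ => H (t, 0)) analyticAt_snd h1
  · show (H (t0, 0)).2 = z
    rw [hH0]
  · have hc : Tendsto (fun t : Fin r → ℂ => (t, (0 : Fin n → ℂ))) (𝓝 t0) (𝓝 (t0, 0)) :=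
      hemb.continuousAt
    filter_upwards [hc.eventually hright] with t ht k
    have h1 : (H (t, 0)).1 = t := congrArg Prod.fst ht
    have h2 : FE (H (t, 0)).1 (H (t, 0)).2 (τ k) = 0 :=
      congrFun (congrArg Prod.snd ht) k
    rw [h1] at h2
    exact h2

end Pool.Agent.helper82.PW
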