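import Mathlib
import Pool.Agent.helper82.PW.Defs

/-!
# PW-21: a numerical estimate
-/

set_option autoImplicit false

namespace Pool.Agent.helper82.PW

theorem numeric_nat (n e q D H : ℕ) (hq : 2 ≤ q) (hD : D ≤ q ^ e) (hH : H ≤ q ^ e) :
    NN n D ≤ q ^ (1 + (e + n + 1) * n) ∧
      NN n D * UU n D H ≤ q ^ ((1 + (e + n + 1) * n) * (n + 2) +
        ((e + 1) * n + e) * ((n + 1) * q ^ (1 + (e + n + 1) * n))) := by
  have hq1 : 1 ≤ q := by omega
  have hpow : ∀ c : ℕ, c ≤ q ^ c := fun c => (Nat.lt_pow_self (by omega)).le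
  set A := 1 + (e + n + 1) * n with hA
  set B := (e + 1) * n + e with hB
  have h1 : NN n D ≤ q ^ A := by
    have h2 : D * (n + 1) ≤ q ^ (e + n + 1) := by
      calc D * (n + 1) ≤ q ^ e * q ^ (n + 1) := Nat.mul_le_mul hD (hpow (n + 1))
        _ = q ^ (e + n + 1) := by rw [← pow_add]; ring_nf
    calc NN n D = 2 * (D * (n + 1)) ^ n := rfl
      _ ≤ q * (q ^ (e + n + 1)) ^ n := Nat.mul_le_mul hq (Nat.pow_le_pow_left h2 n)
      _ = q ^ A := by rw [← pow_mul, hA, pow_add, pow_one]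
  refine ⟨h1, ?_⟩
  have h3 : (D + 1) ^ n * H ≤ q ^ B := by
    have h4 : D + 1 ≤ q ^ (e + 1) := by
      have h5 : 1 ≤ q ^ e := Nat.one_le_pow _ _ hq1
      calc D + 1 ≤ q ^ e + q ^ e := by omega
        _ = q ^ e * 2 := by ring
        _ ≤ q ^ e * q := Nat.mul_le_mul_left _ hq
        _ = q ^ (e + 1) := by rw [pow_succ]
    calc (D + 1) ^ n * H ≤ (q ^ (e + 1)) ^ n * q ^ e := Nat.mul_le_mul (Nat.pow_le_pow_left h4 n) hH
      _ = q ^ B := by rw [← pow_mul, ← pow_add, hB]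
  have h6 : ((D + 1) ^ n * H) ^ ((n + 1) * NN n D) ≤ q ^ (B * ((n + 1) * q ^ A)) := by
    calc ((D + 1) ^ n * H) ^ ((n + 1) * NN n D) ≤ (q ^ B) ^ ((n + 1) * NN n D) :=
          Nat.pow_le_pow_left h3 _
      _ = q ^ (B * ((n + 1) * NN n D)) := by rw [← pow_mul]
      _ ≤ q ^ (B * ((n + 1) * q ^ A)) := Nat.pow_le_pow_right hq1
          (Nat.mul_le_mul_left _ (Nat.mul_le_mul_left _ h1))
  calc NN n D * UU n D H = NN n D ^ (n + 2) * ((D + 1) ^ n * H) ^ ((n + 1) * NN n D) := by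
        rw [UU]; ring
    _ ≤ (q ^ A) ^ (n + 2) * q ^ (B * ((n + 1) * q ^ A)) :=
        Nat.mul_le_mul (Nat.pow_le_pow_left h1 _) h6
    _ = q ^ (A * (n + 2) + B * ((n + 1) * q ^ A)) := by rw [← pow_mul, ← pow_add]

/-- PW-21 -/
theorem numeric (n C δ : ℕ) : ∃ m₁ : ℕ, ∀ q : ℕ, 2 ≤ q → ∀ D H : ℕ, D ≤ C * q ^ δ →
    H ≤ C * q ^ δ → (NN n D : ℝ) * (UU n D H : ℝ) ≤ Real.exp ((q : ℝ) ^ m₁) := by
  set e := C + δ with he
  set A := 1 + (e + n + 1) * n with hA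
  set B := (e + 1) * n + e with hB
  refine ⟨A * (n + 2) + B * (n + 1) + A + 1, fun q hq D H hD hH => ?_⟩
  have hq1 : 1 ≤ q := by omega
  have hpow : ∀ c : ℕ, c ≤ q ^ c := fun c => (Nat.lt_pow_self (by omega)).le
  have hCe : C * q ^ δ ≤ q ^ e := by
    calc C * q ^ δ ≤ q ^ C * q ^ δ := Nat.mul_le_mul_right _ (hpow C)
      _ = q ^ e := by rw [← pow_add]
  obtain ⟨-, h1⟩ := numeric_nat n e q D H hq (hD.trans hCe) (hH.trans hCe)
  rw [← hA, ← hB] at h1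
  set E := A * (n + 2) + B * ((n + 1) * q ^ A) with hE
  have h2 : E * q ≤ q ^ (A * (n + 2) + B * (n + 1) + A + 1) := by
    have h3 : 1 ≤ q ^ A := Nat.one_le_pow _ _ hq1
    have h4 : E ≤ (A * (n + 2) + B * (n + 1)) * q ^ A := by
      calc E = A * (n + 2) + B * (n + 1) * q ^ A := by rw [hE, mul_assoc]
        _ ≤ A * (n + 2) * q ^ A + B * (n + 1) * q ^ A :=
            Nat.add_le_add_right (Nat.le_mul_of_pos_right _ h3) _
        _ = (A * (n + 2) + B * (n + 1)) * q ^ A := by ring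
    calc E * q ≤ (A * (n + 2) + B * (n + 1)) * q ^ A * q := Nat.mul_le_mul_right _ h4
      _ ≤ q ^ (A * (n + 2) + B * (n + 1)) * q ^ A * q :=
          Nat.mul_le_mul_right _ (Nat.mul_le_mul_right _ (hpow _))
      _ = q ^ (A * (n + 2) + B * (n + 1) + A + 1) := by rw [← pow_add, ← pow_succ]
  have hq0 : (0 : ℝ) ≤ q := Nat.cast_nonneg q
  have h5 : (q : ℝ) ≤ Real.exp q := by
    have := Real.add_one_le_exp (q : ℝ)
    linarith
  calc (NN n D : ℝ) * (UU n D H : ℝ) = ((NN n D * UU n D H : ℕ) : ℝ) := by push_cast; rfl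
    _ ≤ ((q ^ E : ℕ) : ℝ) := by exact_mod_cast h1
    _ = (q : ℝ) ^ E := by push_cast; rfl
    _ ≤ (Real.exp q) ^ E := pow_le_pow_left₀ hq0 h5 E
    _ = Real.exp (E * q) := by rw [← Real.exp_nat_mul]
    _ ≤ Real.exp ((q : ℝ) ^ (A * (n + 2) + B * (n + 1) + A + 1)) := by
        apply Real.exp_le_exp.2
        exact_mod_cast h2

end Pool.Agent.helper82.PW
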