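import Mathlib
import Pool.Agent.helper82.PW.Defs

/-!
# PW-22: specialisation of polynomials at rational points
-/

set_option autoImplicit false

namespace Pool.Agent.helper82.PW

open Complex MvPolynomial

variable {r n : ℕ}

/-- the specialisation of a monomial -/
noncomputable def spec_mon (δ q : ℕ) (p : Fin r → ℤ) (a : Fin r ⊕ Fin n →₀ ℕ) (c : ℤ) :
    MvPolynomial (Fin n) ℤ :=
  monomial (Finsupp.equivFunOnFinite.symm fun j => a (Sum.inr j))
    (c * (∏ i, p i ^ a (Sum.inl i)) * (q : ℤ) ^ (δ - ∑ i, a (Sum.inl i)))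

theorem spec_mon_eval (δ q : ℕ) (hq : 1 ≤ q) (p : Fin r → ℤ) (a : Fin r ⊕ Fin n →₀ ℕ) (c : ℤ)
    (hδ : ∑ i, a (Sum.inl i) ≤ δ) (ξ : Fin n → ℂ) :
    (aeval ξ (spec_mon δ q p a c) : ℂ) =
      (q : ℂ) ^ δ * aeval (Sum.elim (rat q p) ξ) (monomial a c) := by
  have hq0 : (q : ℂ) ≠ 0 := by
    have : q ≠ 0 := by omega
    exact_mod_cast this
  unfold spec_mon
  rw [aeval_monomial, aeval_monomial, Finsupp.prod_fintype _ _ (fun i => pow_zero _),
    Finsupp.prod_fintype _ _ (fun i => pow_zero _), Fintype.prod_sum_type]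
  simp only [Sum.elim_inl, Sum.elim_inr, rat, Finsupp.equivFunOnFinite_symm_apply_apply, div_pow,
    Finset.prod_div_distrib, Finset.prod_pow_eq_pow_sum, algebraMap_int_eq, eq_intCast]
  push_cast
  have h1 : (q : ℂ) ^ δ = (q : ℂ) ^ (δ - ∑ i, a (Sum.inl i)) * (q : ℂ) ^ (∑ i, a (Sum.inl i)) := by
    rw [← pow_add, Nat.sub_add_cancel hδ]
  rw [h1]
  have h2 : (q : ℂ) ^ (∑ i, a (Sum.inl i)) ≠ 0 := pow_ne_zero _ hq0
  field_simp

theorem spec_mon_pderiv (δ q : ℕ) (p : Fin r → ℤ) (a : Fin r ⊕ Fin n →₀ ℕ) (c : ℤ) (i : Fin n) :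
    pderiv i (spec_mon δ q p a c) =
      spec_mon δ q p (a - Finsupp.single (Sum.inr i) 1) (c * (a (Sum.inr i) : ℤ)) := by
  unfold spec_mon
  rw [pderiv_monomial]
  have h1 : ∀ k : Fin r, (a - Finsupp.single (Sum.inr i) 1 : Fin r ⊕ Fin n →₀ ℕ) (Sum.inl k) =
      a (Sum.inl k) := by
    intro k
    rw [Finsupp.tsub_apply, Finsupp.single_apply]
    simp
  simp only [h1]
  have h2 : (Finsupp.equivFunOnFinite.symm fun j => a (Sum.inr j)) - Finsupp.single i 1 =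
      (Finsupp.equivFunOnFinite.symm fun j =>
        (a - Finsupp.single (Sum.inr i) 1 : Fin r ⊕ Fin n →₀ ℕ) (Sum.inr j)) := by
    ext k
    rw [Finsupp.tsub_apply, Finsupp.equivFunOnFinite_symm_apply_apply,
      Finsupp.equivFunOnFinite_symm_apply_apply, Finsupp.tsub_apply, Finsupp.single_apply,
      Finsupp.single_apply]
    by_cases h : i = k
    · simp [h]
    · have h' : ¬ ((Sum.inr i : Fin r ⊕ Fin n) = Sum.inr k) := by
        simpa using h
      simp [h]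
  rw [h2, Finsupp.equivFunOnFinite_symm_apply_apply]
  congr 1
  ring

theorem spec_core (P : MvPolynomial (Fin r ⊕ Fin n) ℤ) (B : ℕ) :
    ∃ δ0 : ℕ, ∀ δ : ℕ, δ0 ≤ δ → ∃ C : ℕ, ∀ (q : ℕ) (p : Fin r → ℤ), 1 ≤ q →
      (∀ i, |p i| ≤ (B * q : ℤ)) →
      ∃ f : MvPolynomial (Fin n) ℤ, f.totalDegree ≤ C ∧
        (∀ m, |f.coeff m| ≤ ((C * q ^ δ : ℕ) : ℤ)) ∧
        (∀ ξ : Fin n → ℂ, (aeval ξ f : ℂ) = (q : ℂ) ^ δ * aeval (Sum.elim (rat q p) ξ) P) ∧
        ∀ (i : Fin n) (ξ : Fin n → ℂ), (aeval ξ (pderiv i f) : ℂ) =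
          (q : ℂ) ^ δ * aeval (Sum.elim (rat q p) ξ) (pderiv (Sum.inr i) P) := by
  induction P using MvPolynomial.induction_on' with
  | monomial a c =>
    refine ⟨∑ i, a (Sum.inl i), fun δ hδ => ?_⟩
    refine ⟨(∑ j, a (Sum.inr j)) + c.natAbs * B ^ (∑ i, a (Sum.inl i)), fun q p hq hp => ?_⟩
    refine ⟨spec_mon δ q p a c, ?_, ?_, ?_, ?_⟩
    · unfold spec_mon
      refine le_trans (totalDegree_monomial_le _ _) ?_
      rw [Finsupp.sum_fintype _ _ (fun i => rfl)]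
      simp only [Finsupp.equivFunOnFinite_symm_apply_apply]
      exact Nat.le_add_right _ _
    · intro m
      have hbound : |c * (∏ i, p i ^ a (Sum.inl i)) * (q : ℤ) ^ (δ - ∑ i, a (Sum.inl i))| ≤
          ((((∑ j, a (Sum.inr j)) + c.natAbs * B ^ (∑ i, a (Sum.inl i))) * q ^ δ : ℕ) : ℤ) := by
        rw [abs_mul, abs_mul, Finset.abs_prod]
        have e1 : ∏ i, |p i ^ a (Sum.inl i)| ≤ ∏ i, ((B : ℤ) * q) ^ a (Sum.inl i) := by
          apply Finset.prod_le_prod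
          · intro i _; exact abs_nonneg _
          · intro i _
            rw [abs_pow]
            exact pow_le_pow_left₀ (abs_nonneg _) (hp i) _
        rw [Finset.prod_pow_eq_pow_sum, mul_pow] at e1
        have e2 : |((q : ℤ) ^ (δ - ∑ i, a (Sum.inl i)))| = (q : ℤ) ^ (δ - ∑ i, a (Sum.inl i)) :=
          abs_of_nonneg (by positivity)
        rw [e2]
        have e3 : (q : ℤ) ^ δ = (q : ℤ) ^ (∑ i, a (Sum.inl i)) *
            (q : ℤ) ^ (δ - ∑ i, a (Sum.inl i)) := by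
          rw [← pow_add, Nat.add_sub_cancel' hδ]
        calc |c| * (∏ i, |p i ^ a (Sum.inl i)|) * (q : ℤ) ^ (δ - ∑ i, a (Sum.inl i))
            ≤ |c| * ((B : ℤ) ^ (∑ i, a (Sum.inl i)) * (q : ℤ) ^ (∑ i, a (Sum.inl i))) *
                (q : ℤ) ^ (δ - ∑ i, a (Sum.inl i)) := by
              apply mul_le_mul_of_nonneg_right _ (by positivity)
              exact mul_le_mul_of_nonneg_left e1 (abs_nonneg _)
          _ = |c| * (B : ℤ) ^ (∑ i, a (Sum.inl i)) * (q : ℤ) ^ δ := by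
              rw [e3]; ring
          _ ≤ _ := by
              push_cast
              apply mul_le_mul_of_nonneg_right _ (by positivity)
              have : (0 : ℤ) ≤ ∑ j, (a (Sum.inr j) : ℤ) :=
                Finset.sum_nonneg fun j _ => by positivity
              linarith
      unfold spec_mon
      rw [coeff_monomial]
      split_ifs with h
      · exact hbound
      · rw [abs_zero]; positivity
    · intro ξ
      exact spec_mon_eval δ q hq p a c hδ ξ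
    · intro i ξ
      rw [spec_mon_pderiv, pderiv_monomial]
      have h1 : ∀ k : Fin r, (a - Finsupp.single (Sum.inr i) 1 : Fin r ⊕ Fin n →₀ ℕ)
          (Sum.inl k) = a (Sum.inl k) := by
        intro k
        rw [Finsupp.tsub_apply, Finsupp.single_apply]
        simp
      exact spec_mon_eval δ q hq p _ _ (by simp only [h1]; exact hδ) ξ
  | add P Q hP hQ =>
    obtain ⟨δ1, h1⟩ := hP
    obtain ⟨δ2, h2⟩ := hQ
    refine ⟨max δ1 δ2, fun δ hδ => ?_⟩
    obtain ⟨C1, h1⟩ := h1 δ (le_trans (le_max_left _ _) hδ)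
    obtain ⟨C2, h2⟩ := h2 δ (le_trans (le_max_right _ _) hδ)
    refine ⟨C1 + C2, fun q p hq hp => ?_⟩
    obtain ⟨f1, a1, b1, c1, d1⟩ := h1 q p hq hp
    obtain ⟨f2, a2, b2, c2, d2⟩ := h2 q p hq hp
    refine ⟨f1 + f2, ?_, ?_, ?_, ?_⟩
    · refine le_trans (totalDegree_add _ _) ?_
      omega
    · intro m
      rw [coeff_add]
      refine le_trans (abs_add_le _ _) ?_
      have := b1 m
      have := b2 m
      push_cast at *
      linarith
    · intro ξ
      rw [map_add, map_add, c1, c2]; ring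
    · intro i ξ
      rw [map_add, map_add, map_add, map_add, d1, d2]; ring

/-- PW-22a -/
theorem spec_poly (P : MvPolynomial (Fin r ⊕ Fin n) ℤ) (B : ℕ) :
    ∃ δ C : ℕ, ∀ (q : ℕ) (p : Fin r → ℤ), 1 ≤ q → (∀ i, |p i| ≤ (B * q : ℤ)) →
      ∃ f : MvPolynomial (Fin n) ℤ, f.totalDegree ≤ C ∧
        (∀ m, |f.coeff m| ≤ ((C * q ^ δ : ℕ) : ℤ)) ∧
        (∀ ξ : Fin n → ℂ, (aeval ξ f : ℂ) = (q : ℂ) ^ δ * aeval (Sum.elim (rat q p) ξ) P) ∧
        ∀ (i : Fin n) (ξ : Fin n → ℂ), (aeval ξ (pderiv i f) : ℂ) =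
          (q : ℂ) ^ δ * aeval (Sum.elim (rat q p) ξ) (pderiv (Sum.inr i) P) := by
  obtain ⟨δ0, h⟩ := spec_core P B
  obtain ⟨C, h⟩ := h δ0 le_rfl
  exact ⟨δ0, C, h⟩

/-- PW-22b -/
theorem spec_lin (M : Fin n → MvPolynomial (Fin r) ℤ) (B : ℕ) :
    ∃ δ C : ℕ, ∀ (q : ℕ) (p : Fin r → ℤ), 1 ≤ q → (∀ i, |p i| ≤ (B * q : ℤ)) →
      ∃ m : Fin n → ℤ, (∀ i, |m i| ≤ ((C * q ^ δ : ℕ) : ℤ)) ∧
        ∀ i, (m i : ℂ) = (q : ℂ) ^ δ * aeval (rat q p) (M i) := by
  have h := fun i : Fin n => spec_core (n := 0)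
    (rename Sum.inl (M i) : MvPolynomial (Fin r ⊕ Fin 0) ℤ) B
  choose δ0 h using h
  set δ : ℕ := ∑ i, δ0 i with hδ
  have hle : ∀ i, δ0 i ≤ δ := fun i =>
    Finset.single_le_sum (f := δ0) (fun _ _ => Nat.zero_le _) (Finset.mem_univ i)
  choose C h using fun i => h i δ (hle i)
  refine ⟨δ, ∑ i, C i, fun q p hq hp => ?_⟩
  choose f h1 h2 h3 h4 using fun i => h i q p hq hp
  refine ⟨fun i => (f i).coeff 0, fun i => ?_, fun i => ?_⟩
  · refine le_trans (h2 i 0) ?_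
    have : C i ≤ ∑ i, C i :=
      Finset.single_le_sum (f := C) (fun _ _ => Nat.zero_le _) (Finset.mem_univ i)
    exact_mod_cast Nat.mul_le_mul_right _ this
  · have h5 := h3 i (fun j => j.elim0)
    rw [aeval_rename] at h5
    have h6 : (Sum.elim (rat q p) (fun j : Fin 0 => (j.elim0 : ℂ)) ∘ Sum.inl) = rat q p := by
      funext k; rfl
    rw [h6] at h5
    rw [← h5]
    conv_rhs => rw [eq_C_of_isEmpty (f i)]
    rw [aeval_C]
    simp

end Pool.Agent.helper82.PW
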