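import Mathlib
import Pool.Agent.helper82.PW.Defs
import Pool.Agent.helper82.PW.Binomial
import Pool.Agent.helper82.PW.Elim
import Pool.Agent.helper82.PW.Ift
import Pool.Agent.helper82.PW.Numeric
import Pool.Agent.helper82.PW.Spec

/-!
# PW-24: the Diophantine step
-/

set_option autoImplicit false

namespace Pool.Agent.helper82.PW

open Complex MvPolynomial Topology Filter Pool.Agent.helper82.Sch

variable {r n : ℕ}

/-- an equation at a rational point gives a polynomial with integer coefficients -/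
theorem dio_spec (e : EQ r n) (B : ℕ) : ∃ δ C : ℕ, ∀ (q : ℕ) (p : Fin r → ℤ), 1 ≤ q →
    (∀ i, |p i| ≤ (B * q : ℤ)) → ∀ w : Fin n → ℂ, FE (rat q p) w e = 0 →
      ∃ (f : MvPolynomial (Fin n) ℤ) (c : ℂ), c ≠ 0 ∧ f.totalDegree ≤ C * q ^ δ ∧
        (∀ m, |f.coeff m| ≤ ((C * q ^ δ : ℕ) : ℤ)) ∧
        (aeval (fun i => exp (w i)) f : ℂ) = 0 ∧
        ∀ i, exp (w i) * (aeval (fun i => exp (w i)) (pderiv i f) : ℂ) =
          c * row (rat q p) w e i := by
  rcases e with P | M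
  · obtain ⟨δ, C, h⟩ := spec_poly (n := n) P B
    refine ⟨δ, C, fun q p hq hp w hw => ?_⟩
    obtain ⟨f, hf1, hf2, hf3, hf4⟩ := h q p hq hp
    have hq0 : (q : ℂ) ^ δ ≠ 0 := pow_ne_zero _ (Nat.cast_ne_zero.2 (by omega))
    refine ⟨f, (q : ℂ) ^ δ, hq0, ?_, hf2, ?_, fun i => ?_⟩
    · exact hf1.trans (Nat.le_mul_of_pos_right _ (pow_pos (by omega) _))
    · rw [hf3]
      have : (aeval (pt (rat q p) w) P : ℂ) = 0 := hw
      rw [pt] at this
      rw [this, mul_zero]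
    · rw [hf4]
      simp only [row, pt]
      ring
  · obtain ⟨δ, C, h⟩ := spec_lin M B
    refine ⟨δ, (n + 1) * C + 1, fun q p hq hp w hw => ?_⟩
    obtain ⟨m, hm1, hm2⟩ := h q p hq hp
    obtain ⟨f, m', hf1, hf2, hf3, hf4, hf5⟩ := binomial m (C * q ^ δ) hm1
    have hq0 : (q : ℂ) ^ δ ≠ 0 := pow_ne_zero _ (Nat.cast_ne_zero.2 (by omega))
    have hqp : 1 ≤ q ^ δ := Nat.one_le_pow _ _ (by omega)
    have hs : ∑ i, (m i : ℂ) * w i = 0 := by
      have h1 : ∑ i, (m i : ℂ) * w i = (q : ℂ) ^ δ * ∑ i, aeval (rat q p) (M i) * w i := by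
        rw [Finset.mul_sum]
        exact Finset.sum_congr rfl fun i _ => by rw [hm2]; ring
      have h2 : ∑ i, aeval (rat q p) (M i) * w i = 0 := hw
      rw [h1, h2, mul_zero]
    refine ⟨f, exp (∑ i, (m' i : ℂ) * w i) * (q : ℂ) ^ δ, mul_ne_zero (exp_ne_zero _) hq0,
      ?_, fun k => ?_, ?_, fun i => ?_⟩
    · refine hf1.trans ?_
      calc n * (C * q ^ δ) = n * C * q ^ δ := by ring
        _ ≤ ((n + 1) * C + 1) * q ^ δ := Nat.mul_le_mul_right _ (by nlinarith)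
    · refine (hf2 k).trans ?_
      have : 1 ≤ ((n + 1) * C + 1) * q ^ δ := Nat.one_le_iff_ne_zero.2 (by positivity)
      exact_mod_cast this
    · rw [hf4, hs, exp_zero, sub_self, mul_zero]
    · rw [hf5 w (by rw [hs, exp_zero]) i, hm2]
      simp only [row]
      ring

/-- the approximations are close to `s` and bounded -/
theorem dio_close (s : Fin r → ℝ) (B : ℕ) (hB : ∀ i, |s i| + 1 ≤ B) {m q : ℕ}
    {p : Fin r → ℤ} (hq : 2 ≤ q) (h : IsApp s m q p) :
    ‖rat q p - cs s‖ ≤ Real.exp (-((q : ℝ) ^ m)) ∧ ∀ i, |p i| ≤ (B * q : ℤ) := by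
  constructor
  · rw [pi_norm_le_iff_of_nonneg (Real.exp_nonneg _)]
    intro i
    have h1 := (h.2.1 i).le
    have h2 : (rat q p - cs s) i = -(((s i - (p i : ℝ) / (q : ℝ) : ℝ)) : ℂ) := by
      simp only [Pi.sub_apply, rat, cs]
      push_cast
      ring
    rw [h2, norm_neg, Complex.norm_real, Real.norm_eq_abs]
    exact h1
  · intro i
    have h1 := (h.2.1 i).le
    have hq0 : (0 : ℝ) < q := by
      have : 0 < q := by omega
      exact_mod_cast this
    have h2 : Real.exp (-((q : ℝ) ^ m)) ≤ 1 := Real.exp_le_one_iff.2 (by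
      have : (0 : ℝ) ≤ (q : ℝ) ^ m := by positivity
      linarith)
    have h3 : |(p i : ℝ) / (q : ℝ)| ≤ B := by
      have h4 : (p i : ℝ) / (q : ℝ) = s i - (s i - (p i : ℝ) / (q : ℝ)) := by ring
      rw [h4]
      refine (abs_sub _ _).trans ?_
      linarith [hB i]
    rw [abs_div, abs_of_pos hq0, div_le_iff₀ hq0] at h3
    exact_mod_cast h3

/-- comparison of the exponents -/
theorem dio_exponents (K : ℝ) (δ m₁ : ℕ) : ∃ m₀ : ℕ, ∀ m ≥ m₀, ∀ q : ℕ, 2 ≤ q →
    K * (q : ℝ) ^ δ + (q : ℝ) ^ m₁ < (q : ℝ) ^ m := by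
  obtain ⟨κ, hκ⟩ := pow_unbounded_of_one_lt (|K| + 1) (one_lt_two : (1 : ℝ) < 2)
  refine ⟨κ + (δ + m₁), fun m hm q hq => ?_⟩
  have hq1 : (1 : ℝ) ≤ q := by
    have : 1 ≤ q := by omega
    exact_mod_cast this
  have hq2 : (2 : ℝ) ≤ q := by exact_mod_cast hq
  have h1 : (q : ℝ) ^ δ ≤ (q : ℝ) ^ (δ + m₁) := pow_le_pow_right₀ hq1 (by omega)
  have h2 : (q : ℝ) ^ m₁ ≤ (q : ℝ) ^ (δ + m₁) := pow_le_pow_right₀ hq1 (by omega)
  have h3 : (0 : ℝ) < (q : ℝ) ^ (δ + m₁) := by positivity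
  have h4 : (0 : ℝ) ≤ (q : ℝ) ^ δ := by positivity
  calc K * (q : ℝ) ^ δ + (q : ℝ) ^ m₁ ≤ |K| * (q : ℝ) ^ (δ + m₁) + 1 * (q : ℝ) ^ (δ + m₁) := by
        have h5 : K * (q : ℝ) ^ δ ≤ |K| * (q : ℝ) ^ δ :=
          mul_le_mul_of_nonneg_right (le_abs_self K) h4
        have h6 : |K| * (q : ℝ) ^ δ ≤ |K| * (q : ℝ) ^ (δ + m₁) :=
          mul_le_mul_of_nonneg_left h1 (abs_nonneg K)
        linarith
    _ = (|K| + 1) * (q : ℝ) ^ (δ + m₁) := by ring
    _ < 2 ^ κ * (q : ℝ) ^ (δ + m₁) := mul_lt_mul_of_pos_right hκ h3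
    _ ≤ (q : ℝ) ^ κ * (q : ℝ) ^ (δ + m₁) :=
        mul_le_mul_of_nonneg_right (pow_le_pow_left₀ (by norm_num) hq2 κ) h3.le
    _ = (q : ℝ) ^ (κ + (δ + m₁)) := by rw [pow_add (q : ℝ) κ]
    _ ≤ (q : ℝ) ^ m := pow_le_pow_right₀ hq1 hm

theorem dio_eq_zero {x : ℂ} (hx : ‖x‖ < 1) (h : exp x = 1) : x = 0 := by
  have h1 := norm_exp_sub_one_sub_id_le hx.le
  rw [h, sub_self, zero_sub, norm_neg] at h1
  by_contra h0
  have h2 : 0 < ‖x‖ := norm_pos_iff.2 h0
  nlinarith

/-- PW-24 -/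
theorem dio (s : Fin r → ℝ) (z : Fin n → ℂ) (τ : Fin n → EQ r n)
    (hdet : (Matrix.of fun k i => row (cs s) z (τ k) i).det ≠ 0)
    (Z : (Fin r → ℂ) → Fin n → ℂ) (hZ : AnalyticAt ℂ Z (cs s)) (hZs : Z (cs s) = z)
    (hτ : ∀ᶠ t in 𝓝 (cs s), ∀ k, FE t (Z t) (τ k) = 0)
    (M : Fin n → MvPolynomial (Fin r) ℤ) (hM : FE (cs s) z (Sum.inr M) = 0) :
    ∃ m₀ : ℕ, ∀ m ≥ m₀, ∀ q : ℕ, 2 ≤ q → ∀ p : Fin r → ℤ, IsApp s m q p →
      FE (rat q p) (Z (rat q p)) (Sum.inr M) = 0 := by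
  classical
  -- bound for `s`
  obtain ⟨B, hB⟩ : ∃ B : ℕ, ∀ i, |s i| + 1 ≤ B := by
    obtain ⟨B, hB⟩ := exists_nat_ge (∑ i, (|s i| + 1))
    refine ⟨B, fun i => le_trans ?_ hB⟩
    exact Finset.single_le_sum (f := fun i => |s i| + 1) (fun j _ => by positivity)
      (Finset.mem_univ i)
  -- the polynomials
  choose δ C hδ using fun k => dio_spec (τ k) B
  obtain ⟨δM, CM, hδM⟩ := spec_lin M B
  -- uniform bounds
  let Δ : ℕ := ∑ k, δ k + δM
  let Γ : ℕ := ∑ k, C k + (n + 1) * CM + 1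
  have hle : ∀ k (q : ℕ), 1 ≤ q → C k * q ^ δ k ≤ Γ * q ^ Δ := by
    intro k q hq
    refine Nat.mul_le_mul ?_ (Nat.pow_le_pow_right hq ?_)
    · have := Finset.single_le_sum (f := C) (fun _ _ => Nat.zero_le _) (Finset.mem_univ k)
      simp only [Γ]
      omega
    · have := Finset.single_le_sum (f := δ) (fun _ _ => Nat.zero_le _) (Finset.mem_univ k)
      simp only [Δ]
      omega
  have hleM : ∀ (q : ℕ), 1 ≤ q → n * (CM * q ^ δM) ≤ Γ * q ^ Δ := by
    intro q hq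
    calc n * (CM * q ^ δM) = n * CM * q ^ δM := by ring
      _ ≤ Γ * q ^ Δ := by
        refine Nat.mul_le_mul ?_ (Nat.pow_le_pow_right hq ?_)
        · simp only [Γ]
          nlinarith [Nat.zero_le (∑ k, C k)]
        · simp only [Δ]
          omega
  obtain ⟨m₁, hm₁⟩ := numeric n Γ Δ
  -- the function `h`
  let h : (Fin r → ℂ) → ℂ := fun t => FE t (Z t) (Sum.inr M)
  have hZi : ∀ i, AnalyticAt ℂ (fun t => Z t i) (cs s) := fun i => analyticAt_pi_iff.1 hZ i
  have hdiff : DifferentiableAt ℂ h (cs s) := by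
    have h1 : AnalyticAt ℂ h (cs s) := by
      have h2 : h = fun t => ∑ i, (aeval t (M i) : ℂ) * Z t i := rfl
      rw [h2]
      refine Finset.analyticAt_fun_sum _ fun i _ => AnalyticAt.mul ?_ (hZi i)
      exact AnalyticAt.aeval_mvPolynomial
        (fun j => ((ContinuousLinearMap.proj (R := ℂ) j : (Fin r → ℂ) →L[ℂ] ℂ).analyticAt _)) (M i)
    exact h1.differentiableAt
  have hs0 : h (cs s) = 0 := by
    simp only [h]
    rw [hZs]
    exact hM
  obtain ⟨C1, hC1⟩ := hdiff.isBigO_sub.bound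
  -- eventual properties
  have hcont : ContinuousAt (fun t => (Matrix.of fun k i => row t (Z t) (τ k) i).det) (cs s) := by
    have h1 : ContinuousAt (fun t => (Matrix.of fun k i => row t (Z t) (τ k) i)) (cs s) := by
      refine continuousAt_pi.2 fun k => continuousAt_pi.2 fun i => ?_
      have h2 := (continuous_row (τ k) i).continuousAt (x := (cs s, Z (cs s)))
      exact ContinuousAt.comp (f := fun t => (t, Z t)) h2
        (continuousAt_id.prodMk hZ.continuousAt)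
    exact (Continuous.matrix_det continuous_id).continuousAt.comp h1
  have hdet' : ∀ᶠ t in 𝓝 (cs s), (Matrix.of fun k i => row t (Z t) (τ k) i).det ≠ 0 := by
    refine hcont.eventually_ne ?_
    rw [hZs]
    exact hdet
  have hW : ∀ᶠ t in 𝓝 (cs s), ‖Z t‖ < ‖z‖ + 1 := by
    have h1 : ContinuousAt (fun t => ‖Z t‖) (cs s) := hZ.continuousAt.norm
    refine h1.eventually_lt_const ?_
    show ‖Z (cs s)‖ < ‖z‖ + 1
    rw [hZs]
    linarith
  have hall := (hτ.and hdet').and (hW.and hC1)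
  rw [Metric.eventually_nhds_iff] at hall
  obtain ⟨ε, hε, hall⟩ := hall
  -- the constants
  obtain ⟨mε, hmε⟩ := exists_nat_gt (-Real.log ε)
  let W : ℝ := ‖z‖ + 1
  let C1' : ℝ := |C1| + 1
  let K : ℝ := n * CM * W + 2 * C1'
  obtain ⟨m₂, hm₂⟩ := dio_exponents K δM m₁
  have hWpos : 0 < W := by
    have := norm_nonneg z
    simp only [W]
    linarith
  have hC1pos : 0 < C1' := by
    have := abs_nonneg C1
    simp only [C1']
    linarith
  refine ⟨mε + m₂, fun m hm q hq p happ => ?_⟩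
  obtain ⟨hnorm, hp⟩ := dio_close s B hB hq happ
  set t := rat q p with ht
  have hq1 : 1 ≤ q := by omega
  have hqR : (2 : ℝ) ≤ q := by exact_mod_cast hq
  have hqR1 : (1 : ℝ) ≤ q := by linarith
  have hexpm := hm₂ m (by omega) q hq
  have hclose : ‖t - cs s‖ < ε := by
    refine lt_of_le_of_lt hnorm ?_
    have h1 : (m : ℝ) < (q : ℝ) ^ m := by
      have h2 : (m : ℝ) < 2 ^ m := by exact_mod_cast Nat.lt_two_pow_self
      exact h2.trans_le (pow_le_pow_left₀ (by norm_num) hqR m)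
    have h3 : (mε : ℝ) ≤ m := by exact_mod_cast (show mε ≤ m by omega)
    calc Real.exp (-((q : ℝ) ^ m)) < Real.exp (Real.log ε) := Real.exp_lt_exp.2 (by linarith)
      _ = ε := Real.exp_log hε
  obtain ⟨⟨hτt, hdett⟩, hWt, hC1t⟩ := hall (y := t) (by rw [dist_eq_norm]; exact hclose)
  rw [hs0, sub_zero] at hC1t
  set w := Z t with hw
  -- bound for `h t`
  have hht : ‖h t‖ ≤ C1' * Real.exp (-((q : ℝ) ^ m)) := by
    refine hC1t.trans ?_
    refine mul_le_mul ?_ hnorm (norm_nonneg _) hC1pos.le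
    simp only [C1']
    have := le_abs_self C1
    linarith
  -- the polynomials at `t`
  choose f c hc hfd hfc hf0 hfj using fun k => hδ k q p hq1 hp w (hτt k)
  obtain ⟨μ, hμ1, hμ2⟩ := hδM q p hq1 hp
  obtain ⟨g, m', hg1, hg2, hg3, hg4, -⟩ := binomial μ (CM * q ^ δM) hμ1
  have hμw : ∑ i, (μ i : ℂ) * w i = (q : ℂ) ^ δM * h t := by
    have h1 : h t = ∑ i, (aeval t (M i) : ℂ) * w i := rfl
    rw [h1, Finset.mul_sum]
    exact Finset.sum_congr rfl fun i _ => by rw [hμ2]; ring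
  have hqc : ((q : ℂ) ^ δM) ≠ 0 := pow_ne_zero _ (Nat.cast_ne_zero.2 (by omega))
  have hqn : ‖((q : ℂ) ^ δM)‖ = (q : ℝ) ^ δM := by rw [norm_pow, Complex.norm_natCast]
  have hqd1 : (1 : ℝ) ≤ (q : ℝ) ^ δM := one_le_pow₀ hqR1
  -- smallness of `μ w`
  have hsm : ‖∑ i, (μ i : ℂ) * w i‖ ≤
      (q : ℝ) ^ δM * (C1' * Real.exp (-((q : ℝ) ^ m))) := by
    rw [hμw, norm_mul, hqn]
    exact mul_le_mul_of_nonneg_left hht (by linarith)
  have hqm1 : (0 : ℝ) ≤ (q : ℝ) ^ m₁ := by positivity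
  have hKle : 2 * C1' * (q : ℝ) ^ δM ≤ K * (q : ℝ) ^ δM := by
    refine mul_le_mul_of_nonneg_right ?_ (by linarith)
    simp only [K]
    have : (0 : ℝ) ≤ n * CM * W := by positivity
    linarith
  have hsm1 : ‖∑ i, (μ i : ℂ) * w i‖ < 1 := by
    refine lt_of_le_of_lt hsm ?_
    have h1 : (q : ℝ) ^ δM * C1' < Real.exp ((q : ℝ) ^ m) := by
      have h2 := Real.add_one_le_exp ((q : ℝ) ^ m)
      have h3 : 0 < C1' * (q : ℝ) ^ δM := by positivity
      linarith
    calc (q : ℝ) ^ δM * (C1' * Real.exp (-((q : ℝ) ^ m)))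
        = (q : ℝ) ^ δM * C1' * Real.exp (-((q : ℝ) ^ m)) := by ring
      _ < Real.exp ((q : ℝ) ^ m) * Real.exp (-((q : ℝ) ^ m)) :=
          mul_lt_mul_of_pos_right h1 (Real.exp_pos _)
      _ = 1 := by rw [← Real.exp_add]; simp
  by_cases hθ : (aeval (fun i => exp (w i)) g : ℂ) = 0
  · -- the value is zero
    rw [hg4] at hθ
    have h1 : exp (∑ i, (μ i : ℂ) * w i) = 1 := by
      rcases mul_eq_zero.1 hθ with h | h
      · exact absurd h (exp_ne_zero _)
      · exact sub_eq_zero.1 h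
    have h2 := dio_eq_zero hsm1 h1
    rw [hμw] at h2
    exact (mul_eq_zero.1 h2).resolve_left hqc
  · -- contradiction with the elimination bound
    exfalso
    have hj : (Matrix.of fun i j =>
        (aeval (fun i => exp (w i)) (pderiv j (f i)) : ℂ)).det ≠ 0 := by
      intro h0
      have h1 : (Matrix.of fun i j => exp (w j) *
          (Matrix.of fun i j => (aeval (fun i => exp (w i)) (pderiv j (f i)) : ℂ)) i j).det = 0 := by
        rw [Matrix.det_mul_row, h0, mul_zero]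
      have h2 : (Matrix.of fun i j => exp (w j) *
          (Matrix.of fun i j => (aeval (fun i => exp (w i)) (pderiv j (f i)) : ℂ)) i j) =
          Matrix.of fun i j => c i * (Matrix.of fun k i => row t w (τ k) i) i j := by
        ext i j
        simp only [Matrix.of_apply]
        exact hfj i j
      rw [h2, Matrix.det_mul_column] at h1
      rcases mul_eq_zero.1 h1 with h | h
      · rw [Finset.prod_eq_zero_iff] at h
        obtain ⟨k, _, hk⟩ := h
        exact hc k hk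
      · exact hdett h
    have hΓ : 1 ≤ Γ * q ^ Δ := by
      refine Nat.one_le_iff_ne_zero.2 (Nat.mul_ne_zero ?_ (by positivity))
      simp only [Γ]
      omega
    have hb := elim_bound (n := n) hΓ hΓ f g (fun k => (hfd k).trans (hle k q hq1))
      (hg1.trans (hleM q hq1))
      (fun k e => (hfc k e).trans (by exact_mod_cast hle k q hq1))
      (fun e => (hg2 e).trans (by exact_mod_cast hΓ)) _ hf0 hj hθ
    have hnum := hm₁ q hq (Γ * q ^ Δ) (Γ * q ^ Δ) le_rfl le_rfl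
    have hpos : 0 < (NN n (Γ * q ^ Δ) : ℝ) * (UU n (Γ * q ^ Δ) (Γ * q ^ Δ) : ℝ) := by
      have h1 : 0 < Γ * q ^ Δ := hΓ
      have h2 : 0 < NN n (Γ * q ^ Δ) := by
        unfold NN
        positivity
      have h3 : 0 < UU n (Γ * q ^ Δ) (Γ * q ^ Δ) := by
        unfold UU
        positivity
      have h2' : (0 : ℝ) < (NN n (Γ * q ^ Δ) : ℝ) := by exact_mod_cast h2
      have h3' : (0 : ℝ) < (UU n (Γ * q ^ Δ) (Γ * q ^ Δ) : ℝ) := by exact_mod_cast h3
      exact mul_pos h2' h3'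
    have hlow : Real.exp (-((q : ℝ) ^ m₁)) ≤ ‖(aeval (fun i => exp (w i)) g : ℂ)‖ := by
      refine le_trans ?_ hb
      rw [Real.exp_neg, ← one_div]
      exact one_div_le_one_div_of_le hpos hnum
    have hup1 : ‖exp (∑ i, (m' i : ℂ) * w i)‖ ≤ Real.exp (n * CM * W * (q : ℝ) ^ δM) := by
      rw [Complex.norm_exp]
      refine Real.exp_le_exp.2 ?_
      refine (Complex.re_le_norm _).trans ?_
      refine (norm_sum_le _ _).trans ?_
      have h1 : ∀ i ∈ (Finset.univ : Finset (Fin n)), ‖(m' i : ℂ) * w i‖ ≤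
          (CM : ℝ) * (q : ℝ) ^ δM * W := by
        intro i _
        rw [norm_mul, Complex.norm_natCast]
        refine mul_le_mul ?_ ((norm_le_pi_norm w i).trans hWt.le) (norm_nonneg _) (by positivity)
        exact_mod_cast hg3 i
      refine (Finset.sum_le_sum h1).trans (le_of_eq ?_)
      rw [Finset.sum_const, Finset.card_univ, Fintype.card_fin, nsmul_eq_mul]
      ring
    have hup2 : ‖exp (∑ i, (μ i : ℂ) * w i) - 1‖ ≤
        2 * ((q : ℝ) ^ δM * (C1' * Real.exp (-((q : ℝ) ^ m)))) :=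
      (norm_exp_sub_one_le hsm1.le).trans (mul_le_mul_of_nonneg_left hsm (by norm_num))
    rw [hg4, norm_mul] at hlow
    have hup := hlow.trans (mul_le_mul hup1 hup2 (norm_nonneg _) (Real.exp_nonneg _))
    have h5 : Real.exp (n * CM * W * (q : ℝ) ^ δM) *
        (2 * ((q : ℝ) ^ δM * (C1' * Real.exp (-((q : ℝ) ^ m))))) ≤
        Real.exp (K * (q : ℝ) ^ δM - (q : ℝ) ^ m) := by
      have h6 : 2 * C1' * (q : ℝ) ^ δM ≤ Real.exp (2 * C1' * (q : ℝ) ^ δM) := by
        have := Real.add_one_le_exp (2 * C1' * (q : ℝ) ^ δM)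
        linarith
      calc Real.exp (n * CM * W * (q : ℝ) ^ δM) *
          (2 * ((q : ℝ) ^ δM * (C1' * Real.exp (-((q : ℝ) ^ m)))))
          = Real.exp (n * CM * W * (q : ℝ) ^ δM) * (2 * C1' * (q : ℝ) ^ δM) *
            Real.exp (-((q : ℝ) ^ m)) := by ring
        _ ≤ Real.exp (n * CM * W * (q : ℝ) ^ δM) * Real.exp (2 * C1' * (q : ℝ) ^ δM) *
            Real.exp (-((q : ℝ) ^ m)) :=
            mul_le_mul_of_nonneg_right (mul_le_mul_of_nonneg_left h6 (Real.exp_nonneg _))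
              (Real.exp_nonneg _)
        _ = Real.exp (K * (q : ℝ) ^ δM - (q : ℝ) ^ m) := by
            rw [← Real.exp_add, ← Real.exp_add]
            congr 1
            simp only [K]
            ring
    have h7 := Real.exp_le_exp.1 (hup.trans h5)
    linarith

end Pool.Agent.helper82.PW
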