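import Mathlib
import Pool.Agent.helper82.PW.Defs

/-!
# PW-7: the dimension of `SS1`
-/

set_option autoImplicit false

namespace Pool.Agent.helper82.PW

open Complex MvPolynomial Pool.Agent.helper82.Sch

variable {r n : ℕ}

/-- the logarithmic derivative -/
noncomputable def ss1_lam (D : Der) : ℂ →+ ℂ where
  toFun y := D (exp y) / exp y
  map_zero' := by
    have : D (1 : ℂ) = 0 := D.map_one_eq_zero
    simp [this]
  map_add' a b := by
    have ha := exp_ne_zero a
    have hb := exp_ne_zero b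
    rw [exp_add, Derivation.leibniz, smul_eq_mul, smul_eq_mul]
    field_simp
    ring

theorem ss1_lam_apply (D : Der) (y : ℂ) : ss1_lam D y = D (exp y) / exp y := rfl

theorem ss1_lam_int (D : Der) (m : Fin n → ℤ) (y : Fin n → ℂ) :
    ss1_lam D (∑ i, (m i : ℂ) * y i) = ∑ i, (m i : ℂ) * ss1_lam D (y i) := by
  rw [map_sum]
  refine Finset.sum_congr rfl fun i _ => ?_
  rw [← zsmul_eq_mul, map_zsmul, zsmul_eq_mul]

/-- the linear map whose kernel cuts out `SS1` -/
noncomputable def ss1_map {ν : ℕ} (z : Fin n → ℂ) (N : Fin ν → Fin n → ℤ) :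
    (Fin r ⊕ Fin n → ℂ) →ₗ[ℂ] (Fin ν → ℂ) where
  toFun v l := exp (cmb N z l) * ∑ i, (N l i : ℂ) * (v (Sum.inr i) / exp (z i))
  map_add' v w := by
    funext l
    simp only [Pi.add_apply, add_div, mul_add, Finset.sum_add_distrib]
  map_smul' c v := by
    funext l
    have h2 : ∀ i, (N l i : ℂ) * ((c • v) (Sum.inr i) / exp (z i)) =
        c * ((N l i : ℂ) * (v (Sum.inr i) / exp (z i))) := by
      intro i
      simp only [Pi.smul_apply, smul_eq_mul]
      ring
    rw [Finset.sum_congr rfl fun i _ => h2 i, ← Finset.mul_sum, Pi.smul_apply, smul_eq_mul,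
      RingHom.id_apply]
    ring

theorem ss1_map_apply {ν : ℕ} (z : Fin n → ℂ) (N : Fin ν → Fin n → ℤ)
    (v : Fin r ⊕ Fin n → ℂ) (l : Fin ν) :
    ss1_map z N v l = exp (cmb N z l) * ∑ i, (N l i : ℂ) * (v (Sum.inr i) / exp (z i)) := rfl

theorem ss1_map_ev {ν : ℕ} (t : Fin r → ℂ) (z : Fin n → ℂ) (N : Fin ν → Fin n → ℤ) (D : Der) :
    ss1_map z N (evD (pt t z) D) = evD (fun l => exp (cmb N z l)) D := by
  funext l
  rw [ss1_map_apply, evD_apply]
  have h1 : ∀ i, evD (pt t z) D (Sum.inr i) / exp (z i) = ss1_lam D (z i) := fun i => rfl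
  simp only [h1]
  rw [← ss1_lam_int, ss1_lam_apply]
  show exp (cmb N z l) * (D (exp (cmb N z l)) / exp (cmb N z l)) = D (exp (cmb N z l))
  have := exp_ne_zero (cmb N z l)
  field_simp

/-- PW-7 -/
theorem SS1_le (S0 : Set ℂ) (t : Fin r → ℂ) (z : Fin n → ℂ) {ν : ℕ} (N : Fin ν → Fin n → ℤ) :
    Module.finrank ℂ (SS1 S0 t z N) + rk S0 (fun l => exp (cmb N z l)) ≤
      Module.finrank ℂ (VV S0 (pt t z)) := by
  set W := VV S0 (pt t z) with hW
  set L : W →ₗ[ℂ] (Fin ν → ℂ) := (ss1_map (r := r) z N).domRestrict W with hL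
  have h1 := LinearMap.finrank_range_add_finrank_ker L
  have h2 : rk S0 (fun l => exp (cmb N z l)) ≤ Module.finrank ℂ (LinearMap.range L) := by
    apply Submodule.finrank_mono
    rintro v ⟨D, hD, rfl⟩
    exact ⟨⟨evD (pt t z) D, ⟨D, hD, rfl⟩⟩, ss1_map_ev t z N D⟩
  have h3 : Module.finrank ℂ (SS1 S0 t z N) ≤ Module.finrank ℂ (LinearMap.ker L) := by
    have e : SS1 S0 t z N ≤ Submodule.map W.subtype (LinearMap.ker L) := by
      intro v hv
      have hv' : v ∈ W ∧ ∀ l, ∑ i, (N l i : ℂ) * (v (Sum.inr i) / exp (z i)) = 0 := hv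
      refine ⟨⟨v, hv'.1⟩, ?_, rfl⟩
      show ss1_map z N v = 0
      funext l
      rw [ss1_map_apply, hv'.2 l, mul_zero]
      rfl
    have h4 := Submodule.finrank_mono e
    rw [Submodule.finrank_map_subtype_eq] at h4
    exact h4
  omega

end Pool.Agent.helper82.PW
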