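import Mathlib
import Pool.Agent.helper82.PW.Defs

/-!
# PW-8: linear relations over `ℚ(s)` and the dimension of `SS2`
-/

set_option autoImplicit false

namespace Pool.Agent.helper82.PW

open Complex MvPolynomial Pool.Agent.helper82.Sch

variable {r n : ℕ}

theorem ss2_clear (P : MvPolynomial (Fin r) ℚ) (x : Fin r → ℂ) :
    ∃ (b : ℤ) (P' : MvPolynomial (Fin r) ℤ), b ≠ 0 ∧
      (aeval x P' : ℂ) = (b : ℂ) * aeval x P := by
  induction P using MvPolynomial.induction_on with
  | C a =>
    refine ⟨(a.den : ℤ), C a.num, by exact_mod_cast a.den_nz, ?_⟩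
    rw [aeval_C, aeval_C]
    have h1 : (algebraMap ℤ ℂ) a.num = (a.num : ℂ) := by simp
    have h2 : (algebraMap ℚ ℂ) a = (a : ℂ) := by simp
    rw [h1, h2]
    have h3 : (a.den : ℂ) ≠ 0 := by exact_mod_cast a.den_nz
    have h4 : ((a.den : ℤ) : ℂ) = (a.den : ℂ) := by simp
    rw [h4]
    rw [Rat.cast_def]
    field_simp
  | add p q hp hq =>
    obtain ⟨b, P', hb, h1⟩ := hp
    obtain ⟨c, Q', hc, h2⟩ := hq
    refine ⟨b * c, C c * P' + C b * Q', mul_ne_zero hb hc, ?_⟩
    rw [map_add, map_mul, map_mul, map_add, aeval_C, aeval_C, h1, h2]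
    simp only [algebraMap_int_eq, eq_intCast, Int.cast_mul]
    ring
  | mul_X p i hp =>
    obtain ⟨b, P', hb, h1⟩ := hp
    refine ⟨b, P' * X i, hb, ?_⟩
    rw [map_mul, map_mul, h1, aeval_X, aeval_X]
    ring

theorem ss2_elem (s : Fin r → ℝ) (c : KK s) :
    ∃ A B : MvPolynomial (Fin r) ℤ, (aeval (cs s) B : ℂ) ≠ 0 ∧
      (aeval (cs s) A : ℂ) = (aeval (cs s) B : ℂ) * (c : ℂ) := by
  have hc := c.2
  unfold KK at hc
  rw [IntermediateField.mem_adjoin_range_iff] at hc
  obtain ⟨P, Q, h⟩ := hc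
  obtain ⟨b, P', hb, h1⟩ := ss2_clear P (cs s)
  obtain ⟨b2, Q', hb2, h2⟩ := ss2_clear Q (cs s)
  by_cases hQ : (aeval (cs s) Q : ℂ) = 0
  · refine ⟨0, 1, by simp, ?_⟩
    rw [h, hQ]
    simp
  · have hbC : (b : ℂ) ≠ 0 := by exact_mod_cast hb
    have hb2C : (b2 : ℂ) ≠ 0 := by exact_mod_cast hb2
    refine ⟨C b2 * P', C b * Q', ?_, ?_⟩
    · rw [map_mul, aeval_C, h2]
      simp only [algebraMap_int_eq, eq_intCast]
      exact mul_ne_zero hbC (mul_ne_zero hb2C hQ)
    · rw [map_mul, map_mul, aeval_C, aeval_C, h1, h2, h]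
      simp only [algebraMap_int_eq, eq_intCast]
      field_simp

/-- PW-8a -/
theorem clear_rel (s : Fin r → ℝ) (c : Fin n → KK s) :
    ∃ (a : ℂ) (M : Fin n → MvPolynomial (Fin r) ℤ), a ≠ 0 ∧
      ∀ i, (aeval (cs s) (M i) : ℂ) = a * c i := by
  choose A B hB hA using fun i => ss2_elem s (c i)
  refine ⟨∏ j, (aeval (cs s) (B j) : ℂ), fun i => A i * ∏ j ∈ Finset.univ.erase i, B j,
    Finset.prod_ne_zero_iff.mpr fun j _ => hB j, fun i => ?_⟩
  rw [map_mul, hA i, map_prod, ← Finset.mul_prod_erase Finset.univ _ (Finset.mem_univ i)]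
  ring

/-- PW-8b -/
theorem exists_rel (s : Fin r → ℝ) (z : Fin n → ℂ) (h : dimK (KK s) z < n) :
    ∃ M : Fin n → MvPolynomial (Fin r) ℤ, M ≠ 0 ∧ FE (cs s) z (Sum.inr M) = 0 := by
  have hli : ¬ LinearIndependent (KK s) z := by
    intro hli
    have h1 := finrank_span_eq_card hli
    unfold dimK at h
    rw [h1, Fintype.card_fin] at h
    exact lt_irrefl _ h
  rw [Fintype.not_linearIndependent_iff] at hli
  obtain ⟨c, hc, i, hi⟩ := hli
  obtain ⟨a, M, ha, hM⟩ := clear_rel s c
  refine ⟨M, ?_, ?_⟩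
  · intro h0
    have h1 := hM i
    rw [h0] at h1
    simp only [Pi.zero_apply, map_zero] at h1
    have h2 : (c i : ℂ) ≠ 0 := by
      intro h3
      apply hi
      exact_mod_cast h3
    exact (mul_ne_zero ha h2) h1.symm
  · show ∑ i, (aeval (cs s) (M i) : ℂ) * z i = 0
    have h1 : ∑ i, (aeval (cs s) (M i) : ℂ) * z i = a * ∑ i, c i • z i := by
      rw [Finset.mul_sum]
      refine Finset.sum_congr rfl fun i _ => ?_
      rw [hM i, IntermediateField.smul_def, smul_eq_mul]
      ring
    rw [h1, hc, mul_zero]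

theorem ss2_aux (K : IntermediateField ℚ ℂ) (z : Fin n → ℂ) {ν : ℕ} (N : Fin ν → Fin n → ℤ)
    (S : Submodule ℂ (Fin n → ℂ))
    (hS1 : ∀ w ∈ S, ∀ c : Fin n → K, ∑ i, (c i : ℂ) * z i = 0 → ∑ i, (c i : ℂ) * w i = 0)
    (hS2 : ∀ w ∈ S, ∀ l, ∑ i, (N l i : ℂ) * w i = 0) :
    Module.finrank ℂ S + dimK K (cmb N z) ≤ dimK K z := by
  set f : (Fin n → K) →ₗ[K] ℂ := Fintype.linearCombination K z with hf
  have f_apply : ∀ c, f c = ∑ i, (c i : ℂ) * z i := by
    intro c
    rw [hf, Fintype.linearCombination_apply]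
    rfl
  set NK : Fin ν → Fin n → K := fun l i => ((N l i : ℤ) : K) with hNK
  set R' : Submodule K (Fin n → K) := LinearMap.ker f ⊔ Submodule.span K (Set.range NK) with hR'
  -- the image of R'
  have him : Submodule.map f R' = Submodule.span K (Set.range (cmb N z)) := by
    rw [hR', Submodule.map_sup, Submodule.map_span, ← Set.range_comp]
    have h1 : Submodule.map f (LinearMap.ker f) = ⊥ := by
      rw [eq_bot_iff]
      rintro _ ⟨c, hc, rfl⟩
      exact hc
    have h2 : f ∘ NK = cmb N z := by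
      funext l
      rw [Function.comp_apply, f_apply]
      unfold cmb
      refine Finset.sum_congr rfl fun i _ => ?_
      simp [hNK]
    rw [h1, h2, bot_sup_eq]
  -- dimension of R'
  have hd1 : dimK K (cmb N z) + Module.finrank K (LinearMap.ker f) = Module.finrank K R' := by
    have h1 := LinearMap.finrank_range_add_finrank_ker (f.domRestrict R')
    rw [LinearMap.range_domRestrict, him, LinearMap.ker_domRestrict] at h1
    have h2 := (Submodule.comapSubtypeEquivOfLe (p := LinearMap.ker f) (q := R')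
      le_sup_left).finrank_eq
    rw [h2] at h1
    exact h1
  have hd2 : dimK K z + Module.finrank K (LinearMap.ker f) = n := by
    have h1 := LinearMap.finrank_range_add_finrank_ker f
    rw [hf, Fintype.range_linearCombination, ← hf, Module.finrank_fin_fun] at h1
    exact h1
  have hd3 : Module.finrank K ((Fin n → K) ⧸ R') + Module.finrank K R' = n := by
    have h1 := Submodule.finrank_quotient_add_finrank R'
    rw [Module.finrank_fin_fun] at h1
    exact h1
  -- the injection
  have hker : ∀ w : S, R' ≤ LinearMap.ker (Fintype.linearCombination K (w : Fin n → ℂ)) := by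
    intro w
    rw [hR']
    apply sup_le
    · intro c hc
      rw [LinearMap.mem_ker, f_apply] at hc
      rw [LinearMap.mem_ker, Fintype.linearCombination_apply]
      exact hS1 w w.2 c hc
    · rw [Submodule.span_le]
      rintro _ ⟨l, rfl⟩
      rw [SetLike.mem_coe, LinearMap.mem_ker, Fintype.linearCombination_apply]
      have h1 := hS2 w w.2 l
      rw [← h1]
      refine Finset.sum_congr rfl fun i _ => ?_
      rw [IntermediateField.smul_def, smul_eq_mul]
      simp [hNK]
  let Φ : S →ₗ[ℂ] (((Fin n → K) ⧸ R') →ₗ[K] ℂ) :=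
    { toFun := fun w => R'.liftQ (Fintype.linearCombination K (w : Fin n → ℂ)) (hker w)
      map_add' := by
        intro w w'
        apply Submodule.linearMap_qext
        ext i
        simp
      map_smul' := by
        intro a w
        apply Submodule.linearMap_qext
        ext i
        simp }
  have hinj : Function.Injective Φ := by
    rw [← LinearMap.ker_eq_bot, LinearMap.ker_eq_bot']
    intro w hw
    have h1 : ∀ i, (w : Fin n → ℂ) i = 0 := by
      intro i
      have h2 : Φ w (R'.mkQ (Pi.single i 1)) = 0 := by rw [hw]; rfl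
      have h3 : Φ w (R'.mkQ (Pi.single i 1)) = (w : Fin n → ℂ) i := by
        show R'.liftQ (Fintype.linearCombination K (w : Fin n → ℂ)) (hker w)
          (R'.mkQ (Pi.single i 1)) = _
        rw [Submodule.mkQ_apply, Submodule.liftQ_apply, Fintype.linearCombination_apply_single]
        simp
      rw [← h3, h2]
    apply Subtype.ext
    funext i
    exact h1 i
  have hd4 : Module.finrank ℂ S ≤ Module.finrank K ((Fin n → K) ⧸ R') := by
    have h1 : Module.finrank ℂ (((Fin n → K) ⧸ R') →ₗ[K] ℂ) =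
        Module.finrank K ((Fin n → K) ⧸ R') := Module.finrank_linearMap_self K ℂ _
    rw [← h1]
    exact LinearMap.finrank_le_finrank_of_injective hinj
  omega

/-- PW-8c -/
theorem SS2_le (s : Fin r → ℝ) (z : Fin n → ℂ) {ν : ℕ} (N : Fin ν → Fin n → ℤ) :
    Module.finrank ℂ (SS2 (cs s) z N) + dimK (KK s) (cmb N z) ≤ dimK (KK s) z := by
  apply ss2_aux
  · intro w hw c hc
    obtain ⟨a, M, ha, hM⟩ := clear_rel s c
    have h0 : FE (cs s) z (Sum.inr M) = 0 := by
      show ∑ i, (aeval (cs s) (M i) : ℂ) * z i = 0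
      have h1 : ∑ i, (aeval (cs s) (M i) : ℂ) * z i = a * ∑ i, (c i : ℂ) * z i := by
        rw [Finset.mul_sum]
        refine Finset.sum_congr rfl fun i _ => ?_
        rw [hM i]
        ring
      rw [h1, hc, mul_zero]
    have h2 := hw.1 M h0
    have h3 : ∑ i, (aeval (cs s) (M i) : ℂ) * w i = a * ∑ i, (c i : ℂ) * w i := by
      rw [Finset.mul_sum]
      refine Finset.sum_congr rfl fun i _ => ?_
      rw [hM i]
      ring
    rw [h3] at h2
    exact (mul_eq_zero.mp h2).resolve_left ha
  · intro w hw l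
    exact hw.2 l

end Pool.Agent.helper82.PW
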