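import Mathlib
import Pool.Agent.helper82.PW.Defs

/-!
# PW-9: splitting of integer vectors
-/

set_option autoImplicit false

namespace Pool.Agent.helper82.PW

open Complex MvPolynomial Pool.Agent.helper82.Sch

variable {r n : ℕ}

theorem split (L : AddSubgroup (Fin n → ℤ)) :
    ∃ (ν ρ : ℕ) (N : Fin ν → Fin n → ℤ) (Q : Fin ρ → Fin n → ℤ), ν + ρ = n ∧
      (∀ l, N l ∈ L) ∧ LinearIndependent ℤ N ∧
      ∀ c : Fin ρ → ℤ, ∑ l, c l • Q l ∈ L → c = 0 := by
  set W : Submodule ℤ (Fin n → ℤ) := AddSubgroup.toIntSubmodule L with hW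
  have hmem : ∀ v, v ∈ W ↔ v ∈ L := fun v => Iff.rfl
  obtain ⟨f, hf⟩ := exists_linearIndependent_of_le_finrank (R := ℤ) (M := W)
    (n := Module.finrank ℤ W) le_rfl
  obtain ⟨g, hg⟩ := exists_linearIndependent_of_le_finrank (R := ℤ) (M := (Fin n → ℤ) ⧸ W)
    (n := Module.finrank ℤ ((Fin n → ℤ) ⧸ W)) le_rfl
  choose Q hQ using fun l => Submodule.Quotient.mk_surjective W (g l)
  refine ⟨Module.finrank ℤ W, Module.finrank ℤ ((Fin n → ℤ) ⧸ W), fun l => (f l : Fin n → ℤ), Q,
    ?_, fun l => (f l).2, ?_, ?_⟩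
  · have h := Submodule.finrank_quotient_add_finrank W
    rw [Module.finrank_fin_fun] at h
    omega
  · exact hf.map' W.subtype (Submodule.ker_subtype W)
  · intro c hc
    rw [← hmem, ← Submodule.Quotient.mk_eq_zero] at hc
    have h1 : ∑ l, c l • g l = 0 := by
      rw [← hc]
      simp only [← hQ]
      rw [← Submodule.mkQ_apply, map_sum]
      simp only [map_smul, Submodule.mkQ_apply]
    funext l
    exact Fintype.linearIndependent_iff.1 hg c h1 l

theorem cmb_li {z : Fin n → ℂ} (hz : LinearIndependent ℚ z) {ν : ℕ} {N : Fin ν → Fin n → ℤ}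
    (hN : LinearIndependent ℤ N) : LinearIndependent ℚ (cmb N z) := by
  have h1 : LinearIndependent ℤ (cmb N z) := by
    rw [Fintype.linearIndependent_iff]
    intro c hc l
    have hz' : LinearIndependent ℤ z := by
      exact LinearIndependent.restrict_scalars (R := ℤ) (K := ℚ)
        (by intro a b h; simpa using h) hz
    have h2 : ∑ i, (∑ l, c l * N l i) • z i = 0 := by
      rw [← hc]
      simp only [cmb, zsmul_eq_mul, Finset.mul_sum, Int.cast_sum, Int.cast_mul, Finset.sum_mul]
      rw [Finset.sum_comm]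
      refine Finset.sum_congr rfl fun l _ => Finset.sum_congr rfl fun i _ => by ring
    have h3 := Fintype.linearIndependent_iff.1 hz' _ h2
    have h4 : ∑ l, c l • N l = 0 := by
      funext i
      simp only [Finset.sum_apply, Pi.smul_apply, smul_eq_mul, Pi.zero_apply]
      exact h3 i
    exact Fintype.linearIndependent_iff.1 hN c h4 l
  exact (LinearIndependent.iff_fractionRing ℤ ℚ).1 h1

end Pool.Agent.helper82.PW
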