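import Mathlib
import Pool.Agent.helper82.PW.Defs

/-!
# PW-6: elementary properties of the ranks
-/

set_option autoImplicit false

namespace Pool.Agent.helper82.PW

open Complex MvPolynomial Topology Filter Pool.Agent.helper82.Sch Pool.Agent.helper82.PW

variable {r n : ℕ}

/-- PW-6a -/
theorem rk_mono {S0 S1 : Set ℂ} (h : S0 ⊆ S1) {J : Type} [Fintype J] (u : J → ℂ) :
    rk S1 u ≤ rk S0 u := by
  unfold rk
  apply Submodule.finrank_mono
  intro v hv
  rw [mem_VV] at hv ⊢
  obtain ⟨D, hD, hv⟩ := hv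
  exact ⟨D, fun a ha => hD a (h ha), hv⟩

/-- PW-6b -/
theorem rk_adjoin (S0 : Set ℂ) {J : Type} (u : J → ℂ) :
    rk (IntermediateField.adjoin ℚ S0 : Set ℂ) u = rk S0 u := by
  have h : VV (IntermediateField.adjoin ℚ S0 : Set ℂ) u = VV S0 u := by
    ext v
    rw [mem_VV, mem_VV]
    constructor
    · rintro ⟨D, hD, hv⟩
      exact ⟨D, fun a ha => hD a (IntermediateField.subset_adjoin ℚ S0 ha), hv⟩
    · rintro ⟨D, hD, hv⟩
      refine ⟨D, fun a ha => ?_, hv⟩
      have h1 : IntermediateField.adjoin ℚ S0 ≤ con {D} := by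
        rw [IntermediateField.adjoin_le_iff]
        intro b hb
        show b ∈ con {D}
        rw [mem_con]
        intro E hE
        rw [Set.mem_singleton_iff] at hE
        rw [hE]
        exact hD b hb
      have h2 := h1 ha
      rw [mem_con] at h2
      exact h2 D rfl
  unfold rk
  rw [h]

/-- PW-6c -/
theorem VV_range (t : Fin r → ℂ) (z : Fin n → ℂ) :
    Module.finrank ℂ (VV (Set.range t) (pt t z)) ≤ rk (Set.range t) (fun i => exp (z i)) := by
  unfold rk
  let f : (Fin r ⊕ Fin n → ℂ) →ₗ[ℂ] (Fin n → ℂ) := LinearMap.funLeft ℂ ℂ Sum.inr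
  have hf : ∀ v ∈ VV (Set.range t) (pt t z),
      f v ∈ VV (Set.range t) (fun i => exp (z i)) := by
    intro v hv
    rw [mem_VV] at hv ⊢
    obtain ⟨D, hD, hv⟩ := hv
    exact ⟨D, hD, fun i => hv (Sum.inr i)⟩
  apply LinearMap.finrank_le_finrank_of_injective (f := f.restrict hf)
  rw [injective_iff_map_eq_zero]
  rintro ⟨v, hv⟩ h0
  have h1 : f v = 0 := congrArg Subtype.val h0
  apply Subtype.ext
  show v = 0
  rw [mem_VV] at hv
  obtain ⟨D, hD, hv⟩ := hv
  funext j
  rcases j with j | j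
  · rw [← hv]
    exact hD _ ⟨j, rfl⟩
  · exact congrFun h1 j

/-- PW-6d -/
theorem VV_empty (t : Fin r → ℂ) (z : Fin n → ℂ) :
    Module.finrank ℂ (VV ∅ (pt t z)) ≤ r + rk (Set.range t) (fun i => exp (z i)) := by
  refine le_trans ?_ (Nat.add_le_add_left (VV_range t z) r)
  let g : (Fin r ⊕ Fin n → ℂ) →ₗ[ℂ] (Fin r → ℂ) := LinearMap.funLeft ℂ ℂ Sum.inl
  let g' := g.domRestrict (VV ∅ (pt t z))
  have h1 := g'.finrank_range_add_finrank_ker
  have h2 : Module.finrank ℂ (LinearMap.range g') ≤ r := by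
    refine le_trans (Submodule.finrank_le _) ?_
    rw [Module.finrank_fintype_fun_eq_card, Fintype.card_fin]
  have h3 : Module.finrank ℂ (LinearMap.ker g') ≤
      Module.finrank ℂ (VV (Set.range t) (pt t z)) := by
    let e : LinearMap.ker g' →ₗ[ℂ] (Fin r ⊕ Fin n → ℂ) :=
      (Submodule.subtype _).comp (Submodule.subtype _)
    have he : ∀ v, e v ∈ VV (Set.range t) (pt t z) := by
      rintro ⟨⟨v, hv⟩, hv0⟩
      rw [LinearMap.mem_ker] at hv0
      have hv' := mem_VV.1 hv
      show v ∈ VV (Set.range t) (pt t z)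
      rw [mem_VV]
      obtain ⟨D, _, hD⟩ := hv'
      refine ⟨D, ?_, hD⟩
      rintro a ⟨i, rfl⟩
      have h4 : v (Sum.inl i) = 0 := congrFun hv0 i
      rw [← hD] at h4
      exact h4
    apply LinearMap.finrank_le_finrank_of_injective (f := e.codRestrict _ he)
    rw [injective_iff_map_eq_zero]
    intro v h0
    have h5 : e v = 0 := congrArg Subtype.val h0
    apply Subtype.ext
    apply Subtype.ext
    exact h5
  omega

end Pool.Agent.helper82.PW
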