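import Mathlib
import Pool.Agent.helper82.PW.Defs
import Pool.Agent.helper82.PW.SS1
import Pool.Agent.helper82.PW.SS2
import Pool.Agent.helper82.PW.Split
import Pool.Agent.helper82.PW.VV

/-!
# PW-10: counting dimensions
-/

set_option autoImplicit false

namespace Pool.Agent.helper82.PW

open Complex MvPolynomial Topology Filter Pool.Agent.helper82.Sch

variable {r n : ℕ}

/-- PW-10a -/
theorem count1 (s : Fin r → ℝ) (z : Fin n → ℂ) (hz : LinearIndependent ℚ z) (ih : IH s n)
    {ν : ℕ} (hν : ν < n) (N : Fin ν → Fin n → ℤ) (hN : LinearIndependent ℤ N) :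
    Module.finrank ℂ (SS1 (Set.range (cs s)) (cs s) z N) + Module.finrank ℂ (SS2 (cs s) z N)
      + ν ≤ rk (Set.range (cs s)) (fun i => exp (z i)) + dimK (KK s) z := by
  have h1 := ih ν hν (cmb N z) (cmb_li hz hN)
  have h2 := SS1_le (Set.range (cs s)) (cs s) z N
  have h3 := SS2_le s z N
  have h4 := VV_range (cs s) z
  omega

/-- PW-10b -/
theorem count2 (s : Fin r → ℝ) (z : Fin n → ℂ) (hz : LinearIndependent ℚ z) (ih : IH s n)
    {ν : ℕ} (hν : ν < n) (N : Fin ν → Fin n → ℤ) (hN : LinearIndependent ℤ N) :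
    Module.finrank ℂ (SS1 ∅ (cs s) z N) + Module.finrank ℂ (SS2 (cs s) z N)
      + ν ≤ r + rk (Set.range (cs s)) (fun i => exp (z i)) + dimK (KK s) z := by
  have h1 := ih ν hν (cmb N z) (cmb_li hz hN)
  have h2 := SS1_le ∅ (cs s) z N
  have h3 := SS2_le s z N
  have h4 := VV_empty (cs s) z
  have h5 : rk (Set.range (cs s)) (fun i => exp (cmb N z i)) ≤
      rk ∅ (fun i => exp (cmb N z i)) := rk_mono (Set.empty_subset _) _
  omega

end Pool.Agent.helper82.PW
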