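import Mathlib

/-!
# Orders at `0` of elements of `k(x)`
-/

set_option autoImplicit false
set_option linter.unusedSectionVars false

namespace Pool.Agent.helper82.PW.GAx

open Polynomial

variable {F : Type} [Field F] [CharZero F] {k : Type} [Field k] [Algebra k F]

/-- `s` is regular at `x = 0` with the value `c` -/
def Reg {F : Type} [Field F] (k : Type) [Field k] [Algebra k F] (x s c : F) : Prop :=
  ∃ a b : k[X], b.eval 0 ≠ 0 ∧ s * aeval x b = aeval x a ∧
    algebraMap k F (a.eval 0) = c * algebraMap k F (b.eval 0)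

theorem aeval_ne {x : F} (hx : Transcendental k x) {b : k[X]} (hb : b ≠ 0) : aeval x b ≠ 0 :=
  fun h => hb (transcendental_iff.1 hx b h)

omit [Algebra k F] in
theorem ne_of_eval {b : k[X]} (hb : b.eval 0 ≠ 0) : b ≠ 0 := by
  rintro rfl
  simp at hb

theorem am_ne {c : k} (h : c ≠ 0) : algebraMap k F c ≠ 0 := by
  rwa [Ne, FaithfulSMul.algebraMap_eq_zero_iff]

namespace Reg

variable {x s t c d : F}

theorem add (h : Reg k x s c) (h' : Reg k x t d) : Reg k x (s + t) (c + d) := by
  obtain ⟨a, b, hb, h1, h2⟩ := h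
  obtain ⟨a', b', hb', h1', h2'⟩ := h'
  refine ⟨a * b' + a' * b, b * b', ?_, ?_, ?_⟩
  · rw [eval_mul]; exact mul_ne_zero hb hb'
  · rw [map_mul, map_add, map_mul, map_mul, ← h1, ← h1']; ring
  · rw [eval_add, eval_mul, eval_mul, eval_mul, map_add, map_mul, map_mul, map_mul, h2, h2']; ring

theorem mul (h : Reg k x s c) (h' : Reg k x t d) : Reg k x (s * t) (c * d) := by
  obtain ⟨a, b, hb, h1, h2⟩ := h
  obtain ⟨a', b', hb', h1', h2'⟩ := h'
  refine ⟨a * a', b * b', ?_, ?_, ?_⟩
  · rw [eval_mul]; exact mul_ne_zero hb hb'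
  · rw [map_mul, map_mul, ← h1, ← h1']; ring
  · rw [eval_mul, eval_mul, map_mul, map_mul, h2, h2']; ring

theorem poly (x : F) (a : k[X]) : Reg k x (aeval x a) (algebraMap k F (a.eval 0)) :=
  ⟨a, 1, by simp, by simp, by simp⟩

theorem const (x : F) (c : k) : Reg k x (algebraMap k F c) (algebraMap k F c) := by
  have := poly (k := k) x (C c)
  simpa using this

theorem var (x : F) : Reg k x x 0 := by
  have := poly (k := k) x X
  simpa using this

theorem zero (x : F) : Reg k x 0 0 := by
  have := const (k := k) x 0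
  simpa using this

theorem one (x : F) : Reg k x 1 1 := by
  have := const (k := k) x 1
  simpa using this

theorem inv (hx : Transcendental k x) (h : Reg k x s c) (hc : c ≠ 0) : Reg k x s⁻¹ c⁻¹ := by
  obtain ⟨a, b, hb, h1, h2⟩ := h
  have ha : a.eval 0 ≠ 0 := by
    intro h0
    rw [h0, map_zero] at h2
    exact mul_ne_zero hc (am_ne (F := F) hb) h2.symm
  have hs : s ≠ 0 := by
    rintro rfl
    rw [zero_mul] at h1
    exact aeval_ne hx (ne_of_eval ha) h1.symm
  refine ⟨b, a, ha, ?_, ?_⟩
  · rw [← h1]; field_simp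
  · rw [h2]; field_simp

theorem unique (hx : Transcendental k x) (h : Reg k x s c) (h' : Reg k x s d) : c = d := by
  obtain ⟨a, b, hb, h1, h2⟩ := h
  obtain ⟨a', b', hb', h1', h2'⟩ := h'
  have h3 : a * b' = a' * b := by
    have : aeval x (a * b' - a' * b) = 0 := by
      rw [map_sub, map_mul, map_mul, ← h1, ← h1']; ring
    by_contra hne
    exact aeval_ne hx (sub_ne_zero.2 hne) this
  have h4 := congrArg (fun p : k[X] => algebraMap k F (p.eval 0)) h3
  simp only [eval_mul, map_mul] at h4
  rw [h2, h2'] at h4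
  have h5 := am_ne (F := F) hb
  have h6 := am_ne (F := F) hb'
  have h7 : c * (algebraMap k F (b.eval 0) * algebraMap k F (b'.eval 0))
      = d * (algebraMap k F (b.eval 0) * algebraMap k F (b'.eval 0)) := by
    linear_combination h4
  exact mul_right_cancel₀ (mul_ne_zero h5 h6) h7

theorem sum {ι : Type} (S : Finset ι) {s c : ι → F} (h : ∀ i ∈ S, Reg k x (s i) (c i)) :
    Reg k x (∑ i ∈ S, s i) (∑ i ∈ S, c i) := by
  classical
  induction S using Finset.induction_on with
  | empty => simpa using zero (k := k) x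
  | insert i S hi ih =>
    rw [Finset.sum_insert hi, Finset.sum_insert hi]
    exact (h i (by simp)).add (ih fun j hj => h j (by simp [hj]))

theorem pow_succ' (n : ℕ) (h : Reg k x s c) : Reg k x (s ^ n) (c ^ n) := by
  induction n with
  | zero => simpa using one (k := k) x
  | succ n ih => rw [pow_succ, pow_succ]; exact ih.mul h

end Reg

theorem der_aeval {x : F} (D : Derivation k F F) (hD : D x = 1) (a : k[X]) :
    D (aeval x a) = aeval x (derivative a) := by
  have := Derivation.map_aeval D a x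
  rw [hD] at this
  simpa using this

theorem Reg.der {x s c : F} (hx : Transcendental k x) (D : Derivation k F F) (hD : D x = 1)
    (h : Reg k x s c) : ∃ d, Reg k x (D s) d := by
  obtain ⟨a, b, hb, h1, h2⟩ := h
  have hb0 : aeval x b ≠ 0 := aeval_ne hx (ne_of_eval hb)
  have h3 := congrArg D h1
  rw [Derivation.leibniz, der_aeval D hD, der_aeval D hD, smul_eq_mul, smul_eq_mul] at h3
  have hs : s = aeval x a / aeval x b := by rw [← h1]; field_simp
  refine ⟨algebraMap k F ((derivative a * b - a * derivative b).eval 0) /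
    algebraMap k F ((b * b).eval 0), derivative a * b - a * derivative b, b * b, ?_, ?_, ?_⟩
  · rw [eval_mul]; exact mul_ne_zero hb hb
  · rw [map_mul, map_sub, map_mul, map_mul]
    have : D s * aeval x b = aeval x (derivative a) - s * aeval x (derivative b) := by
      linear_combination h3
    rw [← mul_assoc, this, hs]
    field_simp
  · rw [div_mul_cancel₀]
    rw [eval_mul]
    exact am_ne (mul_ne_zero hb hb)

/-- normal form of the elements of `k(x)` -/
theorem exists_form {x : F} (hx : Transcendental k x) {r : F}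
    (hr : r ∈ IntermediateField.adjoin k {x}) (h0 : r ≠ 0) :
    ∃ (n : ℤ) (u c : F), r = x ^ n * u ∧ c ≠ 0 ∧ Reg k x u c := by
  rw [IntermediateField.mem_adjoin_simple_iff] at hr
  obtain ⟨p, q, hpq⟩ := hr
  have hx0 : x ≠ 0 := by
    rintro rfl
    exact hx isAlgebraic_zero
  have hp : p ≠ 0 := by
    rintro rfl
    rw [map_zero, zero_div] at hpq
    exact h0 hpq
  have hq : q ≠ 0 := by
    rintro rfl
    rw [map_zero, div_zero] at hpq
    exact h0 hpq
  obtain ⟨p1, hp1, hp2⟩ := exists_eq_pow_rootMultiplicity_mul_and_not_dvd p hp 0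
  obtain ⟨q1, hq1, hq2⟩ := exists_eq_pow_rootMultiplicity_mul_and_not_dvd q hq 0
  rw [dvd_iff_isRoot] at hp2 hq2
  have hp2' : p1.eval 0 ≠ 0 := hp2
  have hq2' : q1.eval 0 ≠ 0 := hq2
  set i := rootMultiplicity 0 p
  set j := rootMultiplicity 0 q
  have hq3 : aeval x q1 ≠ 0 := aeval_ne hx (ne_of_eval hq2')
  refine ⟨(i : ℤ) - j, aeval x p1 * (aeval x q1)⁻¹,
    algebraMap k F (p1.eval 0) * (algebraMap k F (q1.eval 0))⁻¹, ?_, ?_, ?_⟩
  · rw [hpq, hp1, hq1, map_mul, map_mul, map_pow, map_pow, C_0, sub_zero, aeval_X,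
      zpow_sub₀ hx0, zpow_natCast, zpow_natCast]
    field_simp
  · exact mul_ne_zero (am_ne hp2') (inv_ne_zero (am_ne hq2'))
  · exact (Reg.poly x p1).mul ((Reg.poly x q1).inv hx (am_ne hq2'))

theorem exists_ord {x : F} (hx : Transcendental k x) (D : Derivation k F F) (hD : D x = 1)
    {r : F} (hr : r ∈ IntermediateField.adjoin k {x}) (h0 : r ≠ 0) :
    ∃ n : ℤ, Reg k x (x * (r⁻¹ * D r)) n := by
  obtain ⟨n, u, c, rfl, hc, hu⟩ := exists_form hx hr h0
  have hx0 : x ≠ 0 := by
    rintro rfl
    exact hx isAlgebraic_zero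
  have hu0 : u ≠ 0 := by
    rintro rfl
    simp at h0
  obtain ⟨d, hd⟩ := hu.der hx D hD
  refine ⟨n, ?_⟩
  have e : x * ((x ^ n * u)⁻¹ * D (x ^ n * u)) = n + x * (u⁻¹ * D u) := by
    rw [Derivation.leibniz, Derivation.leibniz_zpow, hD]
    simp only [smul_eq_mul, zsmul_eq_mul]
    rw [zpow_sub_one₀ hx0]
    have := zpow_ne_zero n hx0
    field_simp
    ring
  rw [e]
  have h1 : Reg k x ((n : ℤ) : F) n := by
    have := Reg.const (k := k) x (n : k)
    simpa using this
  have h2 := (Reg.var (k := k) x).mul ((hu.inv hx hc).mul hd)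
  have h3 := h1.add h2
  simpa using h3

theorem reg_xD {x : F} (hx : Transcendental k x) (D : Derivation k F F) (hD : D x = 1)
    {w s : F} (hw : w ∈ IntermediateField.adjoin k {x}) (hs : Reg k x (x * D w) s) : s = 0 := by
  rcases eq_or_ne w 0 with rfl | h0
  · rw [map_zero, mul_zero] at hs
    exact hs.unique hx (Reg.zero x)
  have hx0 : x ≠ 0 := by
    rintro rfl
    exact hx isAlgebraic_zero
  obtain ⟨n, u, c, rfl, hc, hu⟩ := exists_form hx hw h0
  obtain ⟨d, hd⟩ := hu.der hx D hD
  have e : x * D (x ^ n * u) = x ^ n * (n * u + x * D u) := by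
    rw [Derivation.leibniz, Derivation.leibniz_zpow, hD]
    simp only [smul_eq_mul, zsmul_eq_mul]
    rw [zpow_sub_one₀ hx0]
    field_simp
    ring
  have hn : Reg k x ((n : ℤ) : F) n := by
    have := Reg.const (k := k) x (n : k)
    simpa using this
  have h1 : Reg k x (n * u + x * D u) (n * c) := by
    have := (hn.mul hu).add ((Reg.var (k := k) x).mul hd)
    simpa using this
  rw [e] at hs
  rcases lt_trichotomy n 0 with hlt | heq | hgt
  · -- a pole
    obtain ⟨m, rfl⟩ : ∃ m : ℕ, n = -((m : ℤ) + 1) := ⟨(-n - 1).toNat, by omega⟩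
    have h2 : Reg k x (x ^ (m + 1)) 0 := by
      have := (Reg.var (k := k) x).pow_succ' (m + 1)
      simpa using this
    have h3 := h2.mul hs
    rw [← mul_assoc] at h3
    have e2 : x ^ (m + 1) * x ^ (-((m : ℤ) + 1)) = 1 := by
      rw [zpow_neg, ← Nat.cast_succ, zpow_natCast]
      exact mul_inv_cancel₀ (pow_ne_zero _ hx0)
    rw [e2, one_mul, zero_mul] at h3
    have h4 := h1.unique hx h3
    exfalso
    have h5 : (((-((m : ℤ) + 1) : ℤ)) : F) ≠ 0 := by
      rw [Int.cast_ne_zero]; omega
    exact mul_ne_zero h5 hc h4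
  · subst heq
    rw [zpow_zero, one_mul] at hs
    have h2 := h1.unique hx hs
    rw [← h2]; simp
  · obtain ⟨m, rfl⟩ : ∃ m : ℕ, n = (m : ℤ) + 1 := ⟨(n - 1).toNat, by omega⟩
    have h2 : Reg k x (x ^ (m + 1)) 0 := by
      have := (Reg.var (k := k) x).pow_succ' (m + 1)
      simpa using this
    have e2 : x ^ ((m : ℤ) + 1) = x ^ (m + 1) := by
      rw [← Nat.cast_succ, zpow_natCast]
    rw [e2] at hs
    have h3 := hs.unique hx (h2.mul h1)
    rw [h3, zero_mul]

end Pool.Agent.helper82.PW.GAx
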