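import Mathlib
import Pool.Agent.helper82.PW.Defs
import Pool.Agent.helper82.PW.GAx

/-!
# A dimension estimate from Ax's theorem
-/

set_option autoImplicit false

namespace Pool.Agent.helper82.PW

open Pool.Agent.helper82.PW

variable {n : ℕ}

/-- the values of a derivation on two tuples -/
noncomputable def axdim_ev {F : Type} [Field F] [CharZero F] {J : Type} (u : J → F)
    (y : Fin n → F) : Derivation ℚ F F →ₗ[F] (J ⊕ Fin n → F) where
  toFun D := Sum.elim (fun j => D (u j)) (fun i => D (y i))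
  map_add' D E := by
    funext a
    rcases a with j | i <;> rfl
  map_smul' c D := by
    funext a
    rcases a with j | i <;> rfl

/-- the functional `∑ i, q i * (v (y i) - v (x i) / x i)` -/
noncomputable def axdim_th {F : Type} [Field F] {J : Type} (u : J → F) (σ : Fin n → J)
    (q : Fin n → ℤ) : Module.Dual F (J ⊕ Fin n → F) where
  toFun v := ∑ i, (q i : F) * (v (Sum.inr i) - (u (σ i))⁻¹ * v (Sum.inl (σ i)))
  map_add' v w := by
    rw [← Finset.sum_add_distrib]
    refine Finset.sum_congr rfl fun i _ => ?_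
    simp only [Pi.add_apply]
    ring
  map_smul' c v := by
    simp only [Pi.smul_apply, smul_eq_mul, RingHom.id_apply, Finset.mul_sum]
    refine Finset.sum_congr rfl fun i _ => ?_
    ring

theorem axdim_th_ev {F : Type} [Field F] [CharZero F] {J : Type} (u : J → F) (y : Fin n → F)
    (σ : Fin n → J) (hx : ∀ i, u (σ i) ≠ 0) (q : Fin n → ℤ) (D : Derivation ℚ F F) :
    axdim_th u σ q (axdim_ev u y D) = D (∑ i, (q i : F) * y i) -
      (∏ i, u (σ i) ^ q i)⁻¹ * D (∏ i, u (σ i) ^ q i) := by
  rw [GAx.der_int, GAx.logder_zpow Finset.univ D q (fun i => u (σ i)) hx,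
    ← Finset.sum_sub_distrib]
  show ∑ i, (q i : F) * (D (y i) - (u (σ i))⁻¹ * D (u (σ i))) = _
  refine Finset.sum_congr rfl fun i _ => ?_
  ring

theorem ax_dim {F : Type} [Field F] [IsAlgClosed F] [CharZero F] {R ρ : ℕ} {J : Type}
    [Fintype J] (Δ : Fin R → Derivation ℚ F F) (u : J → F) (y : Fin n → F) (σ : Fin n → J)
    (hx : ∀ i, u (σ i) ≠ 0) (hd : ∀ k i, Δ k (u (σ i)) = u (σ i) * Δ k (y i))
    (Q : Fin ρ → Fin n → ℤ)
    (hQ : ∀ c : Fin ρ → ℤ, (∀ k, Δ k (∑ l, (c l : F) * ∑ i, (Q l i : F) * y i) = 0) → c = 0)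
    (hind : LinearIndependent F
      (fun k => (Sum.elim (fun j => Δ k (u j)) (fun i => Δ k (y i)) : J ⊕ Fin n → F)))
    (T : Submodule F (J ⊕ Fin n → F))
    (hT : ∀ D : Derivation ℚ F F, (∀ a, (∀ k, Δ k a = 0) → D a = 0) →
      (Sum.elim (fun j => D (u j)) (fun i => D (y i)) : J ⊕ Fin n → F) ∈ T) :
    ρ + R ≤ Module.finrank F T := by
  classical
  set G : Submodule F (Derivation ℚ F F) := gder (gcon (Set.range Δ) : Set F) with hG
  have hΔG : ∀ k, Δ k ∈ G := by
    intro k a ha
    exact ha (Δ k) ⟨k, rfl⟩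
  set T0 : Submodule F (J ⊕ Fin n → F) := G.map (axdim_ev u y) with hT0
  have hle : T0 ≤ T := by
    rintro _ ⟨D, hD, rfl⟩
    refine hT D fun a ha => hD a ?_
    rintro _ ⟨k, rfl⟩
    exact ha k
  -- the functionals
  let th : Fin ρ → Module.Dual F T0 := fun l => (axdim_th u σ (Q l)).comp T0.subtype
  have hth : LinearIndependent F th := by
    rw [Fintype.linearIndependent_iff]
    intro f hf
    have h1 := gax (Set.range Δ) (fun l : Fin ρ => ∑ i, (Q l i : F) * y i)
      (fun l => ∏ i, u (σ i) ^ Q l i)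
      (fun l => Finset.prod_ne_zero_iff.2 fun i _ => zpow_ne_zero _ (hx i))
      (by
        rintro _ ⟨k, rfl⟩ l
        have h2 := GAx.logder_zpow Finset.univ (Δ k) (Q l) (fun i => u (σ i)) hx
        have h3 : ∏ i, u (σ i) ^ Q l i ≠ 0 :=
          Finset.prod_ne_zero_iff.2 fun i _ => zpow_ne_zero _ (hx i)
        rw [GAx.der_int]
        have h4 : ∑ i, (Q l i : F) * ((u (σ i))⁻¹ * Δ k (u (σ i))) =
            ∑ i, (Q l i : F) * Δ k (y i) := by
          refine Finset.sum_congr rfl fun i _ => ?_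
          rw [hd k i, ← mul_assoc ((u (σ i))⁻¹), inv_mul_cancel₀ (hx i), one_mul]
        rw [← h4, ← h2, ← mul_assoc, mul_inv_cancel₀ h3, one_mul])
      (by
        intro c hc
        exact hQ c fun k => hc _ ⟨k, rfl⟩)
      f
      (by
        intro D hD
        have h2 := LinearMap.congr_fun hf (⟨axdim_ev u y D, ⟨D, hD, rfl⟩⟩ : T0)
        simp only [LinearMap.sum_apply, LinearMap.smul_apply, smul_eq_mul,
          LinearMap.zero_apply] at h2
        rw [← h2]
        refine Finset.sum_congr rfl fun l _ => ?_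
        have h3 : th l (⟨axdim_ev u y D, ⟨D, hD, rfl⟩⟩ : T0) =
            axdim_th u σ (Q l) (axdim_ev u y D) := rfl
        rw [h3, axdim_th_ev u y σ hx])
    exact fun i => congrFun h1 i
  -- the vectors of the derivations `Δ k`
  let w : Fin R → T0 := fun k => ⟨axdim_ev u y (Δ k), ⟨Δ k, hΔG k, rfl⟩⟩
  have hw : LinearIndependent F w := by
    apply LinearIndependent.of_comp T0.subtype
    exact hind
  set W : Submodule F T0 := Submodule.span F (Set.range w) with hW
  have hann : ∀ l, th l ∈ W.dualAnnihilator := by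
    intro l
    rw [Submodule.mem_dualAnnihilator]
    intro v hv
    have hWk : W ≤ LinearMap.ker (th l) := by
      rw [hW, Submodule.span_le]
      rintro _ ⟨k, rfl⟩
      show th l (w k) = 0
      show ∑ i, (Q l i : F) * (Δ k (y i) - (u (σ i))⁻¹ * Δ k (u (σ i))) = 0
      refine Finset.sum_eq_zero fun i _ => ?_
      rw [hd k i, ← mul_assoc ((u (σ i))⁻¹), inv_mul_cancel₀ (hx i), one_mul, sub_self, mul_zero]
    exact hWk hv
  have h1 : LinearIndependent F (fun l => (⟨th l, hann l⟩ : W.dualAnnihilator)) := by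
    apply LinearIndependent.of_comp (Submodule.subtype _)
    exact hth
  have h2 := h1.fintype_card_le_finrank
  have h3 := Subspace.finrank_add_finrank_dualAnnihilator_eq W
  have h4 : Module.finrank F W = R := by
    rw [hW, finrank_span_eq_card hw, Fintype.card_fin]
  have h5 : Module.finrank F T0 ≤ Module.finrank F T := Submodule.finrank_mono hle
  rw [Fintype.card_fin] at h2
  omega

end Pool.Agent.helper82.PW
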