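import Mathlib

/-!
# PW-2: specialisation of linear independence and semicontinuity of ranks
-/

set_option autoImplicit false

namespace Pool.Agent.helper82.PW

open Matrix

/-- PW-2a -/
theorem li_lift {A F : Type} [CommRing A] [IsDomain A] [Algebra ℂ A] [Field F] [Algebra A F]
    (hinj : Function.Injective (algebraMap A F)) (ev : A →ₐ[ℂ] ℂ) {k m : Type} [Fintype k]
    [Fintype m] (B : k → m → A) (h : LinearIndependent ℂ (fun i j => ev (B i j))) :
    LinearIndependent F (fun i j => algebraMap A F (B i j)) := by
  classical
  -- a right inverse of the matrix `ev B`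
  have hf : Function.Injective (Matrix.vecMulLinear (Matrix.of fun i j => ev (B i j))) :=
    Matrix.vecMul_injective_iff.2 h
  obtain ⟨g, hg⟩ := LinearMap.exists_leftInverse_of_injective
    (Matrix.vecMulLinear (Matrix.of fun i j => ev (B i j))) (LinearMap.ker_eq_bot.2 hf)
  let C : Matrix m k ℂ := Matrix.of fun j i => g (Pi.single j 1) i
  have hC : (Matrix.of fun i j => ev (B i j)) * C = 1 := by
    have h1 : ∀ i i' : k, ∑ j, ev (B i j) * g (Pi.single j 1) i' = (1 : Matrix k k ℂ) i i' := by
      intro i i'
      have h2 : g (Matrix.vecMulLinear (Matrix.of fun i j => ev (B i j)) (Pi.single i 1))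
          = Pi.single i 1 := by
        have := congrArg (fun L => L (Pi.single i (1 : ℂ))) hg
        simpa using this
      have h3 : Matrix.vecMulLinear (Matrix.of fun i j => ev (B i j)) (Pi.single i 1)
          = ∑ j, ev (B i j) • (Pi.single j (1 : ℂ) : m → ℂ) := by
        funext j
        simp [Finset.sum_apply, Pi.single_apply]
      rw [h3, map_sum] at h2
      have h4 := congrFun h2 i'
      rw [Finset.sum_apply] at h4
      simp only [map_smul, Pi.smul_apply, smul_eq_mul] at h4
      rw [h4, Matrix.one_apply, Pi.single_apply]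
      by_cases hii : i = i'
      · simp [hii]
      · simp [hii, Ne.symm hii]
    ext i i'
    rw [Matrix.mul_apply]
    exact h1 i i'
  let BA : Matrix k m A := Matrix.of B
  let CA : Matrix m k A := C.map (algebraMap ℂ A)
  have hdet : (BA * CA).det ≠ 0 := by
    intro h0
    have h1 : ev (BA * CA).det = 1 := by
      rw [AlgHom.map_det, AlgHom.mapMatrix_apply, Matrix.map_mul]
      have e1 : BA.map ev = Matrix.of fun i j => ev (B i j) := rfl
      have e2 : CA.map ev = C := by
        ext i j
        simp [CA]
      rw [e1, e2, hC, Matrix.det_one]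
    rw [h0, map_zero] at h1
    exact zero_ne_one h1
  have hdetF : ((BA.map (algebraMap A F)) * (CA.map (algebraMap A F))).det ≠ 0 := by
    have e1 : ((BA.map (algebraMap A F)) * (CA.map (algebraMap A F))).det
        = algebraMap A F (BA * CA).det := by
      rw [← Matrix.map_mul, RingHom.map_det, RingHom.mapMatrix_apply]
    rw [e1]
    intro h0
    exact hdet (hinj (by rw [h0, map_zero]))
  have hinj' : Function.Injective (BA.map (algebraMap A F)).vecMul := by
    have h2 : ∀ c : k → F, (BA.map (algebraMap A F)).vecMul c = 0 → c = 0 := by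
      intro c hc
      refine Matrix.eq_zero_of_vecMul_eq_zero hdetF ?_
      rw [← Matrix.vecMul_vecMul]
      have : c ᵥ* (BA.map (algebraMap A F)) = 0 := hc
      rw [this, Matrix.zero_vecMul]
    intro c c' hcc
    have h3 : (c - c') ᵥ* (BA.map (algebraMap A F)) = 0 := by
      rw [Matrix.sub_vecMul]
      exact sub_eq_zero.2 hcc
    exact sub_eq_zero.1 (h2 _ h3)
  exact Matrix.vecMul_injective_iff.1 hinj'

theorem semi_ker {K : Type} [Field K] {k m : Type} [Fintype k] [Fintype m] (M : Matrix k m K)
    (h : LinearIndependent K (fun i => M i)) :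
    Module.finrank K (LinearMap.ker M.mulVecLin) + Fintype.card k = Fintype.card m := by
  have h1 := LinearMap.finrank_range_add_finrank_ker M.mulVecLin
  have h2 : Module.finrank K (LinearMap.range M.mulVecLin) = Fintype.card k := by
    have h3 : M.rank = Fintype.card k := LinearIndependent.rank_matrix h
    rwa [Matrix.rank] at h3
  rw [h2, Module.finrank_fintype_fun_eq_card] at h1
  omega

/-- PW-2b -/
theorem semi {A F : Type} [CommRing A] [IsDomain A] [Algebra ℂ A] [Field F] [Algebra A F]
    (hinj : Function.Injective (algebraMap A F)) (ev : A →ₐ[ℂ] ℂ) {I m : Type} [Fintype m]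
    (B : I → m → A) (S : Submodule ℂ (m → ℂ))
    (hS : ∀ v, (∀ a, ∑ j, ev (B a j) * v j = 0) → v ∈ S)
    (T : Submodule F (m → F))
    (hT : ∀ v ∈ T, ∀ a, ∑ j, algebraMap A F (B a j) * v j = 0) :
    Module.finrank F T ≤ Module.finrank ℂ S := by
  classical
  obtain ⟨b, hb1, hb2, hb3⟩ := exists_linearIndependent ℂ
    (Set.range fun (a : I) (j : m) => ev (B a j))
  have hbfin : b.Finite := hb3.setFinite
  have : Fintype b := hbfin.fintype
  choose f hf using fun x : b => hb1 x.2
  have hli : LinearIndependent ℂ (fun (x : b) (j : m) => ev (B (f x) j)) := by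
    have : (fun (x : b) (j : m) => ev (B (f x) j)) = fun x : b => (x : m → ℂ) := by
      funext x
      exact hf x
    rw [this]
    exact hb3
  have hliF := li_lift hinj ev (fun (x : b) => B (f x)) hli
  have h1 := semi_ker (Matrix.of fun (x : b) (j : m) => ev (B (f x) j)) hli
  have h2 := semi_ker (Matrix.of fun (x : b) (j : m) => algebraMap A F (B (f x) j)) hliF
  have h3 : LinearMap.ker (Matrix.of fun (x : b) (j : m) => ev (B (f x) j)).mulVecLin ≤ S := by
    intro v hv
    rw [LinearMap.mem_ker, Matrix.mulVecLin_apply] at hv
    refine hS v fun a => ?_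
    have hv' : ∀ x : b, ∑ j, (x : m → ℂ) j * v j = 0 := by
      intro x
      have := congrFun hv x
      rw [Matrix.mulVec, dotProduct] at this
      have hx : (x : m → ℂ) = fun j => ev (B (f x) j) := (hf x).symm
      rw [hx]
      simpa using this
    have hmem : (fun j => ev (B a j)) ∈ Submodule.span ℂ b := by
      rw [hb2]
      exact Submodule.subset_span ⟨a, rfl⟩
    have key : ∀ w ∈ Submodule.span ℂ b, ∑ j, w j * v j = 0 := by
      intro w hw
      induction hw using Submodule.span_induction with
      | mem x hx => exact hv' ⟨x, hx⟩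
      | zero => simp
      | add x y _ _ hx hy => simp [add_mul, Finset.sum_add_distrib, hx, hy]
      | smul c x _ hx =>
        simp only [Pi.smul_apply, smul_eq_mul, mul_assoc, ← Finset.mul_sum, hx, mul_zero]
    exact key _ hmem
  have h4 : T ≤ LinearMap.ker
      (Matrix.of fun (x : b) (j : m) => algebraMap A F (B (f x) j)).mulVecLin := by
    intro v hv
    rw [LinearMap.mem_ker, Matrix.mulVecLin_apply]
    funext x
    have := hT v hv (f x)
    simpa [Matrix.mulVec, dotProduct] using this
  have h5 := Submodule.finrank_mono h3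
  have h6 := Submodule.finrank_mono h4
  omega

end Pool.Agent.helper82.PW
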