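import Mathlib
import Pool.Agent.helper82.PW.Defs
import Pool.Agent.helper82.PW.AxDim
import Pool.Agent.helper82.PW.Semi

/-!
# PW-3: the key inequality
-/

set_option autoImplicit false

namespace Pool.Agent.helper82.PW

open Complex MvPolynomial Topology Filter Pool.Agent.helper82.Sch Pool.Agent.helper82.PW

variable {r n : ℕ}

/-- logarithmic derivative of a product of integer powers -/
theorem key_ineq_log {F : Type} [Field F] [CharZero F] (D : Derivation ℚ F F) {ι : Type}
    (s : Finset ι) (x : ι → F) (hx : ∀ i, x i ≠ 0) (N : ι → ℤ) :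
    D (∏ i ∈ s, x i ^ N i) = (∏ i ∈ s, x i ^ N i) * ∑ i ∈ s, (N i : F) * ((x i)⁻¹ * D (x i)) := by
  classical
  induction s using Finset.induction_on with
  | empty => simp
  | insert a s ha ih =>
    rw [Finset.prod_insert ha, Finset.sum_insert ha, Derivation.leibniz, ih,
      Derivation.leibniz_zpow]
    simp only [smul_eq_mul, zsmul_eq_mul]
    rw [zpow_sub_one₀ (hx a)]
    ring

/-- the chain rule for a derivation which kills the coefficients -/
theorem key_ineq_chain {F : Type} [Field F] [CharZero F] [Algebra ℂ F] (D : Derivation ℚ F F)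
    (hD : ∀ c : ℂ, D (algebraMap ℂ F c) = 0) {J : Type} [Fintype J] (U : J → F)
    (P : MvPolynomial J ℂ) :
    D (aeval U P) = ∑ j, aeval U (pderiv j P) * D (U j) := by
  classical
  induction P using MvPolynomial.induction_on with
  | C a =>
    simp only [aeval_C, pderiv_C, map_zero, zero_mul, Finset.sum_const_zero]
    exact hD a
  | add p q hp hq =>
    simp only [map_add, hp, hq, add_mul, Finset.sum_add_distrib]
  | mul_X p i hp =>
    simp only [map_mul, aeval_X, Derivation.leibniz, hp, smul_eq_mul, map_add]
    have h0 : ∀ j, (aeval U (pderiv j (X i : MvPolynomial J ℂ)) : F) = if j = i then 1 else 0 := by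
      intro j
      by_cases h : j = i
      · rw [if_pos h, h, pderiv_X_self, map_one]
      · rw [if_neg h, pderiv_X_of_ne (Ne.symm h), map_zero]
    have h1 : ∀ j, (aeval U p * aeval U (pderiv j (X i : MvPolynomial J ℂ)) +
        U i * aeval U (pderiv j p)) * D (U j) =
        aeval U p * (if j = i then D (U j) else 0) +
          U i * (aeval U (pderiv j p) * D (U j)) := by
      intro j
      rw [h0]
      by_cases h : j = i
      · rw [if_pos h, if_pos h]
        ring
      · rw [if_neg h, if_neg h]
        ring
    simp only [h1, Finset.sum_add_distrib, ← Finset.mul_sum]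
    rw [Finset.sum_ite_eq', if_pos (Finset.mem_univ i)]

/-- the key inequality in a field which contains the domain -/
theorem key_ineq_aux {A F : Type} [CommRing A] [IsDomain A] [Algebra ℂ A] [Field F]
    [IsAlgClosed F] [CharZero F] [Algebra A F] [Algebra ℂ F] [IsScalarTower ℂ A F]
    (hinj : Function.Injective (algebraMap A F)) (ev : A →ₐ[ℂ] ℂ)
    {R ν ρ : ℕ} {J : Type} [Fintype J] (d : Fin R → Derivation ℂ A A) (u : J → A)
    (y : Fin n → A) (σ : Fin n → J) (hx : ∀ i, IsUnit (u (σ i)))
    (hd : ∀ k i, d k (u (σ i)) = u (σ i) * d k (y i)) {I₁ I₂ : Type}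
    (P : I₁ → MvPolynomial J ℂ) (hP : ∀ a, aeval u (P a) = 0)
    (M : I₂ → Fin n → MvPolynomial J ℂ) (hM : ∀ j, ∑ i, aeval u (M j i) * y i = 0)
    (hind : LinearIndependent ℂ (fun k => (Sum.elim (fun j => ev (d k (u j)))
      (fun i => ev (d k (y i))) : J ⊕ Fin n → ℂ)))
    (N : Fin ν → Fin n → ℤ) (hN : ∀ l k, d k (∑ i, (N l i : A) * y i) = 0)
    (Q : Fin ρ → Fin n → ℤ)
    (hQ : ∀ c : Fin ρ → ℤ, (∀ k, d k (∑ l, (c l : A) * ∑ i, (Q l i : A) * y i) = 0) → c = 0)
    (S1 : Submodule ℂ (J → ℂ))
    (h1 : ∀ v : J → ℂ, (∀ a, ∑ j, aeval (fun j => ev (u j)) (pderiv j (P a)) * v j = 0) →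
      (∀ l, ∑ i, (N l i : ℂ) * (v (σ i) / ev (u (σ i))) = 0) → v ∈ S1)
    (S2 : Submodule ℂ (Fin n → ℂ))
    (h2 : ∀ w : Fin n → ℂ, (∀ j, ∑ i, aeval (fun j => ev (u j)) (M j i) * w i = 0) →
      (∀ l, ∑ i, (N l i : ℂ) * w i = 0) → w ∈ S2) :
    ρ + R ≤ Module.finrank ℂ S1 + Module.finrank ℂ S2 := by
  classical
  -- the extended derivations
  have hext : ∀ k, ∃ D : Derivation ℂ F F, ∀ a, D (algebraMap A F a) = algebraMap A F (d k a) := by
    intro k
    obtain ⟨D, hD⟩ := ext_der (R := ℂ) hinj ((Algebra.linearMap A F).compDer (d k))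
    exact ⟨D, hD⟩
  choose D0 hD0 using hext
  let Δ : Fin R → Derivation ℚ F F := fun k => (D0 k).restrictScalars ℚ
  have hΔ : ∀ k a, Δ k (algebraMap A F a) = algebraMap A F (d k a) := fun k a => hD0 k a
  have hΔC : ∀ k (c : ℂ), Δ k (algebraMap ℂ F c) = 0 := fun k c => (D0 k).map_algebraMap c
  -- inverses
  have hw : ∀ i, ∃ w : A, u (σ i) * w = 1 := fun i => (hx i).exists_right_inv
  choose w hw using hw
  have hU0 : ∀ i, algebraMap A F (u (σ i)) ≠ 0 := by
    intro i h0
    have h3 := congrArg (algebraMap A F) (hw i)
    rw [map_mul, h0, zero_mul, map_one] at h3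
    exact zero_ne_one h3
  have hwF : ∀ i, algebraMap A F (w i) = (algebraMap A F (u (σ i)))⁻¹ := by
    intro i
    have h3 := congrArg (algebraMap A F) (hw i)
    rw [map_mul, map_one] at h3
    exact eq_inv_of_mul_eq_one_right h3
  have hwC : ∀ i, ev (w i) = (ev (u (σ i)))⁻¹ := by
    intro i
    have h3 := congrArg ev (hw i)
    rw [map_mul, map_one] at h3
    exact eq_inv_of_mul_eq_one_right h3
  -- the matrices
  let B1 : I₁ ⊕ Fin ν → J → A := Sum.elim (fun a j => aeval u (pderiv j (P a)))
    (fun l j => ∑ i, if σ i = j then (N l i : A) * w i else 0)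
  let B2 : I₂ ⊕ Fin ν → Fin n → A := Sum.elim (fun j i => aeval u (M j i))
    (fun l i => (N l i : A))
  -- sums over the second family of rows of B1
  have hB1 : ∀ {G : Type} [CommRing G] (φ : A →+* G) (l : Fin ν) (v : J → G),
      ∑ j, φ (B1 (Sum.inr l) j) * v j = ∑ i, (N l i : G) * (φ (w i) * v (σ i)) := by
    intro G _ φ l v
    have h3 : ∀ j, φ (B1 (Sum.inr l) j) * v j =
        ∑ i, if σ i = j then (N l i : G) * (φ (w i) * v (σ i)) else 0 := by
      intro j
      show φ (∑ i, if σ i = j then (N l i : A) * w i else 0) * v j = _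
      rw [map_sum, Finset.sum_mul]
      refine Finset.sum_congr rfl fun i _ => ?_
      by_cases h : σ i = j
      · rw [if_pos h, if_pos h, map_mul, map_intCast, ← h]
        ring
      · rw [if_neg h, if_neg h, map_zero, zero_mul]
    rw [Finset.sum_congr rfl fun j _ => h3 j, Finset.sum_comm]
    refine Finset.sum_congr rfl fun i _ => ?_
    rw [Finset.sum_ite_eq]
    simp
  -- the spaces
  let T1 : Submodule F (J → F) :=
    { carrier := {v | ∀ a, ∑ j, algebraMap A F (B1 a j) * v j = 0}
      add_mem' := by
        intro v v' hv hv' a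
        simp only [Pi.add_apply, mul_add, Finset.sum_add_distrib, hv a, hv' a, add_zero]
      zero_mem' := by
        intro a
        simp
      smul_mem' := by
        intro c v hv a
        have h3 : ∀ j, algebraMap A F (B1 a j) * (c • v) j =
            c * (algebraMap A F (B1 a j) * v j) := by
          intro j
          simp only [Pi.smul_apply, smul_eq_mul]
          ring
        simp only [h3, ← Finset.mul_sum, hv a, mul_zero] }
  let T2 : Submodule F (Fin n → F) :=
    { carrier := {v | ∀ a, ∑ j, algebraMap A F (B2 a j) * v j = 0}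
      add_mem' := by
        intro v v' hv hv' a
        simp only [Pi.add_apply, mul_add, Finset.sum_add_distrib, hv a, hv' a, add_zero]
      zero_mem' := by
        intro a
        simp
      smul_mem' := by
        intro c v hv a
        have h3 : ∀ j, algebraMap A F (B2 a j) * (c • v) j =
            c * (algebraMap A F (B2 a j) * v j) := by
          intro j
          simp only [Pi.smul_apply, smul_eq_mul]
          ring
        simp only [h3, ← Finset.mul_sum, hv a, mul_zero] }
  have hT1 : Module.finrank F T1 ≤ Module.finrank ℂ S1 := by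
    refine semi hinj ev B1 S1 ?_ T1 (fun v hv a => hv a)
    intro v hv
    refine h1 v (fun a => ?_) (fun l => ?_)
    · have h3 := hv (Sum.inl a)
      refine Eq.trans (Finset.sum_congr rfl fun j _ => ?_) h3
      show _ = ev (aeval u (pderiv j (P a))) * v j
      rw [MvPolynomial.comp_aeval_apply]
    · have h3 := hv (Sum.inr l)
      have h4 := hB1 (ev : A →+* ℂ) l v
      have h5 : ∑ i, (N l i : ℂ) * (ev (w i) * v (σ i)) = 0 := h4.symm.trans h3
      refine Eq.trans (Finset.sum_congr rfl fun i _ => ?_) h5
      rw [hwC, div_eq_inv_mul]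
  have hT2 : Module.finrank F T2 ≤ Module.finrank ℂ S2 := by
    refine semi hinj ev B2 S2 ?_ T2 (fun v hv a => hv a)
    intro v hv
    refine h2 v (fun j => ?_) (fun l => ?_)
    · have h3 := hv (Sum.inl j)
      refine Eq.trans (Finset.sum_congr rfl fun i _ => ?_) h3
      show _ = ev (aeval u (M j i)) * v i
      rw [MvPolynomial.comp_aeval_apply]
    · have h3 := hv (Sum.inr l)
      refine Eq.trans (Finset.sum_congr rfl fun i _ => ?_) h3
      show _ = ev (N l i : A) * v i
      rw [map_intCast]
  -- the space of the values of the derivations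
  let T : Submodule F (J ⊕ Fin n → F) :=
    { carrier := {v | (fun j => v (Sum.inl j)) ∈ T1 ∧
        (∀ j, ∑ i, algebraMap A F (aeval u (M j i)) * v (Sum.inr i) +
          ∑ i, (∑ j', algebraMap A F (aeval u (pderiv j' (M j i))) * v (Sum.inl j')) *
            algebraMap A F (y i) = 0) ∧ ∀ l, ∑ i, (N l i : F) * v (Sum.inr i) = 0}
      add_mem' := by
        rintro v v' ⟨hv1, hv2, hv3⟩ ⟨hv1', hv2', hv3'⟩
        refine ⟨add_mem hv1 hv1', fun j => ?_, fun l => ?_⟩
        · have e1 := hv2 j
          have e2 := hv2' j
          simp only [Pi.add_apply, mul_add, add_mul, Finset.sum_add_distrib]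
          linear_combination e1 + e2
        · have e1 := hv3 l
          have e2 := hv3' l
          simp only [Pi.add_apply, mul_add, Finset.sum_add_distrib, e1, e2, add_zero]
      zero_mem' := by
        refine ⟨zero_mem _, fun j => ?_, fun l => ?_⟩
        · simp
        · simp
      smul_mem' := by
        rintro c v ⟨hv1, hv2, hv3⟩
        refine ⟨Submodule.smul_mem _ c hv1, fun j => ?_, fun l => ?_⟩
        · have e1 := hv2 j
          have e2 : ∀ i, algebraMap A F (aeval u (M j i)) * (c • v) (Sum.inr i) =
              c * (algebraMap A F (aeval u (M j i)) * v (Sum.inr i)) := by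
            intro i
            simp only [Pi.smul_apply, smul_eq_mul]
            ring
          have e3 : ∀ i, (∑ j', algebraMap A F (aeval u (pderiv j' (M j i))) *
              (c • v) (Sum.inl j')) * algebraMap A F (y i) =
              c * ((∑ j', algebraMap A F (aeval u (pderiv j' (M j i))) * v (Sum.inl j')) *
                algebraMap A F (y i)) := by
            intro i
            rw [← mul_assoc, Finset.mul_sum]
            congr 1
            refine Finset.sum_congr rfl fun j' _ => ?_
            simp only [Pi.smul_apply, smul_eq_mul]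
            ring
          simp only [e2, e3, ← Finset.mul_sum, ← mul_add, e1, mul_zero]
        · have e1 := hv3 l
          have e2 : ∀ i, (N l i : F) * (c • v) (Sum.inr i) = c * ((N l i : F) * v (Sum.inr i)) := by
            intro i
            simp only [Pi.smul_apply, smul_eq_mul]
            ring
          simp only [e2, ← Finset.mul_sum, e1, mul_zero] }
  have hTle : Module.finrank F T ≤ Module.finrank F T1 + Module.finrank F T2 := by
    let g : (J ⊕ Fin n → F) →ₗ[F] (J → F) := LinearMap.funLeft F F Sum.inl
    have hg : ∀ v ∈ T, g v ∈ T1 := fun v hv => hv.1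
    let g' : T →ₗ[F] T1 := g.restrict hg
    have e1 := g'.finrank_range_add_finrank_ker
    have e2 : Module.finrank F (LinearMap.range g') ≤ Module.finrank F T1 :=
      Submodule.finrank_le _
    have e3 : Module.finrank F (LinearMap.ker g') ≤ Module.finrank F T2 := by
      let e : LinearMap.ker g' →ₗ[F] (Fin n → F) :=
        (LinearMap.funLeft F F Sum.inr).comp ((Submodule.subtype _).comp (Submodule.subtype _))
      have hval : ∀ v : LinearMap.ker g', ∀ j, (v : T).1 (Sum.inl j) = 0 := by
        rintro ⟨⟨v, hv⟩, hv0⟩ j
        rw [LinearMap.mem_ker] at hv0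
        exact congrFun (congrArg Subtype.val hv0) j
      have he : ∀ v, e v ∈ T2 := by
        intro v a
        have hv := (v : T).2
        have hv0 := hval v
        rcases a with j | l
        · have e4 := hv.2.1 j
          simp only [hv0, mul_zero, Finset.sum_const_zero, zero_mul, add_zero] at e4
          exact e4
        · have e4 := hv.2.2 l
          refine Eq.trans (Finset.sum_congr rfl fun i _ => ?_) e4
          show algebraMap A F (N l i : A) * _ = _
          rw [map_intCast]
          rfl
      apply LinearMap.finrank_le_finrank_of_injective (f := e.codRestrict _ he)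
      rw [injective_iff_map_eq_zero]
      intro v h0
      have h5 : e v = 0 := congrArg Subtype.val h0
      apply Subtype.ext
      apply Subtype.ext
      funext j
      rcases j with j | j
      · exact hval v j
      · exact congrFun h5 j
    omega
  -- the constants
  have hax : ρ + R ≤ Module.finrank F T := by
    refine ax_dim Δ (fun j => algebraMap A F (u j)) (fun i => algebraMap A F (y i)) σ
      hU0 ?_ Q ?_ ?_ T ?_
    · intro k i
      show Δ k (algebraMap A F (u (σ i))) = _
      rw [hΔ, hd, map_mul, hΔ]
    · intro c hc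
      apply hQ c
      intro k
      apply hinj
      rw [map_zero, ← hΔ, ← hc k]
      simp only [map_sum, map_mul, map_intCast]
    · have e1 := li_lift (F := F) hinj ev
        (fun k => (Sum.elim (fun j => d k (u j)) (fun i => d k (y i)) : J ⊕ Fin n → A)) (by
          have e3 : (fun k => (Sum.elim (fun j => ev (d k (u j)))
              (fun i => ev (d k (y i))) : J ⊕ Fin n → ℂ)) = fun k j => ev ((Sum.elim
                (fun j => d k (u j)) (fun i => d k (y i)) : J ⊕ Fin n → A) j) := by
            funext k j
            rcases j with j | j <;> rfl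
          rw [← e3]
          exact hind)
      have e2 : (fun k => (Sum.elim (fun j => Δ k (algebraMap A F (u j)))
          (fun i => Δ k (algebraMap A F (y i))) : J ⊕ Fin n → F)) = fun k j =>
            algebraMap A F ((Sum.elim (fun j => d k (u j)) (fun i => d k (y i)) :
              J ⊕ Fin n → A) j) := by
        funext k j
        rcases j with j | j
        · exact hΔ k (u j)
        · exact hΔ k (y j)
      rw [e2]
      exact e1
    · intro D hD
      have hDC : ∀ c : ℂ, D (algebraMap ℂ F c) = 0 := fun c => hD _ fun k => hΔC k c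
      have hpoly : ∀ p : MvPolynomial J ℂ, D (algebraMap A F (aeval u p)) =
          ∑ j, algebraMap A F (aeval u (pderiv j p)) * D (algebraMap A F (u j)) := by
        intro p
        rw [← MvPolynomial.aeval_algebraMap_apply, key_ineq_chain D hDC]
        simp only [MvPolynomial.aeval_algebraMap_apply]
        rfl
      refine ⟨?_, fun j => ?_, fun l => ?_⟩
      · rintro (a | l)
        · show ∑ j, algebraMap A F (aeval u (pderiv j (P a))) * D (algebraMap A F (u j)) = 0
          rw [← hpoly, hP, map_zero, map_zero]
        · rw [hB1 (algebraMap A F) l]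
          show ∑ i, (N l i : F) * (algebraMap A F (w i) * D (algebraMap A F (u (σ i)))) = 0
          simp only [hwF]
          -- the product of the powers is a constant
          have e1 : ∀ E : Derivation ℚ F F, E (∏ i, algebraMap A F (u (σ i)) ^ N l i) =
              (∏ i, algebraMap A F (u (σ i)) ^ N l i) * ∑ i, (N l i : F) *
                ((algebraMap A F (u (σ i)))⁻¹ * E (algebraMap A F (u (σ i)))) := fun E =>
            key_ineq_log E Finset.univ _ hU0 (N l)
          have e2 : ∀ k, Δ k (∏ i, algebraMap A F (u (σ i)) ^ N l i) = 0 := by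
            intro k
            rw [e1]
            have e3 : ∀ i, (N l i : F) * ((algebraMap A F (u (σ i)))⁻¹ *
                Δ k (algebraMap A F (u (σ i)))) = algebraMap A F ((N l i : A) * d k (y i)) := by
              intro i
              rw [hΔ, hd, map_mul, map_mul, map_intCast, inv_mul_cancel_left₀ (hU0 i)]
            have e4 : ∑ i, (N l i : A) * d k (y i) = 0 := by
              rw [← hN l k, map_sum]
              refine Finset.sum_congr rfl fun i _ => ?_
              rw [Derivation.leibniz, smul_eq_mul, Derivation.map_intCast, smul_zero, add_zero]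
            simp only [e3]
            rw [← map_sum, e4, map_zero, mul_zero]
          have e5 := hD _ e2
          rw [e1] at e5
          rcases mul_eq_zero.1 e5 with h0 | h0
          · exfalso
            exact (Finset.prod_ne_zero_iff.2 fun i _ => zpow_ne_zero _ (hU0 i)) h0
          · exact h0
      · show ∑ i, algebraMap A F (aeval u (M j i)) * D (algebraMap A F (y i)) +
          ∑ i, (∑ j', algebraMap A F (aeval u (pderiv j' (M j i))) *
            D (algebraMap A F (u j'))) * algebraMap A F (y i) = 0
        have e1 := congrArg (fun a => D (algebraMap A F a)) (hM j)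
        simp only [map_zero, map_sum, map_mul, Derivation.leibniz, smul_eq_mul,
          Finset.sum_add_distrib] at e1
        rw [← e1]
        congr 1
        refine Finset.sum_congr rfl fun i _ => ?_
        rw [hpoly, mul_comm]
      · show ∑ i, (N l i : F) * D (algebraMap A F (y i)) = 0
        have e1 : D (algebraMap A F (∑ i, (N l i : A) * y i)) = 0 := by
          refine hD _ fun k => ?_
          rw [hΔ, hN, map_zero]
        rw [← e1]
        simp only [map_sum, map_mul, map_intCast, Derivation.leibniz, smul_eq_mul,
          Derivation.map_intCast, mul_zero, add_zero]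
  omega

/-- PW-3, the key inequality -/
theorem key_ineq {A : Type} [CommRing A] [IsDomain A] [Algebra ℂ A] (ev : A →ₐ[ℂ] ℂ)
    {R ν ρ : ℕ} {J : Type} [Fintype J] (d : Fin R → Derivation ℂ A A) (u : J → A)
    (y : Fin n → A) (σ : Fin n → J) (hx : ∀ i, IsUnit (u (σ i)))
    (hd : ∀ k i, d k (u (σ i)) = u (σ i) * d k (y i)) {I₁ I₂ : Type}
    (P : I₁ → MvPolynomial J ℂ) (hP : ∀ a, aeval u (P a) = 0)
    (M : I₂ → Fin n → MvPolynomial J ℂ) (hM : ∀ j, ∑ i, aeval u (M j i) * y i = 0)
    (hind : LinearIndependent ℂ (fun k => (Sum.elim (fun j => ev (d k (u j)))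
      (fun i => ev (d k (y i))) : J ⊕ Fin n → ℂ)))
    (N : Fin ν → Fin n → ℤ) (hN : ∀ l k, d k (∑ i, (N l i : A) * y i) = 0)
    (Q : Fin ρ → Fin n → ℤ)
    (hQ : ∀ c : Fin ρ → ℤ, (∀ k, d k (∑ l, (c l : A) * ∑ i, (Q l i : A) * y i) = 0) → c = 0)
    (S1 : Submodule ℂ (J → ℂ))
    (h1 : ∀ v : J → ℂ, (∀ a, ∑ j, aeval (fun j => ev (u j)) (pderiv j (P a)) * v j = 0) →
      (∀ l, ∑ i, (N l i : ℂ) * (v (σ i) / ev (u (σ i))) = 0) → v ∈ S1)
    (S2 : Submodule ℂ (Fin n → ℂ))
    (h2 : ∀ w : Fin n → ℂ, (∀ j, ∑ i, aeval (fun j => ev (u j)) (M j i) * w i = 0) →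
      (∀ l, ∑ i, (N l i : ℂ) * w i = 0) → w ∈ S2) :
    ρ + R ≤ Module.finrank ℂ S1 + Module.finrank ℂ S2 := by
  have : CharZero (AlgebraicClosure (FractionRing A)) :=
    charZero_of_injective_algebraMap (algebraMap ℂ (AlgebraicClosure (FractionRing A))).injective
  have hinj : Function.Injective (algebraMap A (AlgebraicClosure (FractionRing A))) := by
    rw [IsScalarTower.algebraMap_eq A (FractionRing A) (AlgebraicClosure (FractionRing A))]
    exact (algebraMap (FractionRing A) _).injective.comp (IsFractionRing.injective A _)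
  exact key_ineq_aux hinj ev d u y σ hx hd P hP M hM hind N hN Q hQ S1 h1 S2 h2

end Pool.Agent.helper82.PW
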