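import Mathlib
import Pool.Agent.helper82.PW.Defs

/-!
# PW-11: the Taylor homomorphism of a derivation
-/

set_option autoImplicit false

namespace Pool.Agent.helper82.PW

open Complex MvPolynomial Pool.Agent.helper82.Sch

namespace Tay

/-- the Taylor series of `a` with respect to the derivation `D` -/
noncomputable def ser (D : Der) (a : ℂ) : PowerSeries ℂ :=
  PowerSeries.mk fun k => (D^[k] a) / (k.factorial : ℂ)

theorem iter_add (D : Der) (k : ℕ) (a b : ℂ) : D^[k] (a + b) = D^[k] a + D^[k] b := by
  induction k generalizing a b with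
  | zero => rfl
  | succ k ih => rw [Function.iterate_succ_apply, map_add, ih, Function.iterate_succ_apply,
      Function.iterate_succ_apply]

theorem iter_zero (D : Der) (k : ℕ) : D^[k] 0 = 0 := by
  induction k with
  | zero => rfl
  | succ k ih => rw [Function.iterate_succ_apply, map_zero, ih]

theorem ser_add (D : Der) (a b : ℂ) : ser D (a + b) = ser D a + ser D b := by
  ext k
  simp only [ser, PowerSeries.coeff_mk, map_add, iter_add, add_div]

theorem ser_deriv (D : Der) (a : ℂ) : PowerSeries.derivative ℂ (ser D a) = ser D (D a) := by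
  ext k
  rw [PowerSeries.coeff_derivative]
  simp only [ser, PowerSeries.coeff_mk]
  rw [Function.iterate_succ_apply, Nat.factorial_succ]
  push_cast
  have h1 : (k : ℂ) + 1 ≠ 0 := by exact_mod_cast Nat.succ_ne_zero k
  have h2 : (k.factorial : ℂ) ≠ 0 := by exact_mod_cast Nat.factorial_ne_zero k
  field_simp

theorem ser_const (D : Der) {a : ℂ} (h : D a = 0) : ser D a = PowerSeries.C a := by
  ext k
  rw [PowerSeries.coeff_C]
  simp only [ser, PowerSeries.coeff_mk]
  cases k with
  | zero => simp
  | succ k => rw [Function.iterate_succ_apply, h, iter_zero]; simp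

theorem coeff_zero_ser (D : Der) (a : ℂ) : PowerSeries.constantCoeff (ser D a) = a := by
  rw [← PowerSeries.coeff_zero_eq_constantCoeff_apply]
  simp [ser]

theorem ser_mul_coeff (D : Der) (k : ℕ) : ∀ a b : ℂ,
    PowerSeries.coeff k (ser D (a * b)) = PowerSeries.coeff k (ser D a * ser D b) := by
  induction k with
  | zero =>
    intro a b
    simp only [PowerSeries.coeff_zero_eq_constantCoeff_apply, map_mul, coeff_zero_ser]
  | succ k ih =>
    intro a b
    have h1 : PowerSeries.coeff k (PowerSeries.derivative ℂ (ser D (a * b))) =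
        PowerSeries.coeff k (PowerSeries.derivative ℂ (ser D a * ser D b)) := by
      rw [ser_deriv, Derivation.leibniz, Derivation.leibniz, ser_deriv, ser_deriv]
      simp only [smul_eq_mul, ser_add, map_add, ih]
    rw [PowerSeries.coeff_derivative, PowerSeries.coeff_derivative] at h1
    have h2 : (k : ℂ) + 1 ≠ 0 := by exact_mod_cast Nat.succ_ne_zero k
    exact mul_right_cancel₀ h2 h1

end Tay

theorem taylor (D : Der) : ∃ T : ℂ →+* PowerSeries ℂ,
    (∀ a, PowerSeries.constantCoeff (T a) = a) ∧
    (∀ a, PowerSeries.derivative ℂ (T a) = T (D a)) ∧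
    (∀ a, D a = 0 → T a = PowerSeries.C a) := by
  refine ⟨{ toFun := Tay.ser D
            map_one' := ?_
            map_mul' := ?_
            map_zero' := ?_
            map_add' := Tay.ser_add D }, Tay.coeff_zero_ser D, Tay.ser_deriv D,
            fun a h => Tay.ser_const D h⟩
  · rw [Tay.ser_const D (Derivation.map_one_eq_zero D)]
    exact map_one _
  · intro a b
    ext k
    exact Tay.ser_mul_coeff D k a b
  · show Tay.ser D 0 = 0
    rw [Tay.ser_const D (map_zero D)]
    exact map_zero _

end Pool.Agent.helper82.PW
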