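import Mathlib
import Pool.Agent.helper82.PW.Defs
import Pool.Agent.helper82.PW.Count
import Pool.Agent.helper82.PW.ExDer
import Pool.Agent.helper82.PW.Key
import Pool.Agent.helper82.PW.Split
import Pool.Agent.helper82.PW.Taylor

/-!
# PW-12: the first nondegeneracy step
-/

set_option autoImplicit false

namespace Pool.Agent.helper82.PW

open Complex MvPolynomial Topology Filter Pool.Agent.helper82.Sch Pool.Agent.helper82.PW

variable {r n : ℕ}

/-- an integer square matrix with independent rows kills only the zero vector -/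
theorem step1_kill {N : Fin n → Fin n → ℤ} (hN : LinearIndependent ℤ N) (v : Fin n → ℂ)
    (h : ∀ l, ∑ i, (N l i : ℂ) * v i = 0) : v = 0 := by
  by_contra hv
  have h1 : ((Matrix.of N).map (Int.castRingHom ℂ)).det = 0 := by
    rw [← Matrix.exists_mulVec_eq_zero_iff]
    refine ⟨v, hv, ?_⟩
    funext l
    simpa [Matrix.mulVec, dotProduct] using h l
  have h2 : (Matrix.of N).det = 0 := by
    have h3 : ((Matrix.of N).map (Int.castRingHom ℂ)).det =
        (Int.castRingHom ℂ) (Matrix.of N).det :=
      (RingHom.map_det (Int.castRingHom ℂ) (Matrix.of N)).symm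
    rw [h3] at h1
    simpa using h1
  rw [← Matrix.exists_vecMul_eq_zero_iff] at h2
  obtain ⟨c, hc, hc0⟩ := h2
  apply hc
  have h4 := Fintype.linearIndependent_iff.mp hN c (by
    funext i
    have := congrFun hc0 i
    simpa [Matrix.vecMul, dotProduct, Finset.sum_apply] using this)
  funext l
  exact h4 l

/-- primitives of power series -/
theorem step1_prim (f : PowerSeries ℂ) :
    ∃ g : PowerSeries ℂ, PowerSeries.constantCoeff g = 0 ∧ PowerSeries.derivative ℂ g = f := by
  refine ⟨PowerSeries.mk fun k => PowerSeries.coeff (k - 1) f / (k : ℂ), ?_, ?_⟩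
  · rw [← PowerSeries.coeff_zero_eq_constantCoeff_apply, PowerSeries.coeff_mk]
    simp
  · ext k
    rw [PowerSeries.coeff_derivative, PowerSeries.coeff_mk]
    have hk : (k : ℂ) + 1 ≠ 0 := by exact_mod_cast Nat.succ_ne_zero k
    have h1 : k + 1 - 1 = k := rfl
    rw [h1]
    push_cast
    field_simp

/-- the constant coefficient as an algebra homomorphism -/
noncomputable def step1_ev : PowerSeries ℂ →ₐ[ℂ] ℂ :=
  { (PowerSeries.constantCoeff : PowerSeries ℂ →+* ℂ) with
    commutes' := fun a => by
      show PowerSeries.constantCoeff (algebraMap ℂ (PowerSeries ℂ) a) = a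
      rw [← PowerSeries.C_eq_algebraMap]
      exact PowerSeries.constantCoeff_C a }

theorem step1_ev_apply (f : PowerSeries ℂ) : step1_ev f = PowerSeries.constantCoeff f := rfl

/-- PW-12 -/
theorem step1 (s : Fin r → ℝ) (z : Fin n → ℂ) (hz : LinearIndependent ℚ z) (ih : IH s n)
    (hlt : rk (Set.range (cs s)) (fun i => exp (z i)) + dimK (KK s) z < n) (v : Fin n → ℂ)
    (hv : ∀ e : EQ r n, FE (cs s) z e = 0 → ∑ i, row (cs s) z e i * v i = 0) : v = 0 := by
  by_contra hv0
  -- the derivation
  obtain ⟨D, hD⟩ := exists_der (pt (cs s) z)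
    (Sum.elim (fun _ => 0) (fun i => exp (z i) * v i)) (by
      intro P hP
      have h1 := hv (Sum.inl P) hP
      simp only [grad, Fintype.sum_sum_type, Sum.elim_inl, Sum.elim_inr, mul_zero,
        Finset.sum_const_zero, zero_add]
      rw [← h1]
      apply Finset.sum_congr rfl
      intro i _
      simp only [row]
      ring)
  have hDs : ∀ k, D (cs s k) = 0 := fun k => hD (Sum.inl k)
  have hDe : ∀ i, D (exp (z i)) = exp (z i) * v i := fun i => hD (Sum.inr i)
  obtain ⟨T, hT0, hT1, hTC⟩ := taylor D
  choose y hy0 hy1 using fun i => step1_prim (T (v i))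
  set u : Fin r ⊕ Fin n → PowerSeries ℂ := fun j => T (pt (cs s) z j) with hu
  have hul : ∀ k, u (Sum.inl k) = PowerSeries.C (cs s k) := fun k => hTC _ (hDs k)
  have hev : ∀ j, step1_ev (u j) = pt (cs s) z j := fun j => hT0 _
  -- evaluation of integer polynomials
  have haev : ∀ P : MvPolynomial (Fin r ⊕ Fin n) ℤ,
      aeval u (MvPolynomial.map (algebraMap ℤ ℂ) P) = T (aeval (pt (cs s) z) P) := by
    intro P
    rw [aeval_def, eval₂_map, aeval_def, MvPolynomial.eval₂_comp_left]
    congr 1
    exact RingHom.ext_int _ _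
  have haev2 : ∀ P : MvPolynomial (Fin r) ℤ,
      aeval u (rename (Sum.inl : Fin r → Fin r ⊕ Fin n) (MvPolynomial.map (algebraMap ℤ ℂ) P)) =
        T (aeval (cs s) P) := by
    intro P
    rw [aeval_rename, aeval_def, eval₂_map, aeval_def, MvPolynomial.eval₂_comp_left]
    congr 1
    exact RingHom.ext_int _ _
  have haev3 : ∀ P : MvPolynomial (Fin r ⊕ Fin n) ℤ,
      aeval (fun j => step1_ev (u j)) (MvPolynomial.map (algebraMap ℤ ℂ) P) =
        (aeval (pt (cs s) z) P : ℂ) := by
    intro P
    have : (fun j => step1_ev (u j)) = pt (cs s) z := funext hev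
    rw [this, aeval_map_algebraMap]
  have haev4 : ∀ P : MvPolynomial (Fin r) ℤ,
      aeval (fun j => step1_ev (u j)) (rename (Sum.inl : Fin r → Fin r ⊕ Fin n)
        (MvPolynomial.map (algebraMap ℤ ℂ) P)) = (aeval (cs s) P : ℂ) := by
    intro P
    have : (fun j => step1_ev (u j)) = pt (cs s) z := funext hev
    rw [this, aeval_rename, aeval_map_algebraMap]
    rfl
  -- polynomials in s are constants
  have hDP : ∀ P : MvPolynomial (Fin r) ℤ, T (aeval (cs s) P) =
      PowerSeries.C (aeval (cs s) P : ℂ) := by
    intro P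
    apply hTC
    rw [grad_der D (cs s) P]
    simp [grad, hDs]
  -- the lattice
  obtain ⟨ν, ρ, N, Q, hνρ, hNL, hN, hQ⟩ := split (n := n)
    { carrier := {m : Fin n → ℤ | ∑ i, (m i : ℂ) * v i = 0}
      add_mem' := by
        intro a b ha hb
        simp only [Set.mem_ofPred_eq] at ha hb ⊢
        simp only [Pi.add_apply, Int.cast_add, add_mul, Finset.sum_add_distrib, ha, hb, add_zero]
      zero_mem' := by simp
      neg_mem' := by
        intro a ha
        simp only [Set.mem_ofPred_eq] at ha ⊢
        simp only [Pi.neg_apply, Int.cast_neg, neg_mul, Finset.sum_neg_distrib, ha, neg_zero] }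
  have hNv : ∀ l, ∑ i, (N l i : ℂ) * v i = 0 := hNL
  have hder : ∀ m : Fin n → ℤ, PowerSeries.derivative ℂ (∑ i, (m i : PowerSeries ℂ) * y i) =
      T (∑ i, (m i : ℂ) * v i) := by
    intro m
    rw [map_sum, map_sum]
    apply Finset.sum_congr rfl
    intro i _
    have h0 : PowerSeries.derivative ℂ ((m i : ℤ) : PowerSeries ℂ) = 0 := by
      have h1 : ((m i : ℤ) : PowerSeries ℂ) = PowerSeries.C ((m i : ℤ) : ℂ) :=
        (map_intCast (PowerSeries.C : ℂ →+* PowerSeries ℂ) (m i)).symm
      rw [h1, PowerSeries.derivative_C]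
    rw [Derivation.leibniz, hy1, h0, smul_zero, add_zero, smul_eq_mul, map_mul, map_intCast T]
  have hmain := key_ineq (n := n) (A := PowerSeries ℂ) step1_ev (R := 1) (ν := ν) (ρ := ρ)
    (J := Fin r ⊕ Fin n) (fun _ => PowerSeries.derivative ℂ) u y Sum.inr
    (by
      intro i
      have h1 : IsUnit (pt (cs s) z (Sum.inr i)) := by
        rw [isUnit_iff_ne_zero]
        exact exp_ne_zero _
      exact h1.map T)
    (by
      intro _ i
      show PowerSeries.derivative ℂ (T (exp (z i))) = T (exp (z i)) * PowerSeries.derivative ℂ (y i)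
      rw [hT1, hDe, map_mul, hy1])
    (I₁ := {P : MvPolynomial (Fin r ⊕ Fin n) ℤ // aeval (pt (cs s) z) P = 0} ⊕ Fin r)
    (I₂ := {M : Fin n → MvPolynomial (Fin r) ℤ // FE (cs s) z (Sum.inr M) = 0})
    (Sum.elim (fun P => MvPolynomial.map (algebraMap ℤ ℂ) P.1)
      (fun k => X (Sum.inl k) - C (cs s k)))
    (by
      rintro (P | k)
      · simp only [Sum.elim_inl]
        rw [haev, P.2, map_zero]
      · simp only [Sum.elim_inr]
        rw [map_sub, aeval_X, hul, aeval_C, ← PowerSeries.C_eq_algebraMap, sub_self])
    (fun M i => rename Sum.inl (MvPolynomial.map (algebraMap ℤ ℂ) (M.1 i)))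
    (by
      rintro ⟨M, hM⟩
      simp only [haev2]
      apply PowerSeries.derivative.ext
      · rw [map_zero, map_sum]
        have h1 := hv (Sum.inr M) hM
        have h2 : ∀ i, PowerSeries.derivative ℂ (T (aeval (cs s) (M i)) * y i) =
            T (aeval (cs s) (M i) * v i) := by
          intro i
          rw [Derivation.leibniz, hy1, map_mul, hDP, PowerSeries.derivative_C]
          simp
        simp only [h2]
        rw [← map_sum]
        have h3 : ∑ i, aeval (cs s) (M i) * v i = (0 : ℂ) := h1
        rw [h3, map_zero]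
      · rw [map_zero, map_sum]
        apply Finset.sum_eq_zero
        intro i _
        rw [map_mul, hy0, mul_zero])
    (by
      rw [linearIndependent_unique_iff]
      intro h0
      apply hv0
      funext i
      have h1 := congrFun h0 (Sum.inr i)
      simp only [Sum.elim_inr, hy1, Pi.zero_apply] at h1
      rw [step1_ev_apply, hT0] at h1
      exact h1)
    N
    (by
      intro l _
      rw [hder, hNv, map_zero])
    Q
    (by
      intro c hc
      apply hQ
      show ∑ i, (((∑ l, c l • Q l) i : ℤ) : ℂ) * v i = 0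
      have h1 := hc 0
      have h2 : ∑ l, (c l : PowerSeries ℂ) * ∑ i, (Q l i : PowerSeries ℂ) * y i =
          ∑ i, (((∑ l, c l • Q l) i : ℤ) : PowerSeries ℂ) * y i := by
        simp only [Finset.mul_sum, Finset.sum_apply, Pi.smul_apply, smul_eq_mul, Int.cast_sum,
          Int.cast_mul, Finset.sum_mul]
        rw [Finset.sum_comm]
        apply Finset.sum_congr rfl
        intro i _
        apply Finset.sum_congr rfl
        intro l _
        ring
      rw [h2, hder] at h1
      have h3 := congrArg PowerSeries.constantCoeff h1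
      rw [hT0, map_zero] at h3
      exact h3)
    (SS1 (Set.range (cs s)) (cs s) z N)
    (by
      intro v' h1 h2
      refine ⟨?_, ?_⟩
      · rw [mem_VV]
        have h3 : ∀ k, v' (Sum.inl k) = 0 := by
          intro k
          have h4 := h1 (Sum.inr k)
          simp only [Sum.elim_inr, map_sub, pderiv_C, sub_zero, pderiv_X] at h4
          rw [Finset.sum_eq_single (Sum.inl k)] at h4
          · simpa using h4
          · intro j _ hj
            rw [Pi.single_eq_of_ne' hj]
            simp
          · intro hk
            exact absurd (Finset.mem_univ _) hk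
        obtain ⟨D', hD'⟩ := exists_der (pt (cs s) z) v' (by
          intro P hP
          have h4 := h1 (Sum.inl ⟨P, hP⟩)
          simp only [Sum.elim_inl, pderiv_map, haev3] at h4
          exact h4)
        refine ⟨D', ?_, hD'⟩
        rintro _ ⟨k, rfl⟩
        exact (hD' (Sum.inl k)).trans (h3 k)
      · intro l
        have h3 := h2 l
        simp only [hev] at h3
        exact h3)
    (SS2 (cs s) z N)
    (by
      intro w h1 h2
      refine ⟨?_, h2⟩
      intro M hM
      have h3 := h1 ⟨M, hM⟩
      simp only [haev4] at h3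
      exact h3)
  have hνn : ν < n := by
    by_contra hge
    have hνn : ν = n := by omega
    subst hνn
    exact hv0 (step1_kill hN v hNv)
  have hcount := count1 s z hz ih hνn N hN
  omega

end Pool.Agent.helper82.PW
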