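import Mathlib
import Pool.Agent.helper82.PW.Defs

/-!
# The ring of germs of analytic functions of several variables (PW-13)
-/

set_option autoImplicit false

namespace Pool.Agent.helper82.PW

open Complex Topology Filter

variable {r : ℕ}

/-- the ideal of the functions which vanish near the point -/
def germs_I (a : Fin r → ℂ) : Ideal (An a) where
  carrier := {g | ∀ᶠ t in 𝓝 a, g.1 t = 0}
  add_mem' := by
    intro f g hf hg
    filter_upwards [hf, hg] with t h1 h2
    show f.1 t + g.1 t = 0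
    rw [h1, h2, add_zero]
  zero_mem' := Eventually.of_forall fun _ => rfl
  smul_mem' := by
    intro c g hg
    filter_upwards [hg] with t h1
    show c.1 t * g.1 t = 0
    rw [h1, mul_zero]

theorem germs_mem {a : Fin r → ℂ} {g : An a} : g ∈ germs_I a ↔ ∀ᶠ t in 𝓝 a, g.1 t = 0 := Iff.rfl

theorem germs_prime (a : Fin r → ℂ) : (germs_I a).IsPrime := by
  rw [Ideal.isPrime_iff]
  constructor
  · intro h
    have h1 : (1 : An a) ∈ germs_I a := by rw [h]; trivial
    have h2 := (germs_mem.1 h1).self_of_nhds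
    exact one_ne_zero h2
  · intro f g hfg
    by_contra hcon
    push Not at hcon
    obtain ⟨hf, hg⟩ := hcon
    apply hg
    rw [germs_mem] at hf hfg ⊢
    have h1 : ∀ᶠ t in 𝓝 a, AnalyticAt ℂ f.1 t := AnalyticAt.eventually_analyticAt f.2
    have h2 : ∀ᶠ t in 𝓝 a, AnalyticAt ℂ g.1 t := AnalyticAt.eventually_analyticAt g.2
    obtain ⟨ε, hε, hball⟩ := Metric.eventually_nhds_iff_ball.1 (h1.and (h2.and hfg))
    have hex : ∃ b ∈ Metric.ball a ε, f.1 b ≠ 0 := by
      by_contra hc
      push Not at hc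
      exact hf (Metric.eventually_nhds_iff_ball.2 ⟨ε, hε, hc⟩)
    obtain ⟨b, hb, hfb⟩ := hex
    have hgb : ∀ᶠ t in 𝓝 b, g.1 t = 0 := by
      have hc : ∀ᶠ t in 𝓝 b, f.1 t ≠ 0 := (hball b hb).1.continuousAt.eventually_ne hfb
      filter_upwards [hc, Metric.isOpen_ball.mem_nhds hb] with t h3 h4
      have h5 : f.1 t * g.1 t = 0 := (hball t h4).2.2
      rcases mul_eq_zero.1 h5 with h6 | h6
      · exact absurd h6 h3
      · exact h6
    have hgan : AnalyticOnNhd ℂ g.1 (Metric.ball a ε) := fun t ht => (hball t ht).2.1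
    have h6 : Set.EqOn g.1 0 (Metric.ball a ε) :=
      hgan.eqOn_zero_of_preconnected_of_eventuallyEq_zero
        (convex_ball a ε).isPreconnected hb hgb
    exact Metric.eventually_nhds_iff_ball.2 ⟨ε, hε, fun t ht => h6 ht⟩

/-- the partial derivative of an analytic function -/
noncomputable def germs_pd (a : Fin r → ℂ) (k : Fin r) (g : An a) : An a :=
  ⟨fun t => fderiv ℂ g.1 t (Pi.single k 1), by
    have h : AnalyticAt ℂ g.1 a := g.2
    exact ((ContinuousLinearMap.apply ℂ ℂ (Pi.single k (1 : ℂ) : Fin r → ℂ)).analyticAt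
      (fderiv ℂ g.1 a)).comp h.fderiv⟩

theorem germs_pd_congr (a : Fin r → ℂ) (k : Fin r) {f g : An a}
    (h : ∀ᶠ t in 𝓝 a, f.1 t = g.1 t) :
    ∀ᶠ t in 𝓝 a, (germs_pd a k f).1 t = (germs_pd a k g).1 t := by
  filter_upwards [h.eventually_nhds] with t ht
  show fderiv ℂ f.1 t (Pi.single k 1) = fderiv ℂ g.1 t (Pi.single k 1)
  rw [Filter.EventuallyEq.fderiv_eq ht]

/-- the quotient -/
abbrev germs_A (a : Fin r → ℂ) : Type := An a ⧸ germs_I a

theorem germs_mk_eq (a : Fin r → ℂ) {f g : An a} :
    (Ideal.Quotient.mk (germs_I a) f = Ideal.Quotient.mk (germs_I a) g) ↔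
      ∀ᶠ t in 𝓝 a, f.1 t = g.1 t := by
  rw [Ideal.Quotient.eq, germs_mem]
  constructor
  · intro h
    filter_upwards [h] with t ht
    have : f.1 t - g.1 t = 0 := ht
    exact sub_eq_zero.1 this
  · intro h
    filter_upwards [h] with t ht
    show f.1 t - g.1 t = 0
    rw [ht, sub_self]

/-- the partial derivative of a germ -/
noncomputable def germs_dfun (a : Fin r → ℂ) (k : Fin r) (x : germs_A a) : germs_A a :=
  Ideal.Quotient.mk (germs_I a)
    (germs_pd a k (Function.surjInv (Ideal.Quotient.mk_surjective (I := germs_I a)) x))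

theorem germs_dfun_mk (a : Fin r → ℂ) (k : Fin r) (g : An a) :
    germs_dfun a k (Ideal.Quotient.mk (germs_I a) g) =
      Ideal.Quotient.mk (germs_I a) (germs_pd a k g) := by
  unfold germs_dfun
  rw [germs_mk_eq]
  apply germs_pd_congr
  rw [← germs_mk_eq]
  exact Function.surjInv_eq (Ideal.Quotient.mk_surjective (I := germs_I a)) _

theorem germs_diff {a : Fin r → ℂ} (g : An a) : ∀ᶠ t in 𝓝 a, DifferentiableAt ℂ g.1 t := by
  have h : ∀ᶠ t in 𝓝 a, AnalyticAt ℂ g.1 t := AnalyticAt.eventually_analyticAt g.2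
  filter_upwards [h] with t ht
  exact ht.differentiableAt

/-- the partial derivative as a derivation -/
noncomputable def germs_d (a : Fin r → ℂ) (k : Fin r) : Derivation ℂ (germs_A a) (germs_A a) :=
  Derivation.mk'
    { toFun := germs_dfun a k
      map_add' := by
        intro x y
        obtain ⟨f, rfl⟩ := Ideal.Quotient.mk_surjective x
        obtain ⟨g, rfl⟩ := Ideal.Quotient.mk_surjective y
        have h0 : Ideal.Quotient.mk (germs_I a) f + Ideal.Quotient.mk (germs_I a) g =
          Ideal.Quotient.mk (germs_I a) (f + g) := rfl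
        rw [h0, germs_dfun_mk, germs_dfun_mk, germs_dfun_mk]
        have h1 : Ideal.Quotient.mk (germs_I a) (germs_pd a k f) +
            Ideal.Quotient.mk (germs_I a) (germs_pd a k g) =
            Ideal.Quotient.mk (germs_I a) (germs_pd a k f + germs_pd a k g) := rfl
        rw [h1, germs_mk_eq]
        filter_upwards [germs_diff f, germs_diff g] with t h1 h2
        show fderiv ℂ (f.1 + g.1) t (Pi.single k 1) =
          fderiv ℂ f.1 t (Pi.single k 1) + fderiv ℂ g.1 t (Pi.single k 1)
        rw [fderiv_add h1 h2]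
        rfl
      map_smul' := by
        intro c x
        obtain ⟨f, rfl⟩ := Ideal.Quotient.mk_surjective x
        have h0 : c • Ideal.Quotient.mk (germs_I a) f = Ideal.Quotient.mk (germs_I a) (c • f) :=
          rfl
        rw [h0, germs_dfun_mk, germs_dfun_mk]
        have h1 : (RingHom.id ℂ) c • Ideal.Quotient.mk (germs_I a) (germs_pd a k f) =
            Ideal.Quotient.mk (germs_I a) (c • germs_pd a k f) := rfl
        rw [h1, germs_mk_eq]
        filter_upwards [germs_diff f] with t h1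
        show fderiv ℂ (c • f.1) t (Pi.single k 1) = c • fderiv ℂ f.1 t (Pi.single k 1)
        rw [fderiv_const_smul h1]
        rfl }
    (by
      intro x y
      obtain ⟨f, rfl⟩ := Ideal.Quotient.mk_surjective x
      obtain ⟨g, rfl⟩ := Ideal.Quotient.mk_surjective y
      show germs_dfun a k (Ideal.Quotient.mk (germs_I a) f * Ideal.Quotient.mk (germs_I a) g) =
        Ideal.Quotient.mk (germs_I a) f * germs_dfun a k (Ideal.Quotient.mk (germs_I a) g) +
        Ideal.Quotient.mk (germs_I a) g * germs_dfun a k (Ideal.Quotient.mk (germs_I a) f)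
      have h0 : Ideal.Quotient.mk (germs_I a) f * Ideal.Quotient.mk (germs_I a) g =
        Ideal.Quotient.mk (germs_I a) (f * g) := rfl
      rw [h0, germs_dfun_mk, germs_dfun_mk, germs_dfun_mk]
      have h1 : Ideal.Quotient.mk (germs_I a) f *
          Ideal.Quotient.mk (germs_I a) (germs_pd a k g) + Ideal.Quotient.mk (germs_I a) g *
          Ideal.Quotient.mk (germs_I a) (germs_pd a k f) =
          Ideal.Quotient.mk (germs_I a) (f * germs_pd a k g + g * germs_pd a k f) := rfl
      rw [h1, germs_mk_eq]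
      filter_upwards [germs_diff f, germs_diff g] with t h1 h2
      show fderiv ℂ (f.1 * g.1) t (Pi.single k 1) =
        f.1 t * fderiv ℂ g.1 t (Pi.single k 1) + g.1 t * fderiv ℂ f.1 t (Pi.single k 1)
      rw [fderiv_mul h1 h2]
      rfl)

/-- evaluation at the point -/
noncomputable def germs_ev0 (a : Fin r → ℂ) : An a →ₐ[ℂ] ℂ where
  toFun g := g.1 a
  map_one' := rfl
  map_mul' _ _ := rfl
  map_zero' := rfl
  map_add' _ _ := rfl
  commutes' _ := rfl

/-- evaluation of a germ at the point -/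
noncomputable def germs_ev (a : Fin r → ℂ) : germs_A a →ₐ[ℂ] ℂ :=
  Ideal.Quotient.liftₐ (germs_I a) (germs_ev0 a) (fun _ hg => (germs_mem.1 hg).self_of_nhds)

/-- PW-13 -/
theorem exists_germs (a : Fin r → ℂ) :
    ∃ (A : Type) (_ : CommRing A) (_ : IsDomain A) (_ : Algebra ℂ A) (ev : A →ₐ[ℂ] ℂ)
      (d : Fin r → Derivation ℂ A A) (ger : An a →ₐ[ℂ] A),
      (∀ g, ev (ger g) = g.1 a) ∧ (∀ g, ger g = 0 ↔ ∀ᶠ t in 𝓝 a, g.1 t = 0) ∧
      ∀ k g, ∃ g' : An a, (g'.1 = fun t => fderiv ℂ g.1 t (Pi.single k 1)) ∧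
        d k (ger g) = ger g' := by
  have hp := germs_prime a
  refine ⟨germs_A a, inferInstance, Ideal.Quotient.isDomain (germs_I a), inferInstance,
    germs_ev a, germs_d a, Ideal.Quotient.mkₐ ℂ (germs_I a), ?_, ?_, ?_⟩
  · intro g
    rfl
  · intro g
    show Ideal.Quotient.mk (germs_I a) g = 0 ↔ _
    rw [Ideal.Quotient.eq_zero_iff_mem, germs_mem]
  · intro k g
    refine ⟨germs_pd a k g, rfl, ?_⟩
    exact germs_dfun_mk a k g

end Pool.Agent.helper82.PW
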