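import Mathlib
import Pool.Agent.helper82.PW.Defs

/-!
# PW-14: a linear relation with polynomial coefficients between constants is trivial
-/

set_option autoImplicit false

namespace Pool.Agent.helper82.PW

open Complex MvPolynomial Topology Filter Pool.Agent.helper82.Sch

variable {r n : ℕ}

/-- PW-14 -/
theorem rel_const (t0 : Fin r → ℂ) {z : Fin n → ℂ} (hz : LinearIndependent ℚ z)
    (M : Fin n → MvPolynomial (Fin r) ℤ) (h : ∀ᶠ t in 𝓝 t0, FE t z (Sum.inr M) = 0) :
    M = 0 := by
  classical
  set Q : MvPolynomial (Fin r) ℂ := ∑ i, C (z i) * map (Int.castRingHom ℂ) (M i) with hQdef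
  have hev : ∀ t : Fin r → ℂ, eval t Q = FE t z (Sum.inr M) := by
    intro t
    show eval t Q = ∑ i, aeval t (M i) * z i
    rw [hQdef, map_sum]
    refine Finset.sum_congr rfl fun i _ => ?_
    rw [map_mul, eval_C, eval_map, mul_comm]
    rfl
  obtain ⟨ε, hε, hball⟩ := Metric.eventually_nhds_iff.1 h
  have hQ0 : Q = 0 := by
    refine funext_set (fun i => Metric.ball (t0 i) ε) (fun i => ?_) (fun x hx => ?_)
    · exact infinite_of_mem_nhds (t0 i) (Metric.ball_mem_nhds _ hε)
    · rw [hev, map_zero]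
      apply hball
      rw [dist_pi_lt_iff hε]
      intro i
      exact Metric.mem_ball.1 (hx i (Set.mem_univ i))
  funext i
  ext m
  have hc : ∑ i, ((coeff m (M i) : ℤ) : ℂ) * z i = 0 := by
    have h1 := congrArg (coeff m) hQ0
    rw [hQdef, coeff_sum, coeff_zero] at h1
    rw [← h1]
    refine Finset.sum_congr rfl fun i _ => ?_
    rw [coeff_C_mul, coeff_map, mul_comm]
    rfl
  have hc' : ∑ i, ((coeff m (M i) : ℤ) : ℚ) • z i = 0 := by
    rw [← hc]
    refine Finset.sum_congr rfl fun i _ => ?_
    rw [Rat.smul_def]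
    push_cast
    ring
  have h2 := Fintype.linearIndependent_iff.1 hz (fun i => ((coeff m (M i) : ℤ) : ℚ)) hc' i
  have h3 : coeff m (M i) = 0 := by exact_mod_cast h2
  rw [h3]
  simp

end Pool.Agent.helper82.PW
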