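import Mathlib
import Pool.Agent.helper82.PW.Defs
import Pool.Agent.helper82.PW.Count
import Pool.Agent.helper82.PW.Germs
import Pool.Agent.helper82.PW.Key
import Pool.Agent.helper82.PW.RelConst
import Pool.Agent.helper82.PW.SS2
import Pool.Agent.helper82.PW.Split

/-!
# PW-15: the second application of Ax's theorem
-/

set_option autoImplicit false

namespace Pool.Agent.helper82.PW

open Complex MvPolynomial Topology Filter Pool.Agent.helper82.Sch

variable {r n : ℕ} {J : Type}

/-- polynomials commute with ring homomorphisms, integer coefficients -/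
theorem step5_hom {B C : Type} [CommRing B] [CommRing C] (φ : B →+* C) (w : J → B)
    (P : MvPolynomial J ℤ) : φ (aeval w P) = aeval (fun j => φ (w j)) P := by
  rw [MvPolynomial.map_aeval, MvPolynomial.aeval_def, MvPolynomial.coe_eval₂Hom]
  congr 1
  exact RingHom.ext_int _ _

theorem step5_map {B : Type} [CommRing B] [Algebra ℂ B] (w : J → B)
    (P : MvPolynomial J ℤ) :
    aeval w (MvPolynomial.map (Int.castRingHom ℂ) P) = aeval w P := by
  rw [MvPolynomial.aeval_def, MvPolynomial.eval₂_map, MvPolynomial.aeval_def]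
  congr 1
  exact RingHom.ext_int _ _

/-- evaluation at a point -/
def step5_ev {a : Fin r → ℂ} (t : Fin r → ℂ) : An a →+* ℂ where
  toFun g := g.1 t
  map_one' := rfl
  map_mul' _ _ := rfl
  map_zero' := rfl
  map_add' _ _ := rfl

theorem step5_ev_apply {a : Fin r → ℂ} (t : Fin r → ℂ) (g : An a) : step5_ev t g = g.1 t := rfl

theorem step5_aeval {a : Fin r → ℂ} (w : J → An a) (P : MvPolynomial J ℤ)
    (t : Fin r → ℂ) : (aeval w P : An a).1 t = aeval (fun j => (w j).1 t) P :=
  step5_hom (step5_ev t) w P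

/-- analytic functions with vanishing partial derivatives are constant -/
theorem step5_const (f : (Fin r → ℂ) → ℂ) (a : Fin r → ℂ) (hf : AnalyticAt ℂ f a)
    (h : ∀ k, ∀ᶠ t in 𝓝 a, fderiv ℂ f t (Pi.single k 1) = 0) : ∀ᶠ t in 𝓝 a, f t = f a := by
  have h1 : ∀ᶠ t in 𝓝 a, ∀ k, fderiv ℂ f t (Pi.single k 1) = 0 := eventually_all.2 h
  have h2 : ∀ᶠ t in 𝓝 a, AnalyticAt ℂ f t := hf.eventually_analyticAt
  obtain ⟨ε, hε, hε2⟩ := Metric.eventually_nhds_iff_ball.1 (h1.and h2)
  have h3 : Set.EqOn (fderiv ℂ f) 0 (Metric.ball a ε) := by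
    intro t ht
    ext x
    have h4 := (hε2 t ht).1
    have h5 : (fderiv ℂ f t) x = ∑ i, x i * (fderiv ℂ f t) (Pi.single i 1) := by
      conv_lhs => rw [← Finset.univ_sum_single x]
      rw [map_sum]
      refine Finset.sum_congr rfl fun i _ => ?_
      have h6 : (Pi.single i (x i) : Fin r → ℂ) = x i • (Pi.single i (1 : ℂ) : Fin r → ℂ) := by
        rw [← Pi.single_smul]
        simp
      rw [h6, map_smul, smul_eq_mul]
    rw [h5]
    simp [h4]
  filter_upwards [Metric.ball_mem_nhds a hε] with t ht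
  exact Metric.isOpen_ball.is_const_of_fderiv_eq_zero
    (convex_ball a ε).isPreconnected
    (fun x hx => ((hε2 x hx).2.differentiableAt).differentiableWithinAt) h3 ht
    (Metric.mem_ball_self hε)

theorem step5 (s : Fin r → ℝ) (z : Fin n → ℂ) (hz : LinearIndependent ℚ z) (ih : IH s n)
    (hlt : rk (Set.range (cs s)) (fun i => exp (z i)) + dimK (KK s) z < n)
    (τ : Fin n → EQ r n)
    (hgrad : ∀ v : Fin r ⊕ Fin n → ℂ,
      (∀ k P, τ k = Sum.inl P → grad P (pt (cs s) z) v = 0) → v ∈ VV ∅ (pt (cs s) z))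
    (Z : (Fin r → ℂ) → Fin n → ℂ) (hZ : AnalyticAt ℂ Z (cs s)) (hZs : Z (cs s) = z)
    (hP : ∀ k P, τ k = Sum.inl P → ∀ᶠ t in 𝓝 (cs s), FE t (Z t) (Sum.inl P) = 0)
    (hM : ∀ M, FE (cs s) z (Sum.inr M) = 0 →
      ∀ᶠ t in 𝓝 (cs s), FE t (Z t) (Sum.inr M) = 0) : False := by
  classical
  obtain ⟨A, i1, i2, i3, ev, d, ger, hev, hger, hd⟩ := exists_germs (cs s)
  -- the functions
  have hZi : ∀ i, AnalyticAt ℂ (fun t => Z t i) (cs s) := fun i =>
    (analyticAt_pi_iff (f := fun i t => Z t i)).1 hZ i
  let tk : Fin r → An (cs s) := fun k => ⟨fun t => t k,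
    (ContinuousLinearMap.proj k : (Fin r → ℂ) →L[ℂ] ℂ).analyticAt (cs s)⟩
  let zi : Fin n → An (cs s) := fun i => ⟨fun t => Z t i, hZi i⟩
  let ei : Fin n → An (cs s) := fun i => ⟨fun t => exp (Z t i), (hZi i).cexp⟩
  let ej : Fin n → An (cs s) := fun i => ⟨fun t => exp (-Z t i), (hZi i).neg.cexp⟩
  let w : Fin r ⊕ Fin n → An (cs s) := Sum.elim tk ei
  let u : Fin r ⊕ Fin n → A := fun j => ger (w j)
  let y : Fin n → A := fun i => ger (zi i)
  have hgeq : ∀ g g' : An (cs s), (∀ᶠ t in 𝓝 (cs s), g.1 t = g'.1 t) → ger g = ger g' := by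
    intro g g' h
    rw [← sub_eq_zero, ← map_sub, hger]
    filter_upwards [h] with t ht
    show g.1 t - g'.1 t = 0
    rw [ht, sub_self]
  have hwt : ∀ t, (fun j => (w j).1 t) = pt t (Z t) := by
    intro t
    funext j
    rcases j with k | i <;> rfl
  have hevu : (fun j => ev (u j)) = pt (cs s) z := by
    funext j
    have h1 := hev (w j)
    have h2 := congrFun (hwt (cs s)) j
    rw [hZs] at h2
    exact h1.trans h2
  -- derivative of coordinate functions
  have hdt : ∀ k k', ev (d k (u (Sum.inl k'))) = (Pi.single k 1 : Fin r → ℂ) k' := by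
    intro k k'
    obtain ⟨g', hg1, hg2⟩ := hd k (tk k')
    have h1 : d k (u (Sum.inl k')) = ger g' := hg2
    rw [h1, hev, hg1]
    show fderiv ℂ (fun t : Fin r → ℂ => t k') (cs s) (Pi.single k 1) = _
    have h2 : (fun t : Fin r → ℂ => t k') =
        (ContinuousLinearMap.proj k' : (Fin r → ℂ) →L[ℂ] ℂ) := rfl
    rw [h2, ContinuousLinearMap.fderiv]
    rfl
  have hx : ∀ i, IsUnit (u (Sum.inr i)) := by
    intro i
    refine IsUnit.of_mul_eq_one (ger (ej i)) ?_
    show ger (ei i) * ger (ej i) = 1
    rw [← map_mul, ← map_one ger]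
    apply hgeq
    refine Eventually.of_forall fun t => ?_
    show exp (Z t i) * exp (-Z t i) = 1
    rw [← exp_add, add_neg_cancel, exp_zero]
  have hdx : ∀ k i, d k (u (Sum.inr i)) = u (Sum.inr i) * d k (y i) := by
    intro k i
    obtain ⟨g1, hg11, hg12⟩ := hd k (ei i)
    obtain ⟨g2, hg21, hg22⟩ := hd k (zi i)
    show d k (ger (ei i)) = ger (ei i) * d k (ger (zi i))
    rw [hg12, hg22, ← map_mul]
    apply hgeq
    filter_upwards [(hZi i).eventually_analyticAt] with t ht
    show g1.1 t = exp (Z t i) * g2.1 t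
    rw [hg11, hg21]
    show fderiv ℂ (fun t => exp (Z t i)) t (Pi.single k 1) =
      exp (Z t i) * fderiv ℂ (fun t => Z t i) t (Pi.single k 1)
    have h1 : HasFDerivAt (fun t => exp (Z t i))
        (exp (Z t i) • fderiv ℂ (fun t => Z t i) t) t :=
      ht.differentiableAt.hasFDerivAt.cexp
    rw [h1.fderiv]
    rfl
  -- the families of polynomials
  let I₁ : Type := {P : MvPolynomial (Fin r ⊕ Fin n) ℤ // ∃ k, τ k = Sum.inl P}
  let I₂ : Type := {M : Fin n → MvPolynomial (Fin r) ℤ // FE (cs s) z (Sum.inr M) = 0}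
  let P : I₁ → MvPolynomial (Fin r ⊕ Fin n) ℂ := fun a =>
    MvPolynomial.map (Int.castRingHom ℂ) a.1
  let M : I₂ → Fin n → MvPolynomial (Fin r ⊕ Fin n) ℂ := fun a i =>
    MvPolynomial.map (Int.castRingHom ℂ) (rename Sum.inl (a.1 i))
  have hger1 : ∀ Q : MvPolynomial (Fin r ⊕ Fin n) ℤ, aeval u Q = ger (aeval w Q) := by
    intro Q
    exact (step5_hom (ger : An (cs s) →+* A) w Q).symm
  have hPa : ∀ a, aeval u (P a) = 0 := by
    intro a
    obtain ⟨k, hk⟩ := a.2
    show aeval u (MvPolynomial.map (Int.castRingHom ℂ) a.1) = 0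
    rw [step5_map, hger1, hger]
    filter_upwards [hP k a.1 hk] with t ht
    rw [step5_aeval, hwt]
    exact ht
  have hMa : ∀ j, ∑ i, aeval u (M j i) * y i = 0 := by
    intro j
    have h1 : ∀ i, aeval u (M j i) * y i = ger (aeval w (rename Sum.inl (j.1 i)) * zi i) := by
      intro i
      show aeval u (MvPolynomial.map (Int.castRingHom ℂ) (rename Sum.inl (j.1 i))) * y i = _
      rw [step5_map, hger1, map_mul]
    simp only [h1]
    rw [← map_sum, hger]
    filter_upwards [hM j.1 j.2] with t ht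
    have h2 : (∑ i, aeval w (rename Sum.inl (j.1 i)) * zi i : An (cs s)).1 t =
        step5_ev t (∑ i, aeval w (rename Sum.inl (j.1 i)) * zi i : An (cs s)) := rfl
    rw [h2, map_sum]
    refine Eq.trans ?_ ht
    show _ = ∑ i, aeval t (j.1 i) * Z t i
    refine Finset.sum_congr rfl fun i _ => ?_
    rw [map_mul, step5_ev_apply, step5_aeval, hwt, aeval_rename]
    rfl
  have hind : LinearIndependent ℂ (fun k => (Sum.elim (fun j => ev (d k (u j)))
      (fun i => ev (d k (y i))) : (Fin r ⊕ Fin n) ⊕ Fin n → ℂ)) := by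
    rw [Fintype.linearIndependent_iff]
    intro g hg k'
    have h1 := congrFun hg (Sum.inl (Sum.inl k'))
    simp only [Finset.sum_apply, Pi.smul_apply, Sum.elim_inl, Pi.zero_apply, smul_eq_mul] at h1
    rw [Finset.sum_eq_single k'] at h1
    · rw [hdt] at h1
      simpa using h1
    · intro k _ hk
      rw [hdt, Pi.single_eq_of_ne (Ne.symm hk), mul_zero]
    · simp
  -- the group of integer relations
  let L : AddSubgroup (Fin n → ℤ) :=
    { carrier := {m | ∀ k, d k (∑ i, (m i : A) * y i) = 0}
      add_mem' := by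
        intro a b ha hb k
        have h1 : d k (∑ i, (a i : A) * y i) = 0 := ha k
        have h2 : d k (∑ i, (b i : A) * y i) = 0 := hb k
        have h3 : ∑ i, (((a + b) i : ℤ) : A) * y i =
            ∑ i, (a i : A) * y i + ∑ i, (b i : A) * y i := by
          rw [← Finset.sum_add_distrib]
          refine Finset.sum_congr rfl fun i _ => ?_
          rw [Pi.add_apply]
          push_cast
          ring
        rw [h3, map_add, h1, h2, add_zero]
      zero_mem' := by
        intro k
        simp
      neg_mem' := by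
        intro a ha k
        have h1 : d k (∑ i, (a i : A) * y i) = 0 := ha k
        have h3 : ∑ i, (((-a) i : ℤ) : A) * y i = -∑ i, (a i : A) * y i := by
          rw [← Finset.sum_neg_distrib]
          refine Finset.sum_congr rfl fun i _ => ?_
          rw [Pi.neg_apply]
          push_cast
          ring
        rw [h3, map_neg, h1, neg_zero] }
  obtain ⟨ν, ρ, N, Q, hνρ, hNL, hNli, hQL⟩ := split L
  have hN : ∀ l k, d k (∑ i, (N l i : A) * y i) = 0 := fun l k => hNL l k
  have hQ : ∀ c : Fin ρ → ℤ,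
      (∀ k, d k (∑ l, (c l : A) * ∑ i, (Q l i : A) * y i) = 0) → c = 0 := by
    intro c hc
    apply hQL c
    intro k
    rw [← hc k]
    congr 1
    simp only [Finset.mul_sum]
    rw [Finset.sum_comm]
    refine Finset.sum_congr rfl fun i _ => ?_
    rw [Finset.sum_apply]
    push_cast
    rw [Finset.sum_mul]
    refine Finset.sum_congr rfl fun l _ => ?_
    rw [Pi.smul_apply, smul_eq_mul]
    push_cast
    ring
  have h1 : ∀ v : Fin r ⊕ Fin n → ℂ,
      (∀ a, ∑ j, aeval (fun j => ev (u j)) (pderiv j (P a)) * v j = 0) →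
      (∀ l, ∑ i, (N l i : ℂ) * (v (Sum.inr i) / ev (u (Sum.inr i))) = 0) →
      v ∈ SS1 ∅ (cs s) z N := by
    intro v hv1 hv2
    refine ⟨hgrad v fun k Q hk => ?_, fun l => ?_⟩
    · have h2 := hv1 ⟨Q, k, hk⟩
      rw [← h2]
      show ∑ j, _ = _
      refine Finset.sum_congr rfl fun j _ => ?_
      rw [hevu]
      show _ = aeval (pt (cs s) z) (pderiv j (MvPolynomial.map (Int.castRingHom ℂ) Q)) * v j
      rw [MvPolynomial.pderiv_map, step5_map]
    · have h2 := hv2 l
      rw [← h2]
      refine Finset.sum_congr rfl fun i _ => ?_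
      have h3 : ev (u (Sum.inr i)) = exp (z i) := congrFun hevu (Sum.inr i)
      rw [h3]
  have h2 : ∀ w : Fin n → ℂ,
      (∀ j, ∑ i, aeval (fun j => ev (u j)) (M j i) * w i = 0) →
      (∀ l, ∑ i, (N l i : ℂ) * w i = 0) → w ∈ SS2 (cs s) z N := by
    intro w' hw1 hw2
    refine ⟨fun M' hM' => ?_, hw2⟩
    have h3 := hw1 ⟨M', hM'⟩
    rw [← h3]
    refine Finset.sum_congr rfl fun i _ => ?_
    rw [hevu]
    show _ = aeval (pt (cs s) z) (MvPolynomial.map (Int.castRingHom ℂ)
      (rename Sum.inl (M' i))) * w' i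
    rw [step5_map, aeval_rename]
    rfl
  rcases lt_or_ge ν n with hν | hν
  · have hk := key_ineq ev d u y Sum.inr hx hdx P hPa M hMa hind N hN Q hQ
      (SS1 ∅ (cs s) z N) h1 (SS2 (cs s) z N) h2
    have hc := count2 s z hz ih hν N hNli
    omega
  · have hνn : ν = n := by omega
    subst hνn
    -- all derivatives vanish
    have hdet : (Matrix.of N).det ≠ 0 := by
      intro h0
      obtain ⟨v, hv0, hv⟩ := Matrix.exists_vecMul_eq_zero_iff.2 h0
      apply hv0
      rw [Fintype.linearIndependent_iff] at hNli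
      funext l
      apply hNli v
      rw [← hv]
      funext i
      simp [Matrix.vecMul, dotProduct, Finset.sum_apply]
    have hinj : Function.Injective (algebraMap ℂ A) := (algebraMap ℂ A).injective
    have hdetA : (Matrix.of fun l i => ((N l i : ℤ) : A)).det ≠ 0 := by
      have h3 : (Matrix.of fun l i => ((N l i : ℤ) : A)) =
          (Int.castRingHom A).mapMatrix (Matrix.of N) := rfl
      rw [h3, ← RingHom.map_det]
      intro h4
      apply hdet
      have h5 : algebraMap ℂ A (((Matrix.of N).det : ℤ) : ℂ) = algebraMap ℂ A 0 := by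
        rw [map_intCast, map_zero]
        exact h4
      have h6 := hinj h5
      exact_mod_cast h6
    have hdy : ∀ k i, d k (y i) = 0 := by
      intro k
      have h3 : (fun i => d k (y i)) = 0 := by
        apply Matrix.eq_zero_of_mulVec_eq_zero hdetA
        funext l
        have h4 := hN l k
        rw [map_sum] at h4
        simp only [Derivation.leibniz, smul_eq_mul] at h4
        show ∑ i, ((N l i : ℤ) : A) * d k (y i) = 0
        rw [← h4]
        refine Finset.sum_congr rfl fun i _ => ?_
        have h5 : d k ((N l i : ℤ) : A) = 0 := Derivation.map_intCast _ _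
        rw [h5, mul_zero, add_zero]
      exact fun i => congrFun h3 i
    have hconst : ∀ᶠ t in 𝓝 (cs s), Z t = z := by
      have h3 : ∀ i, ∀ᶠ t in 𝓝 (cs s), Z t i = z i := by
        intro i
        have h4 := step5_const (fun t => Z t i) (cs s) (hZi i) (by
          intro k
          obtain ⟨g', hg1, hg2⟩ := hd k (zi i)
          have h5 := hdy k i
          have h6 : ger g' = 0 := hg2.symm.trans h5
          rw [hger] at h6
          filter_upwards [h6] with t ht
          rw [hg1] at ht
          exact ht)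
        filter_upwards [h4] with t ht
        rw [ht, hZs]
      filter_upwards [eventually_all.2 h3] with t ht
      exact funext ht
    obtain ⟨M', hM0, hM1⟩ := exists_rel s z (by omega)
    apply hM0
    apply rel_const (cs s) hz M'
    filter_upwards [hM M' hM1, hconst] with t ht1 ht2
    rw [ht2] at ht1
    exact ht1

end Pool.Agent.helper82.PW
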