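import Mathlib
import Pool.Agent.helper82.PW.Defs

/-!
# Raising to powers: the leading term in the last variable
-/

set_option autoImplicit false

namespace Pool.Agent.helper82.PW

open Filter Topology

variable {r : ℕ}

/-- the inclusion of the first coordinates -/
noncomputable def Expand_L (r : ℕ) : (Fin r → ℂ) →L[ℂ] (Fin (r + 1) → ℂ) :=
  ContinuousLinearMap.pi (Fin.lastCases 0 (fun j => ContinuousLinearMap.proj j))

/-- the last basis vector -/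
noncomputable def Expand_v (r : ℕ) : Fin (r + 1) → ℂ := Pi.single (Fin.last r) 1

theorem Expand_snoc (ε : Fin r → ℂ) (w : ℂ) :
    (Fin.snoc ε w : Fin (r + 1) → ℂ) = Expand_L r ε + w • Expand_v r := by
  ext i
  refine Fin.lastCases ?_ (fun j => ?_) i
  · simp [Expand_L, Expand_v]
  · simp [Expand_L, Expand_v, Fin.snoc_castSucc]

theorem Expand_norm {ε : Fin r → ℂ} {w : ℂ} {ρ : ℝ} (hρ : 0 < ρ) (hε : ∀ i, ‖ε i‖ < ρ)
    (hw : ‖w‖ < ρ) : (Fin.snoc ε w : Fin (r + 1) → ℂ) ∈ Metric.ball (0 : Fin (r + 1) → ℂ) ρ := by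
  rw [mem_ball_zero_iff, pi_norm_lt_iff hρ]
  intro i
  refine Fin.lastCases ?_ (fun j => ?_) i
  · simpa using hw
  · simpa [Fin.snoc_castSucc] using hε j

/-- the derivatives in the direction of the last coordinate -/
noncomputable def Expand_P (g : (Fin (r + 1) → ℂ) → ℂ) : ℕ → (Fin (r + 1) → ℂ) → ℂ
  | 0 => g
  | n + 1 => fun x => fderiv ℂ (Expand_P g n) x (Expand_v r)

theorem Expand_analytic {g : (Fin (r + 1) → ℂ) → ℂ} {U : Set (Fin (r + 1) → ℂ)}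
    (hg : AnalyticOnNhd ℂ g U) (n : ℕ) : AnalyticOnNhd ℂ (Expand_P g n) U := by
  induction n with
  | zero => exact hg
  | succ n ih =>
    intro x hx
    have h1 := ih.fderiv x hx
    exact ((ContinuousLinearMap.apply ℂ ℂ (Expand_v r)).analyticAt _).comp h1

theorem Expand_hasDerivAt {g : (Fin (r + 1) → ℂ) → ℂ} {U : Set (Fin (r + 1) → ℂ)}
    (hg : AnalyticOnNhd ℂ g U) (n : ℕ) (ε : Fin r → ℂ) (w : ℂ)
    (hw : (Fin.snoc ε w : Fin (r + 1) → ℂ) ∈ U) :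
    HasDerivAt (fun z : ℂ => Expand_P g n (Fin.snoc ε z))
      (Expand_P g (n + 1) (Fin.snoc ε w)) w := by
  have h1 : HasFDerivAt (Expand_P g n) (fderiv ℂ (Expand_P g n) (Fin.snoc ε w))
      (Fin.snoc ε w : Fin (r + 1) → ℂ) :=
    (Expand_analytic hg n _ hw).differentiableAt.hasFDerivAt
  have h2 : HasDerivAt (fun z : ℂ => (Fin.snoc ε z : Fin (r + 1) → ℂ)) (Expand_v r) w := by
    have h3 : (fun z : ℂ => (Fin.snoc ε z : Fin (r + 1) → ℂ)) =
        fun z => Expand_L r ε + z • Expand_v r := by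
      funext z
      exact Expand_snoc ε z
    rw [h3]
    have h4 := ((hasDerivAt_id w).smul_const (Expand_v r)).const_add (Expand_L r ε)
    simpa using h4
  exact h1.comp_hasDerivAt w h2

theorem Expand_iter {g : (Fin (r + 1) → ℂ) → ℂ} {ρ : ℝ} (hρ : 0 < ρ)
    (hg : AnalyticOnNhd ℂ g (Metric.ball 0 ρ)) (n : ℕ) (ε : Fin r → ℂ) (hε : ∀ i, ‖ε i‖ < ρ) :
    ∀ w : ℂ, ‖w‖ < ρ →
    iteratedDeriv n (fun z : ℂ => g (Fin.snoc ε z)) w = Expand_P g n (Fin.snoc ε w) := by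
  induction n with
  | zero =>
    intro w _
    simp [Expand_P]
  | succ n ih =>
    intro w hw
    rw [iteratedDeriv_succ]
    have h1 : iteratedDeriv n (fun z : ℂ => g (Fin.snoc ε z)) =ᶠ[𝓝 w]
        fun z => Expand_P g n (Fin.snoc ε z) := by
      have h2 : Metric.ball (0 : ℂ) ρ ∈ 𝓝 w :=
        Metric.isOpen_ball.mem_nhds (mem_ball_zero_iff.mpr hw)
      filter_upwards [h2] with z hz
      exact ih z (mem_ball_zero_iff.mp hz)
    rw [h1.deriv_eq]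
    exact (Expand_hasDerivAt hg n ε w (Expand_norm hρ hε hw)).deriv

theorem Expand_diff {g : (Fin (r + 1) → ℂ) → ℂ} {ρ : ℝ} (hρ : 0 < ρ)
    (hg : AnalyticOnNhd ℂ g (Metric.ball 0 ρ)) (ε : Fin r → ℂ) (hε : ∀ i, ‖ε i‖ < ρ) :
    DifferentiableOn ℂ (fun z : ℂ => g (Fin.snoc ε z)) (Metric.ball 0 ρ) := by
  intro w hw
  exact (Expand_hasDerivAt hg 0 ε w
    (Expand_norm hρ hε (mem_ball_zero_iff.mp hw))).differentiableAt.differentiableWithinAt

theorem Expand_sum {g : (Fin (r + 1) → ℂ) → ℂ} {ρ : ℝ} (hρ : 0 < ρ)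
    (hg : AnalyticOnNhd ℂ g (Metric.ball 0 ρ)) (ε : Fin r → ℂ) (hε : ∀ i, ‖ε i‖ < ρ) (w : ℂ)
    (hw : ‖w‖ < ρ) :
    HasSum (fun n : ℕ => ((n.factorial : ℂ))⁻¹ * (w ^ n * Expand_P g n (Fin.snoc ε 0)))
      (g (Fin.snoc ε w)) := by
  have h := Complex.hasSum_taylorSeries_on_ball (Expand_diff hρ hg ε hε)
    (mem_ball_zero_iff.mpr hw)
  simp only [sub_zero, smul_eq_mul] at h
  have h1 : ∀ n, iteratedDeriv n (fun z : ℂ => g (Fin.snoc ε z)) 0 =
      Expand_P g n (Fin.snoc ε 0) := fun n => Expand_iter hρ hg n ε hε 0 (by simpa using hρ)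
  simp only [h1] at h
  exact h

theorem Expand_coeff {g : (Fin (r + 1) → ℂ) → ℂ} {ρ B : ℝ} (hρ : 0 < ρ)
    (hg : AnalyticOnNhd ℂ g (Metric.ball 0 ρ)) (hB : ∀ x ∈ Metric.ball 0 ρ, ‖g x‖ ≤ B)
    (ε : Fin r → ℂ) (hε : ∀ i, ‖ε i‖ < ρ) (n : ℕ) :
    ‖Expand_P g n (Fin.snoc ε 0)‖ ≤ n.factorial * B / (ρ / 2) ^ n := by
  rw [← Expand_iter hρ hg n ε hε 0 (by simpa using hρ)]
  apply Complex.norm_iteratedDeriv_le_of_forall_mem_sphere_norm_le n (by linarith)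
  · apply (Expand_diff hρ hg ε hε).diffContOnCl_ball
    exact Metric.closedBall_subset_ball (by linarith)
  · intro z hz
    apply hB
    apply Expand_norm hρ hε
    rw [mem_sphere_zero_iff_norm] at hz
    linarith

theorem Expand_analytic_coeff {g : (Fin (r + 1) → ℂ) → ℂ} {ρ : ℝ} (hρ : 0 < ρ)
    (hg : AnalyticOnNhd ℂ g (Metric.ball 0 ρ)) (n : ℕ) :
    AnalyticOnNhd ℂ (fun ε : Fin r → ℂ => Expand_P g n (Fin.snoc ε 0))
      (Metric.ball 0 ρ) := by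
  have h0 : (fun ε : Fin r → ℂ => Expand_P g n (Fin.snoc ε 0)) =
      fun ε => Expand_P g n (Expand_L r ε) := by
    funext ε
    rw [Expand_snoc, zero_smul, add_zero]
  rw [h0]
  intro ε hε
  have h1 : Expand_L r ε ∈ Metric.ball (0 : Fin (r + 1) → ℂ) ρ := by
    have h2 : Expand_L r ε = (Fin.snoc ε 0 : Fin (r + 1) → ℂ) := by
      rw [Expand_snoc, zero_smul, add_zero]
    rw [h2]
    apply Expand_norm hρ _ (by simpa using hρ)
    rw [mem_ball_zero_iff, pi_norm_lt_iff hρ] at hε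
    exact hε
  exact (Expand_analytic hg n _ h1).fun_comp ((Expand_L r).analyticAt ε)

/-- PW-25 -/
theorem expand_last (g : (Fin (r + 1) → ℂ) → ℂ) (hg : AnalyticAt ℂ g 0)
    (hne : ¬ ∀ᶠ t in 𝓝 (0 : Fin (r + 1) → ℂ), g t = 0) :
    ∃ (a : ℕ) (h : (Fin r → ℂ) → ℂ) (K δ : ℝ), AnalyticAt ℂ h 0 ∧
      (¬ ∀ᶠ t in 𝓝 (0 : Fin r → ℂ), h t = 0) ∧ 0 < δ ∧
      ∀ (ε : Fin r → ℂ) (w : ℂ), (∀ i, ‖ε i‖ < δ) → ‖w‖ < δ →
        ‖g (Fin.snoc ε w) - h ε * w ^ a‖ ≤ K * ‖w‖ ^ (a + 1) := by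
  classical
  -- a ball on which the function is analytic and bounded
  obtain ⟨ρ, B, hρ, hgρ, hB⟩ : ∃ ρ B : ℝ, 0 < ρ ∧ AnalyticOnNhd ℂ g (Metric.ball 0 ρ) ∧
      ∀ x ∈ Metric.ball (0 : Fin (r + 1) → ℂ) ρ, ‖g x‖ ≤ B := by
    have h1 := hg.eventually_analyticAt
    have h2 : ∀ᶠ x in 𝓝 (0 : Fin (r + 1) → ℂ), ‖g x‖ ≤ ‖g 0‖ + 1 := by
      have h3 := hg.continuousAt.norm.tendsto
      exact (h3.eventually_lt_const (show ‖g 0‖ < ‖g 0‖ + 1 by linarith)).mono fun x hx => hx.le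
    obtain ⟨ρ, hρ, h4⟩ := Metric.eventually_nhds_iff_ball.mp (h1.and h2)
    exact ⟨ρ, ‖g 0‖ + 1, hρ, fun x hx => (h4 x hx).1, fun x hx => (h4 x hx).2⟩
  have hpre : IsPreconnected (Metric.ball (0 : Fin r → ℂ) ρ) :=
    (convex_ball (0 : Fin r → ℂ) ρ).isPreconnected
  have h0mem : (0 : Fin r → ℂ) ∈ Metric.ball (0 : Fin r → ℂ) ρ := Metric.mem_ball_self hρ
  have hball : ∀ ε : Fin r → ℂ, (∀ i, ‖ε i‖ < ρ) → ε ∈ Metric.ball (0 : Fin r → ℂ) ρ := by
    intro ε hε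
    rw [mem_ball_zero_iff, pi_norm_lt_iff hρ]
    exact hε
  -- some coefficient does not vanish near the origin
  have hex : ∃ n, ¬ ∀ᶠ t in 𝓝 (0 : Fin r → ℂ), Expand_P g n (Fin.snoc t 0) = 0 := by
    by_contra hcon
    push Not at hcon
    apply hne
    filter_upwards [Metric.ball_mem_nhds (0 : Fin (r + 1) → ℂ) hρ] with t ht
    rw [mem_ball_zero_iff, pi_norm_lt_iff hρ] at ht
    have h1 : ∀ n, Expand_P g n (Fin.snoc (Fin.init t) 0) = 0 := by
      intro n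
      have h2 := (Expand_analytic_coeff hρ hgρ n).eqOn_zero_of_preconnected_of_eventuallyEq_zero
        hpre h0mem (hcon n)
      exact h2 (hball _ fun i => ht _)
    have h3 := Expand_sum hρ hgρ (Fin.init t) (fun i => ht _) (t (Fin.last r)) (ht _)
    simp only [h1, mul_zero] at h3
    have h4 := h3.unique hasSum_zero
    rwa [Fin.snoc_init_self] at h4
  set a := Nat.find hex with ha
  have ha1 : ¬ ∀ᶠ t in 𝓝 (0 : Fin r → ℂ), Expand_P g a (Fin.snoc t 0) = 0 := Nat.find_spec hex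
  have ha2 : ∀ n < a, ∀ ε : Fin r → ℂ, (∀ i, ‖ε i‖ < ρ) → Expand_P g n (Fin.snoc ε 0) = 0 := by
    intro n hn ε hε
    have h1 := Nat.find_min hex hn
    push Not at h1
    have h2 := (Expand_analytic_coeff hρ hgρ n).eqOn_zero_of_preconnected_of_eventuallyEq_zero
      hpre h0mem h1
    exact h2 (hball _ hε)
  refine ⟨a, fun ε => ((a.factorial : ℂ))⁻¹ * Expand_P g a (Fin.snoc ε 0),
    2 * B * ((ρ / 2)⁻¹) ^ (a + 1), ρ / 4, ?_, ?_, by linarith, ?_⟩
  · exact analyticAt_const.mul (Expand_analytic_coeff hρ hgρ a 0 h0mem)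
  · intro h
    apply ha1
    filter_upwards [h] with t ht
    have h1 : ((a.factorial : ℂ))⁻¹ ≠ 0 := inv_ne_zero (by exact_mod_cast a.factorial_ne_zero)
    rcases mul_eq_zero.mp ht with h2 | h2
    · exact absurd h2 h1
    · exact h2
  · intro ε w hε hw
    have hε' : ∀ i, ‖ε i‖ < ρ := fun i => (hε i).trans (by linarith)
    have hw' : ‖w‖ < ρ := hw.trans (by linarith)
    have hs := Expand_sum hρ hgρ ε hε' w hw'
    have hs2 := (hasSum_nat_add_iff' (a + 1)).mpr hs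
    have h1 : ∑ i ∈ Finset.range (a + 1),
        ((i.factorial : ℂ))⁻¹ * (w ^ i * Expand_P g i (Fin.snoc ε 0)) =
        ((a.factorial : ℂ))⁻¹ * Expand_P g a (Fin.snoc ε 0) * w ^ a := by
      rw [Finset.sum_range_succ, Finset.sum_eq_zero, zero_add]
      · ring
      · intro i hi
        rw [ha2 i (Finset.mem_range.mp hi) ε hε']
        ring
    rw [h1] at hs2
    have hR : (0 : ℝ) < ρ / 2 := by linarith
    have hB0 : 0 ≤ B := (norm_nonneg _).trans (hB 0 (Metric.mem_ball_self hρ))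
    set θ : ℝ := (ρ / 2)⁻¹ * ‖w‖ with hθ
    have hθ0 : 0 ≤ θ := by positivity
    have hθ1 : θ ≤ 1 / 2 := by
      rw [hθ, inv_mul_le_iff₀ hR]
      linarith
    have h2 : HasSum (fun n : ℕ => B * θ ^ (a + 1) * (1 / 2 : ℝ) ^ n) (B * θ ^ (a + 1) * 2) :=
      hasSum_geometric_two.mul_left _
    have h3 := hs2.norm_le_of_bounded h2 (by
      intro n
      have hc := Expand_coeff hρ hgρ hB ε hε' (n + (a + 1))
      set N := n + (a + 1) with hN
      have hf : (0 : ℝ) < (N.factorial : ℝ) := by exact_mod_cast N.factorial_pos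
      rw [norm_mul, norm_mul, norm_inv, Complex.norm_natCast, norm_pow]
      calc ((N.factorial : ℝ))⁻¹ * (‖w‖ ^ N * ‖Expand_P g N (Fin.snoc ε 0)‖)
          ≤ ((N.factorial : ℝ))⁻¹ * (‖w‖ ^ N * (N.factorial * B / (ρ / 2) ^ N)) := by
            gcongr
        _ = B * θ ^ N := by
            rw [hθ, mul_pow, inv_pow]
            field_simp
        _ = B * θ ^ (a + 1) * θ ^ n := by
            rw [hN, pow_add]
            ring
        _ ≤ B * θ ^ (a + 1) * (1 / 2 : ℝ) ^ n := by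
            gcongr)
    calc ‖g (Fin.snoc ε w) - ((a.factorial : ℂ))⁻¹ * Expand_P g a (Fin.snoc ε 0) * w ^ a‖
        ≤ B * θ ^ (a + 1) * 2 := h3
      _ = 2 * B * ((ρ / 2)⁻¹) ^ (a + 1) * ‖w‖ ^ (a + 1) := by
          rw [hθ, mul_pow]
          ring

end Pool.Agent.helper82.PW
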