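import Mathlib
import Pool.Agent.helper82.PW.Defs
import Pool.Agent.helper82.PW.Expand

/-!
# PW-26: a quantitative zero estimate for separated points
-/

set_option autoImplicit false

namespace Pool.Agent.helper82.PW

open Complex MvPolynomial Topology Filter Pool.Agent.helper82.Sch

/-- PW-26 -/
theorem zero_quant {r : ℕ} (g : (Fin r → ℂ) → ℂ) (hg : AnalyticAt ℂ g 0)
    (hne : ¬ ∀ᶠ t in 𝓝 (0 : Fin r → ℂ), g t = 0) :
    ∃ (m : ℕ) (δ c : ℝ), 0 < δ ∧ 0 < c ∧ ∀ ε : Fin r → ℂ,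
      (∀ i, ε i ≠ 0 ∧ ‖ε i‖ < δ) → (∀ i j, i < j → ‖ε j‖ ≤ ‖ε i‖ ^ m) →
        c * ∏ i, ‖ε i‖ ^ m ≤ ‖g ε‖ := by
  induction r with
  | zero =>
    have h0 : g 0 ≠ 0 := by
      intro h
      apply hne
      filter_upwards with t
      rw [Subsingleton.elim t 0]
      exact h
    refine ⟨0, 1, ‖g 0‖, one_pos, norm_pos_iff.mpr h0, ?_⟩
    intro ε _ _
    rw [Subsingleton.elim ε 0]
    simp
  | succ r ih =>
    obtain ⟨a, h, K, δ, hh, hhne, hδ, hexp⟩ := expand_last g hg hne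
    obtain ⟨m0, δ0, c0, hδ0, hc0, hq⟩ := ih h hh hhne
    -- the new exponent
    set m : ℕ := max (max a m0) (r * m0 + 1) with hm
    have hma : a ≤ m := le_trans (le_max_left _ _) (le_max_left _ _)
    have hmm0 : m0 ≤ m := le_trans (le_max_right _ _) (le_max_left _ _)
    have hmr : r * m0 + 1 ≤ m := le_max_right _ _
    -- K' ≥ 1
    set K' : ℝ := max K 1 with hK'
    have hK'1 : 1 ≤ K' := le_max_right _ _
    have hKK' : K ≤ K' := le_max_left _ _
    set δ' : ℝ := min (min δ δ0) (min 1 (c0 / (2 * K'))) with hδ'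
    have hδ'pos : 0 < δ' := by positivity
    have hd1 : δ' ≤ δ := le_trans (min_le_left _ _) (min_le_left _ _)
    have hd2 : δ' ≤ δ0 := le_trans (min_le_left _ _) (min_le_right _ _)
    have hd3 : δ' ≤ 1 := le_trans (min_le_right _ _) (min_le_left _ _)
    have hd4 : δ' ≤ c0 / (2 * K') := le_trans (min_le_right _ _) (min_le_right _ _)
    refine ⟨m, δ', c0 / 2, hδ'pos, by positivity, ?_⟩
    intro ε hε hsep
    -- split
    set ε' : Fin r → ℂ := Fin.init ε with hε'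
    set w : ℂ := ε (Fin.last r) with hw
    have hsnoc : ε = Fin.snoc ε' w := (Fin.snoc_init_self ε).symm
    have hi0 : ∀ i, 0 < ‖ε' i‖ := fun i => norm_pos_iff.mpr (hε i.castSucc).1
    have hi1 : ∀ i, ‖ε' i‖ < δ' := fun i => (hε i.castSucc).2
    have hw0 : 0 < ‖w‖ := norm_pos_iff.mpr (hε (Fin.last r)).1
    have hw1 : ‖w‖ < δ' := (hε (Fin.last r)).2
    have hexp' := hexp ε' w (fun i => lt_of_lt_of_le (hi1 i) hd1) (lt_of_lt_of_le hw1 hd1)
    rw [← hsnoc] at hexp'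
    -- induction hypothesis
    have hIH : c0 * ∏ i, ‖ε' i‖ ^ m0 ≤ ‖h ε'‖ := by
      apply hq
      · intro i
        exact ⟨(hε i.castSucc).1, lt_of_lt_of_le (hi1 i) hd2⟩
      · intro i j hij
        have h1 : ‖ε' j‖ ≤ ‖ε' i‖ ^ m := hsep i.castSucc j.castSucc (by simpa using hij)
        refine h1.trans ?_
        exact pow_le_pow_of_le_one (hi0 i).le ((hi1 i).le.trans hd3) hmm0
    set PP : ℝ := ∏ i, ‖ε' i‖ ^ m0 with hPP
    have hPPpos : 0 < PP := Finset.prod_pos fun i _ => pow_pos (hi0 i) _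
    have hPP1 : PP ≤ 1 := by
      apply Finset.prod_le_one
      · intro i _
        exact (pow_pos (hi0 i) _).le
      · intro i _
        exact pow_le_one₀ (hi0 i).le ((hi1 i).le.trans hd3)
    -- |w| K ≤ (c0/2) PP
    have hKw : K' * ‖w‖ ≤ c0 / 2 * PP := by
      -- ‖w‖ ≤ δ' * PP
      have h1 : ‖w‖ ≤ c0 / (2 * K') * PP := by
        rcases Nat.eq_zero_or_pos r with hr | hr
        · subst hr
          have : PP = 1 := by simp [hPP]
          rw [this, mul_one]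
          exact hw1.le.trans hd4
        · -- ‖w‖ ≤ ‖ε' i‖ ^ m for all i
          have h2 : ∀ i, ‖w‖ ≤ ‖ε' i‖ ^ m := fun i =>
            hsep i.castSucc (Fin.last r) (Fin.castSucc_lt_last i)
          -- choose i0 with minimal norm
          have : Nonempty (Fin r) := ⟨⟨0, hr⟩⟩
          obtain ⟨i0, hi0'⟩ := Finite.exists_min (fun i => ‖ε' i‖)
          have h3 : ‖w‖ ≤ ‖ε' i0‖ * ∏ _i : Fin r, ‖ε' i0‖ ^ m0 := by
            refine (h2 i0).trans ?_
            rw [Finset.prod_const, Finset.card_univ, Fintype.card_fin, ← pow_mul, ← pow_succ']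
            exact pow_le_pow_of_le_one (hi0 i0).le ((hi1 i0).le.trans hd3)
              (by rw [mul_comm]; exact hmr)
          have h4 : ∏ _i : Fin r, ‖ε' i0‖ ^ m0 ≤ PP := by
            apply Finset.prod_le_prod
            · intro i _
              exact (pow_pos (hi0 i0) _).le
            · intro i _
              exact pow_le_pow_left₀ (hi0 i0).le (hi0' i) _
          refine h3.trans ?_
          apply mul_le_mul ((hi1 i0).le.trans hd4) h4 _ (by positivity)
          exact (Finset.prod_pos fun i _ => pow_pos (hi0 i0) _).le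
      have h5 : K' * ‖w‖ ≤ K' * (c0 / (2 * K') * PP) :=
        mul_le_mul_of_nonneg_left h1 (by linarith)
      have h6 : K' * (c0 / (2 * K') * PP) = c0 / 2 * PP := by
        have : K' ≠ 0 := by linarith
        field_simp
      linarith
    -- final bound
    have hwa : 0 < ‖w‖ ^ a := pow_pos hw0 _
    have hlow : ‖w‖ ^ a * (c0 / 2 * PP) ≤ ‖g ε‖ := by
      have h1 : ‖h ε' * w ^ a‖ - ‖g ε - h ε' * w ^ a‖ ≤ ‖g ε‖ := by
        have := norm_sub_norm_le (h ε' * w ^ a) (h ε' * w ^ a - g ε)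
        have e1 : h ε' * w ^ a - (h ε' * w ^ a - g ε) = g ε := by ring
        rw [e1, norm_sub_rev (h ε' * w ^ a) (g ε)] at this
        exact this
      have h2 : ‖h ε' * w ^ a‖ = ‖h ε'‖ * ‖w‖ ^ a := by rw [norm_mul, norm_pow]
      have h3 : K * ‖w‖ ^ (a + 1) ≤ ‖w‖ ^ a * (K' * ‖w‖) := by
        have : K * ‖w‖ ^ (a + 1) ≤ K' * ‖w‖ ^ (a + 1) :=
          mul_le_mul_of_nonneg_right hKK' (by positivity)
        have e : ‖w‖ ^ a * (K' * ‖w‖) = K' * ‖w‖ ^ (a + 1) := by ring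
        rw [e]
        exact this
      have h4 : ‖w‖ ^ a * (K' * ‖w‖) ≤ ‖w‖ ^ a * (c0 / 2 * PP) :=
        mul_le_mul_of_nonneg_left hKw hwa.le
      have h5 : c0 * PP * ‖w‖ ^ a ≤ ‖h ε'‖ * ‖w‖ ^ a :=
        mul_le_mul_of_nonneg_right hIH hwa.le
      have e : c0 * PP * ‖w‖ ^ a - ‖w‖ ^ a * (c0 / 2 * PP) = ‖w‖ ^ a * (c0 / 2 * PP) := by ring
      rw [h2] at h1
      linarith
    refine le_trans ?_ hlow
    rw [Fin.prod_univ_castSucc]
    have h1 : ∏ i : Fin r, ‖ε i.castSucc‖ ^ m ≤ PP := by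
      apply Finset.prod_le_prod
      · intro i _
        exact (pow_pos (hi0 i) _).le
      · intro i _
        exact pow_le_pow_of_le_one (hi0 i).le ((hi1 i).le.trans hd3) hmm0
    have h2 : ‖w‖ ^ m ≤ ‖w‖ ^ a := pow_le_pow_of_le_one hw0.le (hw1.le.trans hd3) hma
    have h3 : (∏ i : Fin r, ‖ε i.castSucc‖ ^ m) * ‖ε (Fin.last r)‖ ^ m ≤ PP * ‖w‖ ^ a :=
      mul_le_mul h1 h2 (by positivity) hPPpos.le
    calc c0 / 2 * ((∏ i : Fin r, ‖ε i.castSucc‖ ^ m) * ‖ε (Fin.last r)‖ ^ m)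
        ≤ c0 / 2 * (PP * ‖w‖ ^ a) := mul_le_mul_of_nonneg_left h3 (by positivity)
      _ = ‖w‖ ^ a * (c0 / 2 * PP) := by ring

end Pool.Agent.helper82.PW
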