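import Mathlib
import Pool.Agent.helper82.PW.Defs
import Pool.Agent.helper82.PW.ZeroQuant

/-!
# PW-27: the zero lemma
-/

set_option autoImplicit false

namespace Pool.Agent.helper82.PW

open Complex MvPolynomial Topology Filter Pool.Agent.helper82.Sch Pool.Agent.helper82.PW

variable {r n : ℕ}

/-- exponentially small numbers are small -/
theorem zeroLemma_small {δ : ℝ} (hδ : 0 < δ) :
    ∃ M : ℕ, ∀ m ≥ M, ∀ q : ℕ, 2 ≤ q → Real.exp (-((q : ℝ) ^ m)) < δ := by
  obtain ⟨M, hM⟩ := exists_nat_gt (1 / δ)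
  refine ⟨M, fun m hm q hq => ?_⟩
  have hq2 : (2 : ℝ) ≤ (q : ℝ) := by exact_mod_cast hq
  have h1 : (m : ℝ) < 2 ^ m := by exact_mod_cast Nat.lt_two_pow_self
  have h2 : (2 : ℝ) ^ m ≤ (q : ℝ) ^ m := pow_le_pow_left₀ (by norm_num) hq2 m
  have h3 : (q : ℝ) ^ m + 1 ≤ Real.exp ((q : ℝ) ^ m) := Real.add_one_le_exp _
  have hMm : (M : ℝ) ≤ (m : ℝ) := by exact_mod_cast hm
  have h4 : 1 / δ < Real.exp ((q : ℝ) ^ m) := by linarith
  rw [Real.exp_neg, inv_lt_comm₀ (Real.exp_pos _) hδ, inv_eq_one_div]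
  exact h4

theorem zeroLemma_norm (s : Fin r → ℝ) (q : ℕ) (p : Fin r → ℤ) (i : Fin r) :
    ‖(rat q p - cs s) i‖ = |s i - (p i : ℝ) / (q : ℝ)| := by
  have h : (rat q p - cs s) i = (((p i : ℝ) / (q : ℝ) - s i : ℝ) : ℂ) := by
    simp only [Pi.sub_apply, rat, cs]
    push_cast
    ring
  rw [h, Complex.norm_real, Real.norm_eq_abs, abs_sub_comm]

/-- PW-27a -/
theorem zero_lemma {s : Fin r → ℝ} (hs : Sep s) (h : (Fin r → ℂ) → ℂ)
    (hh : AnalyticAt ℂ h (cs s))
    (hz : ∃ m₀ : ℕ, ∀ m ≥ m₀, ∀ q : ℕ, 2 ≤ q → ∀ p : Fin r → ℤ, IsApp s m q p →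
      h (rat q p) = 0) : ∀ᶠ t in 𝓝 (cs s), h t = 0 := by
  by_contra hne
  obtain ⟨m₀, hm₀⟩ := hz
  set g : (Fin r → ℂ) → ℂ := fun ε => h (cs s + ε) with hg
  have hga : AnalyticAt ℂ g 0 := by
    have h1 : AnalyticAt ℂ (fun ε : Fin r → ℂ => cs s + ε) 0 :=
      analyticAt_const.add analyticAt_id
    have h2 : AnalyticAt ℂ h ((fun ε : Fin r → ℂ => cs s + ε) 0) := by
      simpa using hh
    exact h2.comp h1
  have hgne : ¬ ∀ᶠ t in 𝓝 (0 : Fin r → ℂ), g t = 0 := by
    intro hg0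
    apply hne
    have hc : Tendsto (fun t : Fin r → ℂ => t - cs s) (𝓝 (cs s)) (𝓝 0) := by
      have : Tendsto (fun t : Fin r → ℂ => t - cs s) (𝓝 (cs s)) (𝓝 (cs s - cs s)) :=
        (continuous_id.sub continuous_const).tendsto _
      rwa [sub_self] at this
    filter_upwards [hc.eventually hg0] with t ht
    simpa [hg] using ht
  obtain ⟨m, δ, c, hδ, hc, hq⟩ := zero_quant g hga hgne
  obtain ⟨M₁, hM₁⟩ := zeroLemma_small hδ
  obtain ⟨M₂, hM₂⟩ := zeroLemma_small (show (0 : ℝ) < 1 by norm_num)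
  obtain ⟨q, hq2, p, happ⟩ := hs (max (max m m₀) (max M₁ M₂))
  set M := max (max m m₀) (max M₁ M₂) with hMdef
  have hMm : m ≤ M := le_trans (le_max_left _ _) (le_max_left _ _)
  have hMm₀ : m₀ ≤ M := le_trans (le_max_right _ _) (le_max_left _ _)
  have hMM₁ : M₁ ≤ M := le_trans (le_max_left _ _) (le_max_right _ _)
  have hMM₂ : M₂ ≤ M := le_trans (le_max_right _ _) (le_max_right _ _)
  have hzero := hm₀ M hMm₀ q hq2 p happ
  obtain ⟨ha1, ha2, ha3⟩ := happ
  have hε0 : ∀ i, (rat q p - cs s) i ≠ 0 := by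
    intro i hi
    have h1 := zeroLemma_norm s q p i
    rw [hi, norm_zero] at h1
    exact ha1 i (by
      have := abs_eq_zero.mp h1.symm
      linarith)
  have hε1 : ∀ i, ‖(rat q p - cs s) i‖ < Real.exp (-((q : ℝ) ^ M)) := by
    intro i
    rw [zeroLemma_norm]
    exact ha2 i
  have hlt1 : ∀ i, ‖(rat q p - cs s) i‖ < 1 := fun i =>
    (hε1 i).trans (hM₂ M hMM₂ q hq2)
  have hmain := hq (rat q p - cs s)
    (fun i => ⟨hε0 i, (hε1 i).trans (hM₁ M hMM₁ q hq2)⟩)
    (fun i j hij => by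
      have h1 := ha3 i j hij
      rw [← zeroLemma_norm, ← zeroLemma_norm] at h1
      exact h1.trans (pow_le_pow_of_le_one (norm_nonneg _) (hlt1 i).le hMm))
  have hg0 : g (rat q p - cs s) = 0 := by
    simp only [hg]
    rw [add_sub_cancel]
    exact hzero
  rw [hg0, norm_zero] at hmain
  have hpos : 0 < c * ∏ i, ‖(rat q p - cs s) i‖ ^ m := by
    apply mul_pos hc
    apply Finset.prod_pos
    intro i _
    exact pow_pos (norm_pos_iff.mpr (hε0 i)) _
  linarith

/-- values of integer polynomials at rational points have bounded denominators -/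
theorem zeroLemma_den (P : MvPolynomial (Fin r) ℤ) :
    ∃ d : ℕ, ∀ (q : ℕ) (p : Fin r → ℤ), 1 ≤ q → ∃ a : ℤ,
      (a : ℂ) = (q : ℂ) ^ d * aeval (rat q p) P := by
  induction P using MvPolynomial.induction_on with
  | C b =>
    refine ⟨0, fun q p _ => ⟨b, ?_⟩⟩
    simp
  | add P Q hP hQ =>
    obtain ⟨d₁, h₁⟩ := hP
    obtain ⟨d₂, h₂⟩ := hQ
    refine ⟨d₁ + d₂, fun q p hq => ?_⟩
    obtain ⟨a, ha⟩ := h₁ q p hq
    obtain ⟨b, hb⟩ := h₂ q p hq
    refine ⟨(q : ℤ) ^ d₂ * a + (q : ℤ) ^ d₁ * b, ?_⟩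
    push_cast
    rw [ha, hb, map_add, pow_add]
    ring
  | mul_X P i hP =>
    obtain ⟨d, hd⟩ := hP
    refine ⟨d + 1, fun q p hq => ?_⟩
    obtain ⟨a, ha⟩ := hd q p hq
    refine ⟨a * p i, ?_⟩
    have hq0 : (q : ℂ) ≠ 0 := by
      have : q ≠ 0 := by omega
      exact_mod_cast this
    push_cast
    rw [ha, map_mul, aeval_X]
    simp only [rat]
    rw [pow_succ]
    field_simp

/-- PW-27b -/
theorem sep_alg {s : Fin r → ℝ} (hs : Sep s) (P : MvPolynomial (Fin r) ℤ)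
    (hP : aeval (cs s) P = 0) : P = 0 := by
  set h : (Fin r → ℂ) → ℂ := fun t => aeval t P with hh
  have han : ∀ t, AnalyticAt ℂ h t := by
    intro t
    exact AnalyticAt.aeval_mvPolynomial (f := fun t : Fin r → ℂ => t)
      (fun i => (ContinuousLinearMap.proj (R := ℂ) (φ := fun _ : Fin r => ℂ) i).analyticAt t) P
  have hev : ∀ᶠ t in 𝓝 (cs s), h t = 0 := by
    apply zero_lemma hs h (han _)
    obtain ⟨d, hd⟩ := zeroLemma_den P
    have hO := (han (cs s)).differentiableAt.isBigO_sub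
    obtain ⟨C, hC⟩ := hO.bound
    rw [Metric.eventually_nhds_iff] at hC
    obtain ⟨δ, hδ, hC⟩ := hC
    obtain ⟨M₁, hM₁⟩ := zeroLemma_small hδ
    obtain ⟨k, hk⟩ := exists_nat_gt (|C| + 1)
    refine ⟨M₁ + (d + k), fun m hm q hq p happ => ?_⟩
    obtain ⟨a, ha⟩ := hd q p (by omega)
    have hq2 : (2 : ℝ) ≤ (q : ℝ) := by exact_mod_cast hq
    have hq0 : (0 : ℝ) < (q : ℝ) := by linarith
    have hdist : ‖rat q p - cs s‖ ≤ Real.exp (-((q : ℝ) ^ m)) := by
      rw [pi_norm_le_iff_of_nonneg (Real.exp_pos _).le]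
      intro i
      rw [zeroLemma_norm]
      exact (happ.2.1 i).le
    have hdist2 : dist (rat q p) (cs s) < δ := by
      rw [dist_eq_norm]
      exact hdist.trans_lt (hM₁ m (by omega) q hq)
    have hb := hC hdist2
    have hs0 : h (cs s) = 0 := hP
    rw [hs0, sub_zero] at hb
    have hnorm : ‖(a : ℂ)‖ = (q : ℝ) ^ d * ‖h (rat q p)‖ := by
      rw [ha, norm_mul, norm_pow, Complex.norm_natCast]
    have hle : ‖(a : ℂ)‖ < 1 := by
      rw [hnorm]
      have h1 : ‖h (rat q p)‖ ≤ |C| * Real.exp (-((q : ℝ) ^ m)) :=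
        hb.trans ((mul_le_mul_of_nonneg_right (le_abs_self C) (norm_nonneg _)).trans
          (mul_le_mul_of_nonneg_left hdist (abs_nonneg C)))
      have h2 : (q : ℝ) ^ d * |C| < Real.exp ((q : ℝ) ^ m) := by
        have h3 : (q : ℝ) ^ m + 1 ≤ Real.exp ((q : ℝ) ^ m) := Real.add_one_le_exp _
        have h4 : (q : ℝ) ^ (d + k) ≤ (q : ℝ) ^ m :=
          pow_le_pow_right₀ (by linarith) (by omega)
        have h5 : |C| ≤ (q : ℝ) ^ k := by
          have h6 : (k : ℝ) < 2 ^ k := by exact_mod_cast Nat.lt_two_pow_self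
          have h7 : (2 : ℝ) ^ k ≤ (q : ℝ) ^ k := pow_le_pow_left₀ (by norm_num) hq2 k
          linarith
        calc (q : ℝ) ^ d * |C| ≤ (q : ℝ) ^ d * (q : ℝ) ^ k :=
              mul_le_mul_of_nonneg_left h5 (by positivity)
          _ = (q : ℝ) ^ (d + k) := by rw [pow_add]
          _ < _ := by linarith
      have h3 : (q : ℝ) ^ d * ‖h (rat q p)‖ ≤
          (q : ℝ) ^ d * |C| * Real.exp (-((q : ℝ) ^ m)) := by
        rw [mul_assoc]
        exact mul_le_mul_of_nonneg_left h1 (by positivity)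
      refine h3.trans_lt ?_
      rw [Real.exp_neg, ← div_eq_mul_inv, div_lt_one (Real.exp_pos _)]
      exact h2
    have ha0 : a = 0 := by
      rw [Complex.norm_intCast] at hle
      have : |a| < 1 := by exact_mod_cast hle
      exact Int.abs_lt_one_iff.mp this
    rw [ha0, Int.cast_zero] at ha
    have hqd : (q : ℂ) ^ d ≠ 0 := by
      apply pow_ne_zero
      have : q ≠ 0 := by omega
      exact_mod_cast this
    exact (mul_eq_zero.mp ha.symm).resolve_left hqd
  rw [Metric.eventually_nhds_iff] at hev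
  obtain ⟨δ, hδ, hev⟩ := hev
  have hmap : MvPolynomial.map (Int.castRingHom ℂ) P = 0 := by
    refine MvPolynomial.funext_set (fun i : Fin r => Metric.ball (cs s i) δ) ?_ ?_
    · intro i
      exact infinite_of_mem_nhds (cs s i) (Metric.ball_mem_nhds _ hδ)
    · intro x hx
      rw [map_zero, eval_map]
      have hx2 : dist x (cs s) < δ := by
        rw [dist_pi_lt_iff hδ]
        intro i
        exact hx i (Set.mem_univ i)
      have := hev hx2
      simpa [hh, aeval_def] using this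
  exact (MvPolynomial.map_injective _ (RingHom.injective_int _)) (by rw [hmap, map_zero])

end Pool.Agent.helper82.PW
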