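import Mathlib
import Pool.Agent.helper82.PW.Defs
import Pool.Agent.helper82.PW.AiRk
import Pool.Agent.helper82.PW.Choice
import Pool.Agent.helper82.PW.Dio
import Pool.Agent.helper82.PW.Ift
import Pool.Agent.helper82.PW.Step1
import Pool.Agent.helper82.PW.Step5
import Pool.Agent.helper82.PW.VV
import Pool.Agent.helper82.PW.ZeroLemma

/-!
# The rank form of the theorem, and the theorem for finite tuples
-/

set_option autoImplicit false

namespace Pool.Agent.helper82.PW

open Complex MvPolynomial Topology Filter Pool.Agent.helper82.Sch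

variable {r n : ℕ}

theorem main_rk_an (M : Fin n → MvPolynomial (Fin r) ℤ) {Z : (Fin r → ℂ) → Fin n → ℂ}
    {t0 : Fin r → ℂ} (hZ : AnalyticAt ℂ Z t0) :
    AnalyticAt ℂ (fun t => FE t (Z t) (Sum.inr M)) t0 := by
  have h1 : ∀ i, AnalyticAt ℂ (fun t : Fin r → ℂ => (aeval t (M i) : ℂ)) t0 := by
    intro i
    have h3 := AnalyticAt.aeval_mvPolynomial (𝕜 := ℂ) (A := ℤ) (B := ℂ) (f := fun t : Fin r → ℂ => t)
      (z := t0) (fun i => (ContinuousLinearMap.proj (R := ℂ) (φ := fun _ : Fin r => ℂ) i).analyticAt t0) (M i)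
    exact h3
  have h2 : ∀ i, AnalyticAt ℂ (fun t => Z t i) t0 := by
    intro i
    exact (analyticAt_pi_iff.1 hZ) i
  exact Finset.analyticAt_fun_sum _ fun i _ => (h1 i).mul (h2 i)

/-- the rank form of the theorem -/
theorem main_rk {s : Fin r → ℝ} (hs : Sep s) (z : Fin n → ℂ) (hz : LinearIndependent ℚ z) :
    n ≤ rk (Set.range (cs s)) (fun i => exp (z i)) + dimK (KK s) z := by
  induction n using Nat.strong_induction_on with
  | _ n ih0 =>
  have ih : IH s n := fun ν hν z' hz' => ih0 ν hν z' hz'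
  by_contra hcon
  push Not at hcon
  have hnd := step1 s z hz ih hcon
  obtain ⟨τ, h0, hdet, hgrad⟩ := choice s z (fun P hP => sep_alg hs P hP) hnd
  obtain ⟨Z, hZ, hZs, hτ⟩ := ift (cs s) z τ h0 hdet
  refine step5 s z hz ih hcon τ hgrad Z hZ hZs (fun k P hk => ?_) (fun M hM => ?_)
  · filter_upwards [hτ] with t ht
    rw [← hk]
    exact ht k
  · exact zero_lemma hs _ (main_rk_an M hZ) (dio s z τ hdet Z hZ hZs hτ M hM)

theorem main_fin {s : Fin r → ℝ} (hs : Sep s) (z : Fin n → ℂ) (hz : LinearIndependent ℚ z) :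
    ∃ e : Fin (n - dimK (KK s) z) ↪ Fin n,
      AlgebraicIndependent (KK s) (fun i => exp (z (e i))) := by
  refine ai_of_rk (KK s) (fun i => exp (z i)) ?_
  have h1 := main_rk hs z hz
  have h2 : rk (KK s : Set ℂ) (fun i => exp (z i)) =
      rk (Set.range (cs s)) (fun i => exp (z i)) := rk_adjoin _ _
  rw [h2]
  omega

end Pool.Agent.helper82.PW
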