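import Mathlib
import Pool.Agent.helper82.PW.Defs
import Pool.Agent.helper82.PW.Main

/-!
# PW-30: from finite to infinite sets of exponents
-/

set_option autoImplicit false

namespace Pool.Agent.helper82.PW

open Complex Pool.Agent.helper82.Sch

variable {r n : ℕ}

theorem exists_fin_of_mem {A : Set ℂ} {x : ℂ} (hx : x ∈ IntermediateField.adjoin ℚ A) :
    ∃ T ⊆ A, T.Finite ∧ x ∈ IntermediateField.adjoin ℚ T := by
  obtain ⟨T, hT, hx'⟩ := IntermediateField.exists_finset_of_mem_adjoin hx
  exact ⟨T, hT, T.finite_toSet, hx'⟩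

theorem ai_restrict {K K' : IntermediateField ℚ ℂ} (h : K ≤ K') {ι : Type} {x : ι → ℂ}
    (hx : AlgebraicIndependent K' x) : AlgebraicIndependent K x := by
  let _ : Algebra K K' := (IntermediateField.inclusion h).toRingHom.toAlgebra
  have : IsScalarTower K K' ℂ := IsScalarTower.of_algebraMap_eq (fun _ => rfl)
  exact AlgebraicIndependent.restrictScalars (R := K) (K := K')
    (IntermediateField.inclusion h).injective hx

/-- algebraic dependence over `ℚ(A)` is algebraic dependence over `ℚ(T)`, `T` finite -/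
theorem dep_fin {A : Set ℂ} {ι : Type} {x : ι → ℂ}
    (h : ¬ AlgebraicIndependent (IntermediateField.adjoin ℚ A) x) :
    ∃ T ⊆ A, T.Finite ∧ ¬ AlgebraicIndependent (IntermediateField.adjoin ℚ T) x := by
  rw [algebraicIndependent_iff] at h
  push Not at h
  obtain ⟨p, hp, hp0⟩ := h
  have hex : ∀ c : IntermediateField.adjoin ℚ A, ∃ T ⊆ A, T.Finite ∧
      (c : ℂ) ∈ IntermediateField.adjoin ℚ T := fun c => exists_fin_of_mem c.2
  choose T hTA hTf hTc using hex
  set U : Set ℂ := ⋃ c ∈ p.coeffs, T c with hU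
  have hUA : U ⊆ A := Set.iUnion₂_subset fun c _ => hTA c
  have hUf : U.Finite := p.coeffs.finite_toSet.biUnion fun c _ => hTf c
  have hle : IntermediateField.adjoin ℚ U ≤ IntermediateField.adjoin ℚ A :=
    IntermediateField.adjoin.mono ℚ U A hUA
  have hran : p ∈ Set.range (MvPolynomial.map
      ((IntermediateField.inclusion hle).toRingHom)) := by
    rw [MvPolynomial.mem_range_map_iff_coeffs_subset]
    intro c hc
    have h1 : (c : ℂ) ∈ IntermediateField.adjoin ℚ U :=
      IntermediateField.adjoin.mono ℚ (T c) U (Set.subset_biUnion_of_mem (u := T) hc) (hTc c)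
    exact ⟨⟨c, h1⟩, Subtype.ext rfl⟩
  obtain ⟨p', hp'⟩ := hran
  refine ⟨U, hUA, hUf, ?_⟩
  rw [algebraicIndependent_iff]
  push Not
  refine ⟨p', ?_, ?_⟩
  · rw [← hp', MvPolynomial.aeval_def, MvPolynomial.eval₂_map] at hp
    rw [MvPolynomial.aeval_def]
    exact hp
  · rintro rfl
    exact hp0 (by rw [← hp', map_zero])

theorem dimK_le_of_fin (A : Set ℂ) (z : Fin n → ℂ) :
    ∃ T ⊆ A, T.Finite ∧ ∀ K' : IntermediateField ℚ ℂ, IntermediateField.adjoin ℚ T ≤ K' →
      dimK K' z ≤ dimK (IntermediateField.adjoin ℚ A) z := by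
  set K := IntermediateField.adjoin ℚ A with hK
  have : Module.Finite K (Submodule.span K (Set.range z)) :=
    Module.Finite.span_of_finite K (Set.finite_range z)
  obtain ⟨f, hf1, hf2, -⟩ := Submodule.exists_fun_fin_finrank_span_eq K (Set.range z)
  have hz : ∀ i, ∃ c : Fin (Module.finrank K (Submodule.span K (Set.range z))) → K,
      ∑ j, c j • f j = z i := by
    intro i
    rw [← Submodule.mem_span_range_iff_exists_fun, hf2]
    exact Submodule.subset_span ⟨i, rfl⟩
  choose c hc using hz
  have hex : ∀ i j, ∃ T ⊆ A, T.Finite ∧ ((c i j : K) : ℂ) ∈ IntermediateField.adjoin ℚ T :=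
    fun i j => exists_fin_of_mem (c i j).2
  choose T hTA hTf hTc using hex
  refine ⟨⋃ i, ⋃ j, T i j, ?_, ?_, ?_⟩
  · exact Set.iUnion_subset fun i => Set.iUnion_subset fun j => hTA i j
  · exact Set.finite_iUnion fun i => Set.finite_iUnion fun j => hTf i j
  · intro K' hK'
    have hmem : ∀ i j, ((c i j : K) : ℂ) ∈ K' := fun i j =>
      hK' (IntermediateField.adjoin.mono ℚ (T i j) _
        ((Set.subset_iUnion (fun j => T i j) j).trans
          (Set.subset_iUnion (fun i => ⋃ j, T i j) i)) (hTc i j))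
    have hsub : Submodule.span K' (Set.range z) ≤ Submodule.span K' (Set.range f) := by
      rw [Submodule.span_le]
      rintro _ ⟨i, rfl⟩
      rw [SetLike.mem_coe, Submodule.mem_span_range_iff_exists_fun]
      refine ⟨fun j => ⟨_, hmem i j⟩, ?_⟩
      rw [← hc i]
      rfl
    have h1 : Module.finrank K' (Submodule.span K' (Set.range z)) ≤
        Module.finrank K' (Submodule.span K' (Set.range f)) := by
      have : Module.Finite K' (Submodule.span K' (Set.range f)) :=
        Module.Finite.span_of_finite K' (Set.finite_range f)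
      exact Submodule.finrank_mono hsub
    have h2 : Module.finrank K' (Submodule.span K' (Set.range f)) ≤
        Module.finrank K (Submodule.span K (Set.range z)) := by
      have := finrank_range_le_card (R := K') f
      rw [Fintype.card_fin] at this
      exact this
    exact h1.trans h2

theorem finite_preimage {S : Set ℝ} {T : Set ℂ} (hT : T ⊆ (fun x : ℝ => (x : ℂ)) '' S)
    (hTf : T.Finite) : ∃ T' ⊆ S, T'.Finite ∧ (fun x : ℝ => (x : ℂ)) '' T' = T := by
  obtain ⟨T', hT', rfl⟩ := Set.subset_image_iff.1 hT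
  exact ⟨T', hT', Set.Finite.of_finite_image hTf Complex.ofReal_injective.injOn, rfl⟩

/-- PW-30 -/
theorem main_inf {S : Set ℝ} (hS : Good S) (z : Fin n → ℂ) (hz : LinearIndependent ℚ z) :
    ∃ e : Fin (n - dimK (KS S) z) ↪ Fin n,
      AlgebraicIndependent (KS S) (fun i => exp (z (e i))) := by
  classical
  by_contra hcon
  push Not at hcon
  obtain ⟨T0, hT0A, hT0f, hT0⟩ := dimK_le_of_fin ((fun x : ℝ => (x : ℂ)) '' S) z
  obtain ⟨T0', hT0'S, hT0'f, hT0'⟩ := finite_preimage hT0A hT0f
  have hex : ∀ e : Fin (n - dimK (KS S) z) ↪ Fin n, ∃ T' ⊆ S, T'.Finite ∧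
      ¬ AlgebraicIndependent (IntermediateField.adjoin ℚ ((fun x : ℝ => (x : ℂ)) '' T'))
        (fun i => exp (z (e i))) := by
    intro e
    obtain ⟨T, hTA, hTf, hT⟩ := dep_fin (hcon e)
    obtain ⟨T', hT'S, hT'f, hT'⟩ := finite_preimage hTA hTf
    refine ⟨T', hT'S, hT'f, ?_⟩
    rw [hT']
    exact hT
  choose T hTS hTf hT using hex
  obtain ⟨r, s, hs, hsub, hsS⟩ := hS (T0' ∪ ⋃ e, T e) (hT0'f.union (Set.finite_iUnion hTf))
    (Set.union_subset hT0'S (Set.iUnion_subset hTS))
  have hrange : Set.range (cs s) = (fun x : ℝ => (x : ℂ)) '' Set.range s := by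
    rw [← Set.range_comp]
    rfl
  have hle : ∀ B : Set ℝ, B ⊆ Set.range s →
      IntermediateField.adjoin ℚ ((fun x : ℝ => (x : ℂ)) '' B) ≤ KK s := by
    intro B hB
    unfold KK
    rw [hrange]
    exact IntermediateField.adjoin.mono ℚ _ _ (Set.image_mono hB)
  have hdim : dimK (KK s) z ≤ dimK (KS S) z := by
    apply hT0
    rw [← hT0']
    exact hle _ (Set.subset_union_left.trans hsub)
  obtain ⟨e0, he0⟩ := main_fin hs z hz
  have hcard : n - dimK (KS S) z ≤ n - dimK (KK s) z := by omega
  let e : Fin (n - dimK (KS S) z) ↪ Fin n := (Fin.castLEEmb hcard).trans e0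
  refine hT e (ai_restrict (hle (T e) ?_) ?_)
  · exact (Set.subset_iUnion T e).trans (Set.subset_union_right.trans hsub)
  · exact he0.comp (Fin.castLEEmb hcard) (Fin.castLEEmb hcard).injective

end Pool.Agent.helper82.PW
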