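import Mathlib
import Pool.Agent.helper82.PW.Defs
import Pool.Agent.helper82.PW.Inf
import Pool.Agent.helper82.PW.ZeroLemma

/-!
# One hyper-Liouville number and its powers
-/

set_option autoImplicit false

namespace Pool.Agent.helper82.PW

open Complex MvPolynomial Topology Filter

/-- hyper-Liouville numbers -/
def HypL (l : ℝ) : Prop :=
  ∀ m : ℕ, ∃ (q : ℕ) (p : ℤ), 2 ≤ q ∧ l ≠ (p : ℝ) / (q : ℝ) ∧
    |l - (p : ℝ) / (q : ℝ)| < Real.exp (-((q : ℝ) ^ m))

theorem hypL_sep {l : ℝ} (hl : HypL l) : Sep (fun _ : Fin 1 => l) := by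
  intro m
  obtain ⟨q, p, hq, h1, h2⟩ := hl m
  refine ⟨q, hq, fun _ => p, fun _ => h1, fun _ => h2, ?_⟩
  intro i j hij
  exact absurd hij (by omega)

theorem hypL_good {l : ℝ} (hl : HypL l) : Good {l} := by
  intro T _ hT
  refine ⟨1, fun _ => l, hypL_sep hl, ?_, ?_⟩
  · intro x hx
    exact ⟨0, (hT hx).symm⟩
  · rintro _ ⟨_, rfl⟩
    rfl

theorem hypL_tr {l : ℝ} (hl : HypL l) : Transcendental ℚ (l : ℂ) := by
  have h1 : AlgebraicIndependent ℤ (cs fun _ : Fin 1 => l) := by
    rw [algebraicIndependent_iff]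
    exact fun P hP => sep_alg (hypL_sep hl) P hP
  have h2 : Transcendental ℤ (l : ℂ) := by
    have := algebraicIndependent_unique_type_iff.1 h1
    exact this
  intro h3
  exact h2 ((IsFractionRing.isAlgebraic_iff ℤ ℚ ℂ).2 h3)

theorem powers_li {l : ℝ} (hl : HypL l) {w : ℂ} (hw : w ≠ 0) (n : ℕ) :
    LinearIndependent ℚ (fun i : Fin n => w * (l : ℂ) ^ (i : ℕ)) := by
  have h1 : LinearIndependent ℚ (fun i : ℕ => (l : ℂ) ^ i) := by
    have h2 := (Polynomial.basisMonomials ℚ).linearIndependent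
    have h3 := h2.map' (Polynomial.aeval (l : ℂ)).toLinearMap (by
      rw [LinearMap.ker_eq_bot]
      exact transcendental_iff_injective.1 (hypL_tr hl))
    have h4 : (Polynomial.aeval (l : ℂ) : Polynomial ℚ →ₐ[ℚ] ℂ).toLinearMap ∘
        (Polynomial.basisMonomials ℚ) = fun i : ℕ => (l : ℂ) ^ i := by
      funext i
      simp
    rw [h4] at h3
    exact h3
  have h2 : LinearIndependent ℚ (fun i : Fin n => (l : ℂ) ^ (i : ℕ)) :=
    h1.comp (fun i : Fin n => (i : ℕ)) Fin.val_injective
  have h3 := h2.map' (LinearMap.mulLeft ℚ w) (by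
    rw [LinearMap.ker_eq_bot]
    exact fun a b hab => mul_left_cancel₀ hw hab)
  exact h3

theorem powers_dim {l : ℝ} (w : ℂ) (n : ℕ) :
    dimK (KS {l}) (fun i : Fin n => w * (l : ℂ) ^ (i : ℕ)) ≤ 1 := by
  have hlK : (l : ℂ) ∈ KS {l} :=
    IntermediateField.subset_adjoin ℚ _ ⟨l, rfl, rfl⟩
  have h1 : Submodule.span (KS {l}) (Set.range fun i : Fin n => w * (l : ℂ) ^ (i : ℕ)) ≤
      Submodule.span (KS {l}) ({w} : Set ℂ) := by
    rw [Submodule.span_le]
    rintro _ ⟨i, rfl⟩
    rw [SetLike.mem_coe, Submodule.mem_span_singleton]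
    refine ⟨⟨(l : ℂ) ^ (i : ℕ), pow_mem hlK _⟩, ?_⟩
    show (l : ℂ) ^ (i : ℕ) * w = _
    ring
  have h2 : Module.Finite (KS {l}) (Submodule.span (KS {l}) ({w} : Set ℂ)) :=
    Module.Finite.span_singleton _ _
  have h3 := finrank_span_le_card (R := KS {l}) ({w} : Set ℂ)
  exact (Submodule.finrank_mono h1).trans (h3.trans (by simp))

/-- powers of a number whose exponential is algebraic over `ℚ(l)` -/
theorem powers_ai {l : ℝ} (hl : HypL l) {w : ℂ} (hw : w ≠ 0)
    (halg : IsAlgebraic (KS {l}) (exp w)) :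
    AlgebraicIndependent (KS {l}) (fun k : ℕ => exp (w * (l : ℂ) ^ (k + 1))) := by
  have hfin : ∀ n : ℕ,
      AlgebraicIndependent (KS {l}) (fun k : Fin n => exp (w * (l : ℂ) ^ ((k : ℕ) + 1))) := by
    intro n
    obtain ⟨e, he⟩ := main_inf (hypL_good hl) _ (powers_li hl hw (n + 1))
    have hd := powers_dim (l := l) w (n + 1)
    have he0 : ∀ i, e i ≠ 0 := by
      intro i hi
      have h1 := he.transcendental i
      apply h1
      rw [hi]
      simpa using halg
    -- restrict to `n` elements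
    let g : Fin n → Fin n := fun i => (e (Fin.castLE (by omega) i)).pred (he0 _)
    have hg : Function.Injective g := by
      intro i j hij
      have h1 := Fin.pred_inj.1 hij
      have h2 := e.injective h1
      exact Fin.castLE_injective _ h2
    have hgb : Function.Bijective g := Finite.injective_iff_bijective.1 hg
    let E := Equiv.ofBijective g hgb
    have h3 := he.comp (fun i : Fin n => Fin.castLE (by omega) (E.symm i)) (by
      intro i j hij
      have := Fin.castLE_injective _ hij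
      exact E.symm.injective this)
    have h4 : ((fun i => exp (w * (l : ℂ) ^ ((e i : Fin (n + 1)) : ℕ))) ∘
        fun i : Fin n => Fin.castLE (by omega) (E.symm i)) =
        fun k : Fin n => exp (w * (l : ℂ) ^ ((k : ℕ) + 1)) := by
      funext k
      have h5 : g (E.symm k) = k := E.apply_symm_apply k
      have h6 : e (Fin.castLE (by omega) (E.symm k)) = k.succ := by
        have h7 : e (Fin.castLE (by omega) (E.symm k)) = (g (E.symm k)).succ :=
          (Fin.succ_pred _ _).symm
        rw [h7, h5]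
      simp only [Function.comp_apply, h6, Fin.val_succ]
    rw [h4] at h3
    exact h3
  rw [algebraicIndependent_iff]
  intro P hP
  -- finitely many variables
  obtain ⟨N, hN⟩ : ∃ N : ℕ, ∀ i ∈ P.vars, i < N :=
    ⟨P.vars.sup id + 1, fun i hi => Nat.lt_succ_of_le (Finset.le_sup (f := id) hi)⟩
  have h1 : P ∈ (MvPolynomial.rename (fun i : Fin N => (i : ℕ)) :
      MvPolynomial (Fin N) (KS {l}) →ₐ[KS {l}] _).range := by
    have h2 := MvPolynomial.mem_supported_vars P
    have h3 : (P.vars : Set ℕ) ⊆ Set.range (fun i : Fin N => (i : ℕ)) := by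
      intro i hi
      exact ⟨⟨i, hN i hi⟩, rfl⟩
    have h4 := MvPolynomial.supported_mono (R := KS {l}) h3 h2
    rw [MvPolynomial.supported_eq_range_rename] at h4
    obtain ⟨Q, hQ⟩ := h4
    refine ⟨MvPolynomial.rename (fun x : Set.range (fun i : Fin N => (i : ℕ)) =>
      (⟨x.1, by obtain ⟨i, hi⟩ := x.2; rw [← hi]; exact i.2⟩ : Fin N)) Q, ?_⟩
    have h5 : (MvPolynomial.rename (fun i : Fin N => (i : ℕ))) (MvPolynomial.rename
        (fun x : Set.range (fun i : Fin N => (i : ℕ)) =>
        (⟨x.1, by obtain ⟨i, hi⟩ := x.2; rw [← hi]; exact i.2⟩ : Fin N)) Q) =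
        MvPolynomial.rename ((↑) : Set.range (fun i : Fin N => (i : ℕ)) → ℕ) Q := by
      rw [MvPolynomial.rename_rename]
      rfl
    exact h5.trans hQ
  obtain ⟨Q, rfl⟩ := h1
  have h2 : MvPolynomial.aeval (fun k : Fin N => exp (w * (l : ℂ) ^ ((k : ℕ) + 1))) Q = 0 := by
    have h3 : MvPolynomial.aeval (fun k : ℕ => exp (w * (l : ℂ) ^ (k + 1)))
      (MvPolynomial.rename (fun i : Fin N => (i : ℕ)) Q) = 0 := hP
    rw [MvPolynomial.aeval_rename] at h3
    exact h3
  have h3 := (algebraicIndependent_iff.1 (hfin N)) Q h2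
  show MvPolynomial.rename (fun i : Fin N => (i : ℕ)) Q = 0
  rw [h3, map_zero]

end Pool.Agent.helper82.PW
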