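import Mathlib
import Pool.Agent.helper82.PW.Defs

/-!
# Raising to powers: an explicit set of the cardinality of the continuum
-/

set_option autoImplicit false

namespace Pool.Agent.helper82.PW

open Filter Topology

theorem Example_tower_two (k : ℕ) : 2 ≤ tower k := by
  induction k with
  | zero => exact le_rfl
  | succ k ih =>
    show 2 ≤ 2 ^ tower k ^ 3
    calc 2 = 2 ^ 1 := by norm_num
      _ ≤ 2 ^ tower k ^ 3 := Nat.pow_le_pow_right (by norm_num)
          (Nat.one_le_iff_ne_zero.mpr (pow_ne_zero _ (by omega)))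

theorem Example_tower_succ (k : ℕ) : tower k + 1 ≤ tower (k + 1) := by
  show tower k + 1 ≤ 2 ^ tower k ^ 3
  have h1 : tower k < 2 ^ tower k := Nat.lt_two_pow_self
  have h2 : (2 : ℕ) ^ tower k ≤ 2 ^ tower k ^ 3 :=
    Nat.pow_le_pow_right (by norm_num) (Nat.le_self_pow (by norm_num) _)
  omega

theorem Example_tower_mono : Monotone tower :=
  monotone_nat_of_le_succ fun k => by
    have := Example_tower_succ k
    omega

theorem Example_tower_ge (k : ℕ) : k ≤ tower k := by
  induction k with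
  | zero => exact Nat.zero_le _
  | succ k ih =>
    have := Example_tower_succ k
    omega

theorem Example_tower_tendsto : Tendsto (fun k => (tower k : ℝ)) atTop atTop := by
  refine tendsto_natCast_atTop_atTop.comp ?_
  exact tendsto_atTop_mono Example_tower_ge tendsto_id

/-- the exponents -/
noncomputable def Example_e (x : ℝ) (k : ℕ) : ℕ := ⌊(tower k : ℝ) ^ x⌋₊

theorem Example_e_succ {x : ℝ} (hx : 1 ≤ x) (k : ℕ) : Example_e x k + 1 ≤ Example_e x (k + 1) := by
  have ha2 : (2 : ℝ) ≤ (tower k : ℝ) := by exact_mod_cast Example_tower_two k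
  have ha0 : (0 : ℝ) < (tower k : ℝ) := by linarith
  have hb : (tower k : ℝ) + 1 ≤ (tower (k + 1) : ℝ) := by exact_mod_cast Example_tower_succ k
  have h1 : (tower k : ℝ) ^ x + 1 ≤ (tower (k + 1) : ℝ) ^ x := by
    calc (tower k : ℝ) ^ x + 1 ≤ (tower k : ℝ) ^ x + (tower k : ℝ) ^ (x - 1) := by
          have : (1 : ℝ) ≤ (tower k : ℝ) ^ (x - 1) :=
            Real.one_le_rpow (by linarith) (by linarith)
          linarith
      _ = (tower k : ℝ) ^ (x - 1) * ((tower k : ℝ) + 1) := by
          have : (tower k : ℝ) ^ x = (tower k : ℝ) ^ (x - 1) * (tower k : ℝ) := by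
            rw [← Real.rpow_add_one ha0.ne']
            congr 1
            ring
          rw [this]
          ring
      _ ≤ ((tower k : ℝ) + 1) ^ (x - 1) * ((tower k : ℝ) + 1) := by
          apply mul_le_mul_of_nonneg_right _ (by linarith)
          exact Real.rpow_le_rpow ha0.le (by linarith) (by linarith)
      _ = ((tower k : ℝ) + 1) ^ x := by
          rw [← Real.rpow_add_one (by linarith)]
          congr 1
          ring
      _ ≤ (tower (k + 1) : ℝ) ^ x := Real.rpow_le_rpow (by linarith) hb (by linarith)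
  have h0 : (0 : ℝ) ≤ (tower k : ℝ) ^ x := Real.rpow_nonneg ha0.le x
  unfold Example_e
  rw [← Nat.floor_add_one h0]
  exact Nat.floor_le_floor h1

theorem Example_e_add {x : ℝ} (hx : 1 ≤ x) (k j : ℕ) :
    Example_e x k + j ≤ Example_e x (j + k) := by
  induction j with
  | zero => simp
  | succ j ih =>
    have := Example_e_succ hx (j + k)
    have e : j + 1 + k = j + k + 1 := by ring
    rw [e]
    omega

/-- the tails -/
noncomputable def Example_D (x : ℝ) (k : ℕ) : ℝ := ∑' j : ℕ, ((2 : ℝ) ^ Example_e x (j + k))⁻¹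

theorem Example_term_le {x : ℝ} (hx : 1 ≤ x) (k j : ℕ) :
    ((2 : ℝ) ^ Example_e x (j + k))⁻¹ ≤ ((2 : ℝ) ^ Example_e x k)⁻¹ * (1 / 2) ^ j := by
  rw [one_div, inv_pow, ← mul_inv, ← pow_add]
  exact inv_anti₀ (by positivity) (pow_le_pow_right₀ (by norm_num) (Example_e_add hx k j))

theorem Example_summable {x : ℝ} (hx : 1 ≤ x) (k : ℕ) :
    Summable fun j : ℕ => ((2 : ℝ) ^ Example_e x (j + k))⁻¹ :=
  Summable.of_nonneg_of_le (fun j => by positivity) (Example_term_le hx k)
    (summable_geometric_two.mul_left _)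

theorem Example_D_le {x : ℝ} (hx : 1 ≤ x) (k : ℕ) :
    Example_D x k ≤ 2 * ((2 : ℝ) ^ Example_e x k)⁻¹ := by
  have h := Summable.tsum_le_tsum (Example_term_le hx k) (Example_summable hx k)
    (summable_geometric_two.mul_left _)
  rw [tsum_mul_left, tsum_geometric_two] at h
  unfold Example_D
  linarith

theorem Example_le_D {x : ℝ} (hx : 1 ≤ x) (k : ℕ) :
    ((2 : ℝ) ^ Example_e x k)⁻¹ ≤ Example_D x k := by
  have h := (Example_summable hx k).le_tsum 0 (fun j _ => by positivity)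
  rw [Nat.zero_add] at h
  exact h

theorem Example_D_pos {x : ℝ} (hx : 1 ≤ x) (k : ℕ) : 0 < Example_D x k :=
  lt_of_lt_of_le (by positivity) (Example_le_D hx k)

theorem Example_lamb {x : ℝ} (hx : 1 ≤ x) (k : ℕ) :
    lamb x = ∑ j ∈ Finset.range k, ((2 : ℝ) ^ Example_e x j)⁻¹ + Example_D x k := by
  have h := (Example_summable hx 0).sum_add_tsum_nat_add k
  simp only [Nat.add_zero] at h
  unfold lamb Example_D
  unfold Example_e at h ⊢
  rw [h]

/-- the numerators -/
noncomputable def Example_p (x : ℝ) (k : ℕ) : ℤ :=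
  ∑ j ∈ Finset.range (k + 1), 2 ^ (tower k ^ 2 - Example_e x j)

theorem Example_e_le {x : ℝ} (hx : x ≤ 2) {j k : ℕ} (hj : j ≤ k) :
    Example_e x j ≤ tower k ^ 2 := by
  have ha2 : (2 : ℝ) ≤ (tower j : ℝ) := by exact_mod_cast Example_tower_two j
  have hab : (tower j : ℝ) ≤ (tower k : ℝ) := by exact_mod_cast Example_tower_mono hj
  have h1 : (tower j : ℝ) ^ x ≤ ((tower k ^ 2 : ℕ) : ℝ) := by
    calc (tower j : ℝ) ^ x ≤ (tower j : ℝ) ^ (2 : ℝ) :=
          Real.rpow_le_rpow_of_exponent_le (by linarith) hx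
      _ = (tower j : ℝ) ^ 2 := by
          rw [← Real.rpow_natCast]
          norm_num
      _ ≤ (tower k : ℝ) ^ 2 := by
          apply pow_le_pow_left₀ (by linarith) hab
      _ = ((tower k ^ 2 : ℕ) : ℝ) := by push_cast; rfl
  have h2 := Nat.floor_le_floor h1
  rwa [Nat.floor_natCast] at h2

theorem Example_head {x : ℝ} (hx : x ≤ 2) (k : ℕ) :
    ∑ j ∈ Finset.range (k + 1), ((2 : ℝ) ^ Example_e x j)⁻¹ =
      (Example_p x k : ℝ) / ((2 ^ tower k ^ 2 : ℕ) : ℝ) := by
  unfold Example_p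
  push_cast
  rw [Finset.sum_div]
  apply Finset.sum_congr rfl
  intro j hj
  have hj' : j ≤ k := by
    have := Finset.mem_range.mp hj
    omega
  have h := Example_e_le hx hj'
  rw [pow_sub₀ _ (by norm_num) h]
  field_simp

theorem Example_sub {x : ℝ} (hx : 1 ≤ x) (hx' : x ≤ 2) (k : ℕ) :
    lamb x - (Example_p x k : ℝ) / ((2 ^ tower k ^ 2 : ℕ) : ℝ) = Example_D x (k + 1) := by
  rw [Example_lamb hx (k + 1), Example_head hx' k]
  ring

theorem Example_small {x : ℝ} (hx : 1 ≤ x) (m k : ℕ) (hm : m + 1 ≤ tower k) :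
    Example_D x (k + 1) < Real.exp (-((((2 ^ tower k ^ 2 : ℕ) : ℝ)) ^ m)) := by
  set a := tower k with ha
  have ha2 : 2 ≤ a := Example_tower_two k
  have hA : tower (k + 1) = 2 ^ a ^ 3 := rfl
  -- the exponent is at least `2 ^ (a ^ 3)`
  have h1 : 2 ^ a ^ 3 ≤ Example_e x (k + 1) := by
    have h2 : (2 : ℝ) ≤ (tower (k + 1) : ℝ) := by exact_mod_cast Example_tower_two (k + 1)
    have h3 : ((tower (k + 1) : ℕ) : ℝ) ≤ (tower (k + 1) : ℝ) ^ x := by
      calc ((tower (k + 1) : ℕ) : ℝ) = (tower (k + 1) : ℝ) ^ (1 : ℝ) := by rw [Real.rpow_one]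
        _ ≤ (tower (k + 1) : ℝ) ^ x := Real.rpow_le_rpow_of_exponent_le (by linarith) hx
    have h4 := Nat.floor_le_floor h3
    rw [Nat.floor_natCast, hA] at h4
    exact h4
  have h5 : 16 * (2 ^ a ^ 2) ^ m ≤ 2 ^ a ^ 3 := by
    have h6 : (m + 1) * a ^ 2 ≤ a ^ 3 := by
      calc (m + 1) * a ^ 2 ≤ a * a ^ 2 := Nat.mul_le_mul_right _ hm
        _ = a ^ 3 := by ring
    have h7 : 4 ≤ a ^ 2 := by nlinarith
    calc 16 * (2 ^ a ^ 2) ^ m = 2 ^ 4 * (2 ^ a ^ 2) ^ m := by norm_num
      _ = 2 ^ (4 + a ^ 2 * m) := by rw [pow_add, pow_mul]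
      _ ≤ 2 ^ a ^ 3 := by
          apply Nat.pow_le_pow_right (by norm_num)
          nlinarith
  set Q : ℕ := (2 ^ a ^ 2) ^ m with hQ
  have hQ1 : 1 ≤ Q := Nat.one_le_iff_ne_zero.mpr (by positivity)
  have h8 : (2 : ℝ) ^ (2 * Q + 2) ≤ (2 : ℝ) ^ Example_e x (k + 1) := by
    apply pow_le_pow_right₀ (by norm_num)
    omega
  have h9 : Example_D x (k + 1) ≤ 2 * ((2 : ℝ) ^ (2 * Q + 2))⁻¹ := by
    refine (Example_D_le hx (k + 1)).trans ?_
    apply mul_le_mul_of_nonneg_left _ (by norm_num)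
    exact inv_anti₀ (by positivity) h8
  refine lt_of_le_of_lt h9 ?_
  have h10 : (((2 ^ a ^ 2 : ℕ) : ℝ)) ^ m = (Q : ℝ) := by
    rw [hQ]
    push_cast
    rfl
  rw [h10, Real.exp_neg]
  have h11 : Real.exp (Q : ℝ) ≤ 4 ^ Q := by
    have : Real.exp (Q : ℝ) = Real.exp 1 ^ Q := by
      rw [← Real.exp_nat_mul]
      ring_nf
    rw [this]
    apply pow_le_pow_left₀ (Real.exp_pos 1).le
    have := Real.exp_one_lt_d9
    linarith
  have h12 : 2 * ((2 : ℝ) ^ (2 * Q + 2))⁻¹ = (2 * 4 ^ Q)⁻¹ := by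
    rw [pow_add, pow_mul]
    norm_num
    ring
  rw [h12]
  apply inv_strictAnti₀ (Real.exp_pos _)
  have h13 : (0 : ℝ) < 4 ^ Q := by positivity
  linarith

theorem Example_sep {x y : ℝ} (hx : 1 ≤ x) (hxy : x < y) (m : ℕ) :
    ∀ᶠ k in atTop, Example_D y (k + 1) ≤ Example_D x (k + 1) ^ m := by
  have h0 : Tendsto (fun k => (tower (k + 1) : ℝ) ^ (y - x)) atTop atTop :=
    (tendsto_rpow_atTop (by linarith)).comp
      (Example_tower_tendsto.comp (tendsto_add_atTop_nat 1))
  filter_upwards [h0.eventually_ge_atTop ((m : ℝ) + 1)] with k hk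
  have ha2 : (2 : ℝ) ≤ (tower (k + 1) : ℝ) := by exact_mod_cast Example_tower_two (k + 1)
  set A : ℝ := (tower (k + 1) : ℝ) with hA
  have h1 : (2 : ℝ) ≤ A ^ x := by
    calc (2 : ℝ) ≤ A := ha2
      _ = A ^ (1 : ℝ) := by rw [Real.rpow_one]
      _ ≤ A ^ x := Real.rpow_le_rpow_of_exponent_le (by linarith) hx
  have h2 : A ^ y = A ^ x * A ^ (y - x) := by
    rw [← Real.rpow_add (by linarith)]
    congr 1
    ring
  have h3 : (m : ℝ) * A ^ x + 2 ≤ A ^ y := by
    rw [h2]
    nlinarith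
  have h4 : m * Example_e x (k + 1) + 1 ≤ Example_e y (k + 1) := by
    have h5 : (Example_e x (k + 1) : ℝ) ≤ A ^ x := Nat.floor_le (by linarith)
    have h6 : A ^ y < (Example_e y (k + 1) : ℝ) + 1 := Nat.lt_floor_add_one _
    have h7 : ((m * Example_e x (k + 1) + 1 : ℕ) : ℝ) < ((Example_e y (k + 1) + 1 : ℕ) : ℝ) := by
      push_cast
      have h8 : (m : ℝ) * (Example_e x (k + 1) : ℝ) ≤ m * A ^ x :=
        mul_le_mul_of_nonneg_left h5 (Nat.cast_nonneg m)
      linarith
    have h9 : m * Example_e x (k + 1) + 1 < Example_e y (k + 1) + 1 := by exact_mod_cast h7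
    omega
  calc Example_D y (k + 1) ≤ 2 * ((2 : ℝ) ^ Example_e y (k + 1))⁻¹ :=
        Example_D_le (by linarith) _
    _ ≤ 2 * ((2 : ℝ) ^ (m * Example_e x (k + 1) + 1))⁻¹ := by
        apply mul_le_mul_of_nonneg_left _ (by norm_num)
        exact inv_anti₀ (by positivity) (pow_le_pow_right₀ (by norm_num) h4)
    _ = (((2 : ℝ) ^ Example_e x (k + 1))⁻¹) ^ m := by
        rw [pow_succ, mul_comm m, pow_mul, inv_pow]
        field_simp
    _ ≤ Example_D x (k + 1) ^ m :=
        pow_le_pow_left₀ (by positivity) (Example_le_D hx _) m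

theorem Example_inj_aux {x y : ℝ} (hx : 1 ≤ x) (hxy : x < y) (hy : y ≤ 2) : lamb x ≠ lamb y := by
  intro h
  have h1 := Example_sep hx hxy 2
  have h2 : ∀ᶠ k : ℕ in atTop, 2 ≤ k := eventually_ge_atTop 2
  obtain ⟨k, hk, hk2⟩ := (h1.and h2).exists
  have h3 : 1 + 1 ≤ tower k := Example_tower_two k
  have hsx := Example_small hx 1 k h3
  have hsy := Example_small (show (1 : ℝ) ≤ y by linarith) 1 k h3
  have hex := Example_sub hx (by linarith) k
  have hey := Example_sub (show (1 : ℝ) ≤ y by linarith) hy k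
  set q : ℕ := 2 ^ tower k ^ 2 with hq
  have hq0 : 0 < q := by positivity
  have hq1 : (0 : ℝ) < (q : ℝ) := by exact_mod_cast hq0
  have hpx := Example_D_pos hx (k + 1)
  have hpy := Example_D_pos (show (1 : ℝ) ≤ y by linarith) (k + 1)
  rw [pow_one] at hsx hsy
  have h4 : Real.exp (-(q : ℝ)) < 1 / (q : ℝ) := by
    rw [Real.exp_neg, one_div]
    apply inv_strictAnti₀ hq1
    have := Real.add_one_le_exp (q : ℝ)
    linarith
  have h5 : (Example_p x k : ℝ) / q - (Example_p y k : ℝ) / q =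
      Example_D y (k + 1) - Example_D x (k + 1) := by linarith
  have h6 : |((Example_p x k - Example_p y k : ℤ) : ℝ)| < 1 := by
    have h7 : ((Example_p x k - Example_p y k : ℤ) : ℝ) =
        q * (Example_D y (k + 1) - Example_D x (k + 1)) := by
      rw [← h5]
      push_cast
      field_simp
    rw [h7, abs_mul, abs_of_pos hq1]
    have h8 : |Example_D y (k + 1) - Example_D x (k + 1)| < 1 / q := by
      rw [abs_lt]
      constructor <;> linarith
    calc (q : ℝ) * |Example_D y (k + 1) - Example_D x (k + 1)| < q * (1 / q) :=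
          mul_lt_mul_of_pos_left h8 hq1
      _ = 1 := by field_simp
  have h9 : Example_p x k - Example_p y k = 0 := by
    have : |Example_p x k - Example_p y k| < 1 := by exact_mod_cast h6
    exact Int.abs_lt_one_iff.mp this
  have h10 : Example_p x k = Example_p y k := by omega
  rw [h10] at h5
  have h11 : Example_D y (k + 1) = Example_D x (k + 1) := by linarith
  rw [h11] at hk
  have h12 : Example_D x (k + 1) < 1 := by
    have : Real.exp (-(q : ℝ)) < 1 := by
      rw [Real.exp_lt_one_iff]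
      linarith
    linarith
  nlinarith

theorem Example_injOn : Set.InjOn lamb (Set.Ioo 1 2) := by
  intro x hx y hy h
  by_contra hne
  rcases lt_or_gt_of_ne hne with h1 | h1
  · exact Example_inj_aux hx.1.le h1 hy.2.le h
  · exact Example_inj_aux hy.1.le h1 hx.2.le h.symm

theorem Example_Sep {r : ℕ} (x : Fin r → ℝ) (hx : ∀ i, x i ∈ Set.Ioo (1 : ℝ) 2)
    (hmono : StrictMono x) : Sep (fun i => lamb (x i)) := by
  intro m
  have h1 : ∀ᶠ k in atTop, ∀ i j : Fin r, i < j →
      Example_D (x j) (k + 1) ≤ Example_D (x i) (k + 1) ^ m := by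
    rw [eventually_all]
    intro i
    rw [eventually_all]
    intro j
    by_cases hij : i < j
    · filter_upwards [Example_sep (hx i).1.le (hmono hij) m] with k hk _
      exact hk
    · exact Eventually.of_forall fun k h => absurd h hij
  have h2 : ∀ᶠ k : ℕ in atTop, m + 1 ≤ k := eventually_ge_atTop _
  obtain ⟨k, hk, hk2⟩ := (h1.and h2).exists
  have hm : m + 1 ≤ tower k := hk2.trans (Example_tower_ge k)
  refine ⟨2 ^ tower k ^ 2, ?_, fun i => Example_p (x i) k, ?_, ?_, ?_⟩
  · calc 2 = 2 ^ 1 := by norm_num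
      _ ≤ 2 ^ tower k ^ 2 := Nat.pow_le_pow_right (by norm_num)
          (Nat.one_le_iff_ne_zero.mpr (pow_ne_zero _ (by
            have := Example_tower_two k
            omega)))
  · intro i h
    have h3 := Example_sub (hx i).1.le (hx i).2.le k
    have h4 := Example_D_pos (hx i).1.le (k + 1)
    simp only at h
    rw [h, sub_self] at h3
    linarith
  · intro i
    have h3 := Example_sub (hx i).1.le (hx i).2.le k
    have h4 := Example_D_pos (hx i).1.le (k + 1)
    have h5 := Example_small (hx i).1.le m k hm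
    simp only
    rw [h3, abs_of_pos h4]
    exact h5
  · intro i j hij
    have h3 := Example_sub (hx i).1.le (hx i).2.le k
    have h3' := Example_sub (hx j).1.le (hx j).2.le k
    have h4 := Example_D_pos (hx i).1.le (k + 1)
    have h4' := Example_D_pos (hx j).1.le (k + 1)
    simp only
    rw [h3, h3', abs_of_pos h4, abs_of_pos h4']
    exact hk i j hij

/-- PW-32 -/
theorem good_example : Good (lamb '' Set.Ioo 1 2) ∧
    Cardinal.mk (lamb '' Set.Ioo 1 2) = Cardinal.continuum := by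
  constructor
  · intro T hT hTS
    obtain ⟨F, hF, hFT⟩ : ∃ F : Finset ℝ, (F : Set ℝ) ⊆ Set.Ioo (1 : ℝ) 2 ∧
        lamb '' (F : Set ℝ) = T := by
      obtain ⟨F, hF1, hF2, hF3⟩ := Set.exists_subset_bijOn (Set.Ioo (1 : ℝ) 2) lamb |>.imp
        fun F h => (show F ⊆ Set.Ioo (1 : ℝ) 2 ∧ True ∧ _ from ⟨h.1, trivial, h.2⟩)
      have hfin : (F ∩ lamb ⁻¹' T).Finite := by
        refine Set.Finite.of_finite_image (f := lamb) (hT.subset ?_) ?_
        · rintro _ ⟨y, hy, rfl⟩
          exact hy.2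
        · exact hF3.injOn.mono Set.inter_subset_left
      refine ⟨hfin.toFinset, ?_, ?_⟩
      · intro y hy
        simp only [Set.Finite.coe_toFinset] at hy
        exact hF1 hy.1
      · ext t
        simp only [Set.Finite.coe_toFinset]
        constructor
        · rintro ⟨y, hy, rfl⟩
          exact hy.2
        · intro ht
          obtain ⟨y, hy, rfl⟩ := hF3.surjOn (hTS ht)
          exact ⟨y, ⟨hy, ht⟩, rfl⟩
    refine ⟨F.card, fun i => lamb (F.orderEmbOfFin rfl i), ?_, ?_, ?_⟩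
    · refine Example_Sep _ (fun i => hF ?_) (F.orderEmbOfFin rfl).strictMono
      exact Finset.orderEmbOfFin_mem F rfl i
    · intro t ht
      rw [← hFT] at ht
      obtain ⟨y, hy, rfl⟩ := ht
      have hr : y ∈ Set.range (F.orderEmbOfFin rfl) := by
        rw [Finset.range_orderEmbOfFin]
        exact hy
      obtain ⟨i, hi⟩ := hr
      exact ⟨i, by simp only [hi]⟩
    · rintro _ ⟨i, rfl⟩
      exact ⟨_, hF (Finset.orderEmbOfFin_mem F rfl i), rfl⟩
  · rw [Cardinal.mk_image_eq_of_injOn _ _ Example_injOn, Cardinal.mk_Ioo_real (by norm_num)]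

end Pool.Agent.helper82.PW
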